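import Pool.Agent.H305.TI.Sq

/-!
Ancient limits of sequences of solutions with the bounds of type I.
-/

set_option autoImplicit false

open MeasureTheory Set Metric Filter Topology
open scoped ContDiff

namespace Pool.Agent.H305.TI

open H459R3.NS W221.NS Pool.Agent.V1183.PM
open Pool.Agent.TH305.DR (Om bb SS SS_zero SS_succ SS_one SS_nonneg SV ST ST_nonneg SV_nonneg om_sm
  bb_sm pd_congr_open pd_const' pd_sum' SS_scale SS_congr_open pd_sub' pd_add' pd_neg' SS_le_succ
  SS_sum3 SS_mul SS_add SS_sub SS_neg)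
open Pool.Agent.W583.MD (sm_pd cs_pd pd_mul')
open Pool.Agent.W22.ME.TD (pd_comm)

/-- The components of the derivative of the vorticity along the flow. -/
noncomputable def stre (i j : Fin 3) (v : V → V) (x : V) : ℝ :=
  ∑ m, (pd i (fun y => v y m) x * pd m (fun y => v y j) x
    - pd j (fun y => v y m) x * pd m (fun y => v y i) x)

/-- The right-hand side of the equation for the vorticity. -/
lemma rhs_eq {v : V → V} (hv : ∀ i, ContDiff ℝ ∞ (fun y => v y i)) (i j : Fin 3) (x : V) :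
    lap (Om i j v) x - pd i (bb v j) x + pd j (bb v i) x
      = lap (Om i j v) x - adv v (Om i j v) x - stre i j v x := by
  have ho : ∀ i j, ContDiff ℝ ∞ (Om i j v) := fun i j => om_sm hv i j
  have e1 : ∀ i j, pd i (bb v j) x = ∑ m, (v x m * pd i (Om m j v) x
      + pd i (fun y => v y m) x * Om m j v x) := by
    intro i j
    have e2 : bb v j = fun y => ∑ m, v y m * Om m j v y := rfl
    rw [e2]
    rw [congrFun (pd_sum' Finset.univ (f := fun m y => v y m * Om m j v y)
      (fun m => (hv m).mul (ho m j)) i) x]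
    exact Finset.sum_congr rfl fun m _ => pd_mul' (hv m) (ho m j) i x
  have e3 : ∀ k i j, pd k (Om i j v) x
      = pd k (pd i (fun y => v y j)) x - pd k (pd j (fun y => v y i)) x := by
    intro k i j
    have : Om i j v = fun y => pd i (fun y => v y j) y - pd j (fun y => v y i) y := rfl
    rw [this, pd_sub' (sm_pd (hv j) i) (sm_pd (hv i) j)]
  have e4 : ∀ a b c, pd a (pd b (fun y => v y c)) x = pd b (pd a (fun y => v y c)) x := fun a b c =>
    congrFun (pd_comm (hv c) a b) x
  rw [e1, e1]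
  unfold adv stre
  simp only [e3]
  unfold Om
  simp only [Fin.sum_univ_three]
  linear_combination
    (-(v x 0)) * (e4 i 0 j - e4 i j 0 - e4 j 0 i)
    - (v x 1) * (e4 i 1 j - e4 i j 1 - e4 j 1 i)
    - (v x 2) * (e4 i 2 j - e4 i j 2 - e4 j 2 i)

lemma TG.vort2 {M T L : ℝ} {u : ℝ → V → V} {p : ℝ → V → ℝ} (h : TG M T L u p) {t : ℝ}
    (ht : t ∈ Ioo 0 T) {x : V} (hx : x ∈ ball (0 : V) L) (i j : Fin 3) :
    HasDerivAt (fun s => Om i j (u s) x)
      (lap (Om i j (u t)) x - adv (u t) (Om i j (u t)) x - stre i j (u t) x) t := by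
  have h1 := ((h.jOm i j).dfT ht x).hasDerivAt
  have h2 := h.vort ht hx i j
  rw [h2] at h1
  rw [← rhs_eq (h.sl ht) i j x]
  exact h1

/-- Ancient solutions with the bounds of type I. -/
structure Anc (M : ℝ) (v : ℝ → V → V) : Prop where
  sm : ∀ t < 0, ∀ i, ContDiff ℝ ∞ (fun x => v t x i)
  dv : ∀ t < 0, ∀ x, W221.NS.dv (v t) x = 0
  bd : ∀ t < 0, ∀ x, ‖v t x‖ * (‖x‖ + √(-t)) ≤ M
  der : ∀ k, ∃ D, ∀ t < 0, ∀ x i, (-t) ^ (k + 1) * SS k (fun y => v t y i) x ≤ D
  cont : ∀ (l : List (Fin 3)) (i : Fin 3),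
    ContinuousOn (fun z : ℝ × V => it l (fun y => v z.1 y i) z.2) (Iio 0 ×ˢ univ)
  vort : ∀ t < 0, ∀ x i j, HasDerivAt (fun s => Om i j (v s) x)
    (lap (Om i j (v t)) x - adv (v t) (Om i j (v t)) x - stre i j (v t) x) t

/-- The limit. -/
noncomputable def vlim (U : Ultrafilter ℕ) (T : ℕ → ℝ) (u : ℕ → ℝ → V → V) (t : ℝ) (x : V) : V :=
  fun i => ul U fun n => u n (T n + t) x i

section
variable {M : ℝ} {T L : ℕ → ℝ} {u : ℕ → ℝ → V → V} {p : ℕ → ℝ → V → ℝ} {U : Ultrafilter ℕ}

lemma vlim_slice (t : ℝ) (i : Fin 3) : (fun y => vlim U T u t y i)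
    = ulf U (fun n y => u n (T n + t) y i) := rfl

lemma Sq.it_lim (hM : 0 < M) (hU : (U : Filter ℕ) ≤ atTop) (h : Sq M T L u p) {t : ℝ} (ht : t < 0)
    (l : List (Fin 3)) (i : Fin 3) (x : V) :
    Tendsto (fun n => it l (fun y => u n (T n + t) y i) x) U
      (𝓝 (it l (fun y => vlim U T u t y i) x)) := by
  have hb := h.bs hM hU ht i
  rw [vlim_slice, hb.it_ulf l]
  exact (hb.it l).tendsto x

lemma Sq.pd_lim (hM : 0 < M) (hU : (U : Filter ℕ) ≤ atTop) (h : Sq M T L u p) {t : ℝ} (ht : t < 0)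
    (i j : Fin 3) (x : V) :
    Tendsto (fun n => pd j (fun y => u n (T n + t) y i) x) U
      (𝓝 (pd j (fun y => vlim U T u t y i) x)) := h.it_lim hM hU ht [j] i x

lemma Sq.u_lim (hM : 0 < M) (hU : (U : Filter ℕ) ≤ atTop) (h : Sq M T L u p) {t : ℝ} (ht : t < 0)
    (i : Fin 3) (x : V) :
    Tendsto (fun n => u n (T n + t) x i) U (𝓝 (vlim U T u t x i)) := h.it_lim hM hU ht [] i x

lemma om_it {v : V → V} (i j : Fin 3) (x : V) :
    Om i j v x = it [i] (fun y => v y j) x - it [j] (fun y => v y i) x := rfl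

lemma pd_om_it {v : V → V} (hv : ∀ i, ContDiff ℝ ∞ (fun y => v y i)) (k i j : Fin 3) (x : V) :
    pd k (Om i j v) x = it [i, k] (fun y => v y j) x - it [j, k] (fun y => v y i) x := by
  have : Om i j v = fun y => pd i (fun y => v y j) y - pd j (fun y => v y i) y := rfl
  rw [this, pd_sub' (sm_pd (hv j) i) (sm_pd (hv i) j)]
  rfl

lemma lap_om_it {v : V → V} (hv : ∀ i, ContDiff ℝ ∞ (fun y => v y i)) (i j : Fin 3) (x : V) :
    lap (Om i j v) x = ∑ k, (it [i, k, k] (fun y => v y j) x - it [j, k, k] (fun y => v y i) x) := by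
  unfold lap
  refine Finset.sum_congr rfl fun k _ => ?_
  have : pd k (Om i j v) = fun y => pd k (pd i (fun y => v y j)) y - pd k (pd j (fun y => v y i)) y := by
    funext y
    exact pd_om_it hv k i j y
  rw [this, pd_sub' (sm_pd (sm_pd (hv j) i) k) (sm_pd (sm_pd (hv i) j) k)]
  rfl

/-- The right-hand side in terms of iterated derivatives. -/
noncomputable def RH (i j : Fin 3) (v : V → V) (x : V) : ℝ :=
  (∑ k, (it [i, k, k] (fun y => v y j) x - it [j, k, k] (fun y => v y i) x))
    - (∑ k, v x k * (it [i, k] (fun y => v y j) x - it [j, k] (fun y => v y i) x))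
    - ∑ m, (it [i] (fun y => v y m) x * it [m] (fun y => v y j) x
      - it [j] (fun y => v y m) x * it [m] (fun y => v y i) x)

lemma RH_eq {v : V → V} (hv : ∀ i, ContDiff ℝ ∞ (fun y => v y i)) (i j : Fin 3) (x : V) :
    lap (Om i j v) x - adv v (Om i j v) x - stre i j v x = RH i j v x := by
  unfold RH adv stre
  rw [lap_om_it hv]
  simp only [pd_om_it hv]
  rfl

lemma Sq.RH_llb (hM : 0 < M) (hU : (U : Filter ℕ) ≤ atTop) (h : Sq M T L u p) (i j : Fin 3) :
    LLB U (fun n t => RH i j (u n (T n + t))) := by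
  have hl := fun l i => h.llb (U := U) hM hU l i
  have h0 : ∀ i, LLB U (fun n t x => u n (T n + t) x i) := fun i => hl [] i
  refine ((LLB.sum fun k => (hl [i, k, k] j).sub (hl [j, k, k] i)).sub
    (LLB.sum fun k => (h0 k).mul ((hl [i, k] j).sub (hl [j, k] i)))).sub
    (LLB.sum fun m => ((hl [i] m).mul (hl [m] j)).sub ((hl [j] m).mul (hl [m] i)))

lemma Sq.RH_lim (hM : 0 < M) (hU : (U : Filter ℕ) ≤ atTop) (h : Sq M T L u p) {t : ℝ} (ht : t < 0)
    (i j : Fin 3) (x : V) :
    Tendsto (fun n => RH i j (u n (T n + t)) x) U (𝓝 (RH i j (vlim U T u t) x)) := by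
  have hl := fun l i => h.it_lim (U := U) hM hU ht l i x
  have h0 : ∀ i, Tendsto (fun n => u n (T n + t) x i) U (𝓝 (vlim U T u t x i)) := fun i => hl [] i
  unfold RH
  exact ((tendsto_finsetSum _ fun k _ => (hl [i, k, k] j).sub (hl [j, k, k] i)).sub
    (tendsto_finsetSum _ fun k _ => (h0 k).mul ((hl [i, k] j).sub (hl [j, k] i)))).sub
    (tendsto_finsetSum _ fun m _ => ((hl [i] m).mul (hl [m] j)).sub ((hl [j] m).mul (hl [m] i)))

/-- The limit is an ancient solution. -/
theorem Sq.anc (hM : 0 < M) (hU : (U : Filter ℕ) ≤ atTop) (h : Sq M T L u p) :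
    Anc M (vlim U T u) where
  sm := fun t ht i => by
    rw [vlim_slice]
    exact (h.bs hM hU ht i).smooth
  dv := fun t ht x => by
    have h1 : Tendsto (fun n => ∑ i, pd i (fun y => u n (T n + t) y i) x) U
        (𝓝 (∑ i, pd i (fun y => vlim U T u t y i) x)) :=
      tendsto_finsetSum _ fun i _ => h.pd_lim hM hU ht i i x
    have h2 : ∀ᶠ n in (U : Filter ℕ), ∑ i, pd i (fun y => u n (T n + t) y i) x = 0 := by
      filter_upwards [hU (h.ev t (‖x‖ + 1) 0)] with n hn
      obtain ⟨g1, -, -, -, g5⟩ := hn t le_rfl ht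
      exact (h.tg n).dv _ g1 x (g5 x (by rw [mem_ball, dist_zero_right]; linarith)).1
    exact tendsto_nhds_unique h1 ((tendsto_congr' h2).2 tendsto_const_nhds)
  bd := fun t ht x => by
    have hs : 0 < √(-t) := Real.sqrt_pos.2 (by linarith)
    have hd : 0 < ‖x‖ + √(-t) := by
      have := norm_nonneg x
      linarith
    rw [← le_div_iff₀ hd, pi_norm_le_iff_of_nonneg (by positivity)]
    intro i
    have h1 := (h.u_lim hM hU ht i x).norm
    apply le_of_tendsto h1
    filter_upwards [hU (h.ev t (‖x‖ + 1) 0)] with n hn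
    obtain ⟨g1, -, -, -, g5⟩ := hn t le_rfl ht
    have h2 := (h.tg n).bu _ g1 x (g5 x (by rw [mem_ball, dist_zero_right]; linarith)).1
    have e : T n - (T n + t) = -t := by ring
    rw [e, ← le_div_iff₀ hd] at h2
    exact (norm_le_pi_norm _ i).trans h2
  der := fun k => by
    obtain ⟨D, hD, hV⟩ := derV hM k
    refine ⟨D, fun t ht x i => ?_⟩
    have hb := h.bs hM hU ht i
    have h1 := (hb.SS_tendsto k x).const_mul ((-t) ^ (k + 1))
    rw [vlim_slice]
    apply le_of_tendsto h1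
    filter_upwards [hU (h.ev t (‖x‖ + 1) 0)] with n hn
    obtain ⟨g1, g2, g3, g4, g5⟩ := hn t le_rfl ht
    have hx : x ∈ ball (0 : V) (‖x‖ + 1) := by rw [mem_ball, dist_zero_right]; linarith
    have b1 := hV _ _ _ _ (h.tg n) (T n + t) x g2 g3 g4 (g5 x hx).2.1 k le_rfl i
    have e : T n - (T n + t) = -t := by ring
    rw [e] at b1
    exact b1
  cont := fun l i => by
    refine ((h.llb hM hU l i).cont).congr ?_
    rintro ⟨t, x⟩ ⟨ht, -⟩
    exact (ul_eq (h.it_lim hM hU ht l i x)).symm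
  vort := fun t ht x i j => by
    have hsm : ∀ i, ContDiff ℝ ∞ (fun y => vlim U T u t y i) := fun i => by
      rw [vlim_slice]
      exact (h.bs hM hU ht i).smooth
    rw [RH_eq hsm]
    have hR := h.RH_llb hM hU i j
    have hO : LLB U (fun n t => Om i j (u n (T n + t))) :=
      (h.llb hM hU [i] j).sub (h.llb hM hU [j] i)
    obtain ⟨B, C, hB, hC, hBC⟩ := hR (2 * t) (t / 2) (‖x‖ + 1) (by linarith)
    have hx : x ∈ ball (0 : V) (‖x‖ + 1) := by rw [mem_ball, dist_zero_right]; linarith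
    have hIcc : ∀ s, |s - t| < -t / 2 → s ∈ Icc (2 * t) (t / 2) := by
      intro s hs
      rw [abs_lt] at hs
      constructor <;> linarith [hs.1, hs.2]
    have key := ul_hd (U := U) (g := fun n s => Om i j (u n (T n + s)) x)
      (g' := fun n s => RH i j (u n (T n + s)) x) (G := fun n => RH i j (u n (T n + t)) x)
      (t := t) (r := -t / 2) (C := C) (BG := B) (by linarith) hC
      (fun s hs => hO.bdd (by
        rw [abs_lt] at hs
        linarith [hs.2]) x)
      (by
        filter_upwards [hBC] with n hn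
        exact (hn t ⟨by linarith, by linarith⟩ x hx).1)
      (by
        filter_upwards [hU (h.ev (2 * t) (‖x‖ + 1) 0)] with n hn s hs
        have hs2 := hIcc s hs
        obtain ⟨g1, -, -, -, g5⟩ := hn s hs2.1 (by linarith [hs2.2])
        have h1 := TG.vort2 (h.tg n) g1 (g5 x hx).1 i j
        rw [RH_eq ((h.tg n).sl g1)] at h1
        exact h1.comp_const_add (T n) s)
      (by
        intro η hη
        filter_upwards [hBC] with n hn s hs
        have h1 := (hn s (hIcc s hs) x hx).2 t ⟨by linarith, by linarith⟩ x hx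
        rw [sub_self x, norm_zero, add_zero] at h1
        linarith)
    rw [ul_eq (h.RH_lim hM hU ht i j x)] at key
    refine key.congr_of_eventuallyEq ?_
    have hop : ∀ᶠ s in 𝓝 t, s < 0 := gt_mem_nhds ht
    filter_upwards [hop] with s hs
    exact (ul_eq ((h.pd_lim hM hU hs j i x).sub (h.pd_lim hM hU hs i j x))).symm

end

end Pool.Agent.H305.TI
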