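import Pool.Agent.H305.TI.Inner

/-!
Static limits of an ancient solution under rescaling at the singular point.
-/

set_option autoImplicit false

open MeasureTheory Set Metric Filter Topology
open scoped ContDiff

namespace Pool.Agent.H305.TI

open H459R3.NS W221.NS Pool.Agent.V1183.PM
open Pool.Agent.W583.MD (sm_pd cs_pd pd_mul')
open Pool.Agent.TH305.DR (Om SS SS_nonneg SS_scale ST)

lemma BS.llb {U : Ultrafilter ℕ} {F : ℕ → V → ℝ} (h : BS U F) : LLB U (fun n _ x => F n x) := by
  intro a b R _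
  obtain ⟨B, hB, h1⟩ := h.bd R
  have h2 := fun j => (h.pd j).bd R
  choose B' hB' h3 using h2
  have s0 := hB' 0
  have s1 := hB' 1
  have s2 := hB' 2
  refine LB_of (B := B + (B' 0 + B' 1 + B' 2)) (by positivity) ?_
  filter_upwards [h.1, h1, h3 0, h3 1, h3 2] with n hn g1 g20 g21 g22 t ht
  refine ⟨hn, fun x hx => ⟨differentiableAt_const _, (g1 x hx).trans (by linarith), fun j => ?_, ?_⟩⟩
  · fin_cases j
    · exact (g20 x hx).trans (by linarith)
    · exact (g21 x hx).trans (by linarith)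
    · exact (g22 x hx).trans (by linarith)
  · simp only [deriv_const', abs_zero]
    positivity

section
variable {M : ℝ} {v : ℝ → V → V}

/-- The rescaled velocity at one time. -/
noncomputable def rsc (v : ℝ → V → V) (lam t : ℝ) (x : V) : V := fun i => lam * v t (lam • x) i

lemma rsc_sm (h : Anc M v) {lam t : ℝ} (ht : t < 0) (i : Fin 3) :
    ContDiff ℝ ∞ (fun y => rsc v lam t y i) := by
  unfold rsc
  exact contDiff_const.mul ((h.sm t ht i).comp (contDiff_const_smul lam))

lemma rsc_SS (h : Anc M v) {lam t : ℝ} (ht : t < 0) (n : ℕ) (i : Fin 3) (x : V) :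
    SS n (fun y => rsc v lam t y i) x = lam ^ (2 * n + 2) * SS n (fun y => v t y i) (lam • x) := by
  have h1 := SS_scale n (h.sm t ht i) lam lam 0 x
  simp only [zero_add] at h1
  have e : (fun y => rsc v lam t y i) = fun y => lam * v t (lam • y) i := rfl
  rw [e, h1]
  ring

lemma rsc_pd (h : Anc M v) {lam t : ℝ} (ht : t < 0) (i j : Fin 3) (x : V) :
    pd j (fun y => rsc v lam t y i) x = lam ^ 2 * pd j (fun y => v t y i) (lam • x) := by
  have h1 : HasFDerivAt (fun y : V => v t (lam • y) i)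
      ((fderiv ℝ (fun y => v t y i) (lam • x)).comp (lam • ContinuousLinearMap.id ℝ V)) x := by
    have h2 := (((h.sm t ht i).differentiable (by simp)) (lam • x)).hasFDerivAt
    exact h2.comp x (((hasFDerivAt_id x).const_smul lam))
  have h2 := h1.const_mul lam
  unfold pd rsc
  rw [h2.fderiv]
  simp
  ring

lemma rsc_om (h : Anc M v) {lam t : ℝ} (ht : t < 0) (i j : Fin 3) (x : V) :
    Om i j (rsc v lam t) x = lam ^ 2 * Om i j (v t) (lam • x) := by
  unfold Om
  rw [rsc_pd h ht, rsc_pd h ht]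
  ring

/-- Static limits at the singular point. -/
theorem Anc.blow (h : Anc M v) {q K z : ℝ} (hq : 0 < q) (hnd : ND q K z v) :
    ∃ (U : Ultrafilter ℕ) (lam t : ℕ → ℝ) (W : V → V), (U : Filter ℕ) ≤ atTop ∧ (∀ k, 0 < lam k) ∧
      Tendsto lam atTop (𝓝 0) ∧ (∀ k, t k ∈ Icc (-lam k ^ 2) (-(q * lam k ^ 2))) ∧
      (∀ i, ContDiff ℝ ∞ (fun x => W x i)) ∧ (∀ x, W221.NS.dv W x = 0) ∧
      (∀ x, ‖W x‖ * ‖x‖ ≤ M) ∧
      (∀ i x, Tendsto (fun k => lam k * v (t k) (lam k • x) i) U (𝓝 (W x i))) ∧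
      (∀ i j x, Tendsto (fun k => lam k ^ 2 * Om i j (v (t k)) (lam k • x)) U (𝓝 (Om i j W x))) ∧
      ∃ x, z ≤ ST 0 W x := by
  have hM := h.M_nonneg
  obtain ⟨lam, hlam⟩ : ∃ lam : ℕ → ℝ, lam = fun k : ℕ => 1 / ((k : ℝ) + 1) := ⟨_, rfl⟩
  have hlam0 : ∀ k, 0 < lam k := by
    intro k
    rw [hlam]
    positivity
  have hlamT : Tendsto lam atTop (𝓝 0) := by
    rw [hlam]
    exact tendsto_one_div_add_atTop_nhds_zero_nat
  choose t ht x hx hzx using fun k => hnd (lam k) (hlam0 k)
  have ht0 : ∀ k, t k < 0 := by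
    intro k
    have := (ht k).2
    have h1 := hlam0 k
    have : 0 < q * lam k ^ 2 := by positivity
    linarith
  have hU : ((hyperfilter ℕ : Ultrafilter ℕ) : Filter ℕ) ≤ atTop := Nat.hyperfilter_le_atTop
  obtain ⟨U, hUd⟩ : ∃ U : Ultrafilter ℕ, U = hyperfilter ℕ := ⟨_, rfl⟩
  rw [← hUd] at hU
  -- the sequence
  have hBS : ∀ i, BS U (fun k y => rsc v (lam k) (t k) y i) := by
    intro i
    refine ⟨Eventually.of_forall fun k => rsc_sm h (ht0 k) i, fun n R => ?_⟩
    obtain ⟨D, hD⟩ := h.der n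
    refine ⟨D / q ^ (n + 1), Eventually.of_forall fun k y _ => ?_⟩
    rw [rsc_SS h (ht0 k), le_div_iff₀ (by positivity)]
    have h1 := hD (t k) (ht0 k) (lam k • y) i
    have h2 : q * lam k ^ 2 ≤ -t k := by linarith [(ht k).2]
    have h3 : (q * lam k ^ 2) ^ (n + 1) ≤ (-t k) ^ (n + 1) :=
      pow_le_pow_left₀ (by have := hlam0 k; positivity) h2 _
    have h4 := mul_le_mul_of_nonneg_right h3 (SS_nonneg n (fun y => v (t k) y i) (lam k • y))
    calc _ = (q * lam k ^ 2) ^ (n + 1) * SS n (fun y => v (t k) y i) (lam k • y) := by ring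
      _ ≤ _ := h4.trans h1
  obtain ⟨W, hW⟩ : ∃ W : V → V, W = fun x i => ulf U (fun k y => rsc v (lam k) (t k) y i) x := ⟨_, rfl⟩
  have hWi : ∀ i, (fun x => W x i) = ulf U (fun k y => rsc v (lam k) (t k) y i) := by
    intro i
    rw [hW]
  have hWsm : ∀ i, ContDiff ℝ ∞ (fun x => W x i) := fun i => by
    rw [hWi]
    exact (hBS i).smooth
  have hWt : ∀ i x, Tendsto (fun k => rsc v (lam k) (t k) x i) U (𝓝 (W x i)) := by
    intro i x
    have := (hBS i).tendsto x
    rw [← hWi] at this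
    exact this
  have hWpd : ∀ i j x, Tendsto (fun k => pd j (fun y => rsc v (lam k) (t k) y i) x) U
      (𝓝 (pd j (fun y => W y i) x)) := by
    intro i j x
    have := ((hBS i).pd j).tendsto x
    rw [← (hBS i).pd_ulf j, ← hWi] at this
    exact this
  have hWom : ∀ i j x, Tendsto (fun k => Om i j (rsc v (lam k) (t k)) x) U (𝓝 (Om i j W x)) := by
    intro i j x
    exact (hWpd j i x).sub (hWpd i j x)
  refine ⟨U, lam, t, W, hU, hlam0, hlamT, ht, hWsm, ?_, ?_, hWt, ?_, ?_⟩
  · intro y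
    have h1 : Tendsto (fun k => ∑ i, pd i (fun y => rsc v (lam k) (t k) y i) y) U
        (𝓝 (∑ i, pd i (fun y => W y i) y)) := tendsto_finsetSum _ fun i _ => hWpd i i y
    have h2 : ∀ k, ∑ i, pd i (fun y => rsc v (lam k) (t k) y i) y = 0 := by
      intro k
      simp only [rsc_pd h (ht0 k)]
      rw [← Finset.mul_sum]
      have := h.dv (t k) (ht0 k) (lam k • y)
      unfold W221.NS.dv at this
      rw [this, mul_zero]
    simp only [h2] at h1
    exact (tendsto_nhds_unique h1 tendsto_const_nhds)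
  · intro y
    have h1 : ∀ i, |W y i| * ‖y‖ ≤ M := by
      intro i
      have h2 := ((hWt i y).abs).mul_const ‖y‖
      apply le_of_tendsto h2
      refine Eventually.of_forall fun k => ?_
      unfold rsc
      have h3 := h.bd (t k) (ht0 k) (lam k • y)
      have h4 := norm_le_pi_norm (v (t k) (lam k • y)) i
      rw [Real.norm_eq_abs] at h4
      rw [abs_mul, abs_of_pos (hlam0 k)]
      have h5 : ‖lam k • y‖ = lam k * ‖y‖ := by
        rw [norm_smul, Real.norm_of_nonneg (hlam0 k).le]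
      have h6 : |v (t k) (lam k • y) i| * (lam k * ‖y‖) ≤ ‖v (t k) (lam k • y)‖ * (‖lam k • y‖ + √(-t k)) := by
        rw [h5]
        apply mul_le_mul h4 _ (by have := hlam0 k; positivity) (norm_nonneg _)
        linarith [Real.sqrt_nonneg (-t k)]
      linarith
    rcases eq_or_lt_of_le (norm_nonneg y) with hy | hy
    · rw [← hy, mul_zero]
      exact hM
    · rw [← le_div_iff₀ hy]
      rw [pi_norm_le_iff_of_nonneg (by positivity)]
      intro i
      rw [le_div_iff₀ hy, Real.norm_eq_abs]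
      exact h1 i
  · intro i j y
    have := hWom i j y
    simp only [rsc_om h (ht0 _)] at this
    exact this
  · -- a limit point of the points
    have hy : ∀ k, (lam k)⁻¹ • x k ∈ closedBall (0 : V) K := by
      intro k
      rw [mem_closedBall, dist_zero_right, norm_smul, Real.norm_of_nonneg (by
        have := hlam0 k
        positivity), inv_mul_le_iff₀ (hlam0 k)]
      linarith [hx k]
    obtain ⟨y, -, hyl⟩ := ul_compact (U := U) (isCompact_closedBall (0 : V) K) (Eventually.of_forall hy)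
    refine ⟨y, ?_⟩
    have h1 : ∀ i j, Tendsto (fun k => Om i j (rsc v (lam k) (t k)) ((lam k)⁻¹ • x k)) U
        (𝓝 (Om i j W y)) := by
      intro i j
      have h2 := (((hBS j).pd i).llb.sub ((hBS i).pd j).llb).tendsto_seq (t := fun _ => -1)
        (t₀ := -1) (by norm_num) tendsto_const_nhds hyl
      have h3 : (ul U fun k => pd i (fun y => rsc v (lam k) (t k) y j) y
          - pd j (fun y => rsc v (lam k) (t k) y i) y) = Om i j W y := ul_eq (hWom i j y)
      rw [h3] at h2
      exact h2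
    have h2 : Tendsto (fun k => ST 0 (rsc v (lam k) (t k)) ((lam k)⁻¹ • x k)) U (𝓝 (ST 0 W y)) := by
      simp only [st0_eq]
      exact tendsto_finsetSum _ fun q _ => (h1 q.1 q.2).pow 2
    apply ge_of_tendsto h2
    refine Eventually.of_forall fun k => ?_
    have h3 := hzx k
    have h4 : ST 0 (rsc v (lam k) (t k)) ((lam k)⁻¹ • x k) = lam k ^ 4 * ST 0 (v (t k)) (x k) := by
      rw [st0_eq, st0_eq, Finset.mul_sum]
      refine Finset.sum_congr rfl fun q _ => ?_
      rw [rsc_om h (ht0 k), smul_smul, mul_inv_cancel₀ (hlam0 k).ne', one_smul]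
      ring
    rw [h4]
    exact h3

end

end Pool.Agent.H305.TI
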