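import Pool.Graph.R_pool_sql_team_seeded_843ab51a.V1183.PM.Der

/-!
Derivatives of all orders for solutions with the bounds of type I.
-/

set_option autoImplicit false

open MeasureTheory Set Metric Filter Topology
open scoped ContDiff

namespace Pool.Agent.H305.TI

open H459R3.NS W221.NS Pool.Agent.TH305.DR Pool.Agent.V1183.PM
open Pool.Agent.W583.MD (sm_pd cs_pd pd_mul' Z Z.add Z.sub Z.smul Z.sum int_cs Z_pd Z_main)
open Pool.Agent.TH305.LW (tf tf_smooth tf_nonneg tf_le tf_zero tf_one tf_pd tf_lap tf_cs tf_int_le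
  lap_tf_zero rr_pos' two_rr Pth ms pth_exists moll3 pth_speed B2_ii)
open Pool.Agent.W12.MD (th_nonneg th_int th_mul_int th_smooth)

/-- Bounds of the derivatives. -/
theorem derN {M q K : ℝ} (hM : 0 < M) (hq : 0 < q) (hq1 : q ≤ 1 / 2) (hK : 0 < K) (NN : ℕ) :
    ∃ D : ℝ, 0 < D ∧ ∀ (T L : ℝ) (u : ℝ → V → V) (p : ℝ → V → ℝ), TG M T L u p → 2 ≤ T →
      K + 3 < L → ∀ s ∈ Icc (T - 1) (T - q ^ 2), ∀ x ∈ ball (0 : V) (K + 1), ∀ n ≤ NN,
        ST n (u s) x ≤ D ∧ SV (n + 1) (u s) x ≤ D := by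
  obtain ⟨ε, hε, C, CA, hC, hCA, hfix⟩ := fixP
  obtain ⟨CM, hCM, hmol⟩ := moll3
  obtain ⟨CT, hCT, htf⟩ := tf_ints
  obtain ⟨N, χ, hN, hcut⟩ := exists_cut (show 0 < K + 2 by linarith)
    (show K + 2 < K + 2 + 1 by linarith)
  obtain ⟨U, hUd⟩ : ∃ U, U = 3 * (M / q) ^ 2 := ⟨_, rfl⟩
  obtain ⟨P, hPd⟩ : ∃ P, P = (M / q) ^ 2 := ⟨_, rfl⟩
  have hU : 0 < U := by rw [hUd]; positivity
  have hP : 0 < P := by rw [hPd]; positivity
  obtain ⟨W, hWd⟩ : ∃ W, W = U * 8 + (U * CT + (U + 2 * P) * √U * CT) := ⟨_, rfl⟩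
  have hW : 0 < W := by rw [hWd]; positivity
  obtain ⟨k, hk⟩ : ∃ k : ℕ, 16 * W / ε + M / q < 2 ^ k := pow_unbounded_of_one_lt _ one_lt_two
  have k1 : 16 * W / ε ≤ 2 ^ k := by
    have : 0 < M / q := by positivity
    linarith
  have k2 : M / q ≤ 2 ^ k := by
    have : 0 < 16 * W / ε := by positivity
    linarith
  have hrr := two_rr k
  have hrr0 := rr_pos' k
  have p2 : (0 : ℝ) < 2 ^ k := by positivity
  have p21 : (1 : ℝ) ≤ 2 ^ k := one_le_pow₀ (by norm_num)
  have e4 : (4 : ℝ) ^ k = 2 ^ k * 2 ^ k := by rw [← mul_pow]; norm_num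
  have e8 : (8 : ℝ) ^ k = 2 ^ k * 2 ^ k * 2 ^ k := by rw [← mul_pow, ← mul_pow]; norm_num
  have hrr1 : rr k ≤ 1 := by
    have := mul_le_mul_of_nonneg_right p21 hrr0.le
    linarith
  obtain ⟨r, hr⟩ : ∃ r, r = rr k / 32 := ⟨_, rfl⟩
  have hr0 : 0 < r := by rw [hr]; positivity
  have hr1 : r ≤ 1 / 32 := by rw [hr]; linarith
  have hr2 : 0 < r ^ 2 := by positivity
  have hrM : M / q * r ≤ 1 / 2 := by
    have : M / q * rr k ≤ 2 ^ k * rr k := mul_le_mul_of_nonneg_right k2 hrr0.le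
    rw [hr]
    linarith
  have hr1' : r ^ 2 < 1 := by nlinarith
  have ht0 : ∀ n, 0 < C n / r ^ (2 * n + 4)
      + C (n + 1) * (1 + CA * r⁻¹ * (U * (2 * (5 * r)) ^ 3)) / r ^ (2 * n + 4) := by
    intro n
    have := hC n
    have := hC (n + 1)
    positivity
  refine ⟨∑ n ∈ Finset.range (NN + 1), (C n / r ^ (2 * n + 4)
    + C (n + 1) * (1 + CA * r⁻¹ * (U * (2 * (5 * r)) ^ 3)) / r ^ (2 * n + 4)), ?_, ?_⟩
  · exact Finset.sum_pos (fun n _ => ht0 n) ⟨0, by simp⟩
  intro T L u p h hT hL s hs x hx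
  have hLs := h.lsol (R := K + 2) hcut hN (by linarith) (by linarith)
  have hs0 : 0 < s - r ^ 2 := by
    have := hs.1
    nlinarith
  have hsT : s < T := by
    have := hs.2
    have : 0 < q ^ 2 := by positivity
    linarith
  have hab : s - r ^ 2 < s := by linarith
  obtain ⟨Z, hZ, hZs⟩ := pth_exists hmol (Real.sqrt_nonneg _) (Real.sqrt_nonneg _) (lsol_three hLs) hr0
    hs0 hab hsT x
  have hxn : ‖x‖ < K + 1 := by simpa using hx
  -- the displacement
  have hsub : ∀ t ∈ Icc (s - r ^ 2) s, t ∈ Ioo 0 T := fun t ht => ⟨hs0.trans_le ht.1, ht.2.trans_lt hsT⟩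
  have hcb : ∀ t ∈ Icc (s - r ^ 2) s, ∀ y, ‖cu χ u t y‖ ≤ M / q := by
    intro t ht y
    rw [pi_norm_le_iff_of_nonneg (by positivity)]
    intro i
    unfold cu
    rw [norm_mul, Real.norm_of_nonneg (hcut.nn y)]
    by_cases hy : χ y = 0
    · rw [hy, zero_mul]; positivity
    · have hyL : y ∈ ball (0 : V) L := ball_subset_ball (by linarith) (cut_ball hcut hy)
      have h1 := (h.u_bd (hsub t ht) hyL hq (ht.2.trans hs.2)).1
      have h2 := norm_le_pi_norm (u t y) i
      have h3 := hcut.le y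
      have h4 := hcut.nn y
      have h5 := norm_nonneg (u t y i)
      nlinarith
  have hcc : ∀ t ∈ Icc (s - r ^ 2) s, Continuous (cu χ u t) := by
    intro t ht
    apply continuous_pi
    intro i
    exact hcut.sm.continuous.mul (h.sl (hsub t ht) i).continuous
  have hdis : ∀ t ∈ Icc (s - r ^ 2) s, ‖Z t - x‖ ≤ r / 2 := by
    have h1 : ∀ t ∈ Ioo (s - r ^ 2) s, ‖Z t - x‖ ≤ r / 2 := by
      intro t ht
      have h2 := pth_speed hZ (M := M / q) (fun τ hτ y =>
        mol_bd r (hcc τ (Ioo_subset_Icc_self hτ)) (by positivity) (hcb τ (Ioo_subset_Icc_self hτ)) y)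
        (a := t) (b := s) ht.1 ht.2.le le_rfl
      rw [hZs, ← norm_neg, neg_sub] at h2
      refine h2.trans ?_
      have h3 : s - t ≤ r ^ 2 := by linarith [ht.1]
      calc M / q * (s - t) ≤ M / q * r ^ 2 := mul_le_mul_of_nonneg_left h3 (by positivity)
        _ = (M / q * r) * r := by ring
        _ ≤ 1 / 2 * r := mul_le_mul_of_nonneg_right hrM hr0.le
        _ = r / 2 := by ring
    have hcl : Icc (s - r ^ 2) s = closure (Ioo (s - r ^ 2) s) := (closure_Ioo hab.ne).symm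
    intro t ht
    have hcont : ContinuousOn (fun t => ‖Z t - x‖) (closure (Ioo (s - r ^ 2) s)) := by
      rw [← hcl]
      exact (hZ.cont.sub continuousOn_const).norm
    exact le_on_closure (f := fun t => ‖Z t - x‖) (g := fun _ => r / 2) h1 hcont
      continuousOn_const (hcl ▸ ht)
  have hb1 : ∀ t ∈ Icc (s - r ^ 2) s, ball (Z t) (8 * r) ⊆ ball (0 : V) (K + 2) := by
    intro t ht y hy
    rw [mem_ball, dist_zero_right]
    rw [mem_ball, dist_eq_norm] at hy
    have h1 := hdis t ht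
    calc ‖y‖ = ‖(y - Z t) + (Z t - x) + x‖ := by congr 1; abel
      _ ≤ ‖y - Z t‖ + ‖Z t - x‖ + ‖x‖ := norm_add₃_le
      _ < K + 2 := by linarith
  have hb2 : ∀ t ∈ Icc (s - r ^ 2) s, ball (Z t) (8 * r) ⊆ ball x (rr (k + 1)) := by
    intro t ht y hy
    rw [mem_ball, dist_eq_norm] at hy ⊢
    have h1 := hdis t ht
    have e : rr (k + 1) = 16 * r := by
      rw [hr]
      unfold rr
      rw [pow_succ]
      ring
    calc ‖y - x‖ = ‖(y - Z t) + (Z t - x)‖ := by congr 1; abel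
      _ ≤ ‖y - Z t‖ + ‖Z t - x‖ := norm_add_le _ _
      _ < _ := by rw [e]; linarith
  -- the dissipation
  have hsupp : ∀ z, tf k x z ≠ 0 → z ∈ ball (0 : V) L := by
    intro z hz
    have h1 : z ∈ ball x (rr k) := by
      by_contra hcon
      exact hz (tf_zero k x z hcon)
    rw [mem_ball, dist_eq_norm] at h1
    rw [mem_ball, dist_zero_right]
    calc ‖z‖ = ‖(z - x) + x‖ := by congr 1; abel
      _ ≤ ‖z - x‖ + ‖x‖ := norm_add_le _ _
      _ < L := by linarith
  have hcac := h.cac (tf_smooth k x) hsupp (tf_nonneg k x) (a := s - r ^ 2) (b := s) (U := U) (P := P)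
    hs0 hab.le hsT hU.le hP.le
    (fun z hz => by
      have := (h.u_bd (hsub (s - r ^ 2) ⟨le_rfl, hab.le⟩) (hsupp z hz) hq (by linarith [hs.2])).2.1
      rw [hUd]; exact this)
    (fun t ht z hz => by
      have hzb : z ∈ ball (0 : V) L := by
        have h1 : z ∈ ball x (rr k) := by
          by_contra hcon
          rcases hz with hz | ⟨j, hz⟩
          · exact hz (lap_tf_zero k x hcon)
          · exact hz (pd_tf_zero k x j hcon)
        rw [mem_ball, dist_eq_norm] at h1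
        rw [mem_ball, dist_zero_right]
        calc ‖z‖ = ‖(z - x) + x‖ := by congr 1; abel
          _ ≤ ‖z - x‖ + ‖x‖ := norm_add_le _ _
          _ < L := by linarith
      have := (h.u_bd (hsub t ht) hzb hq (ht.2.trans hs.2)).2
      rw [hUd, hPd]; exact this)
    (tf_int_le k x) (htf k x).1 (htf k x).2
  have hcac2 : ∫ t in (s - r ^ 2)..s, ∫ z, gsq (u t) z * tf k x z ≤ W / 2 := by
    have h0 : s - (s - r ^ 2) = r ^ 2 := by ring
    rw [h0] at hcac
    have h1 : r ^ 2 * 4 ^ k ≤ 1 := by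
      rw [e4, hr]
      have : (rr k / 32) ^ 2 * (2 ^ k * 2 ^ k) = (2 ^ k * rr k) ^ 2 / 1024 := by ring
      rw [this, hrr]
      norm_num
    have h2 : r ^ 2 * 2 ^ k ≤ 1 := by
      refine le_trans ?_ h1
      apply mul_le_mul_of_nonneg_left _ hr2.le
      rw [e4]
      nlinarith
    have h3 : r ^ 2 * (U * (CT * 4 ^ k) + (U + 2 * P) * √U * (CT * 2 ^ k))
        ≤ U * CT + (U + 2 * P) * √U * CT := by
      have a1 : 0 ≤ U * CT := by positivity
      have a2 : 0 ≤ (U + 2 * P) * √U * CT := by positivity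
      calc r ^ 2 * (U * (CT * 4 ^ k) + (U + 2 * P) * √U * (CT * 2 ^ k))
          = (U * CT) * (r ^ 2 * 4 ^ k) + ((U + 2 * P) * √U * CT) * (r ^ 2 * 2 ^ k) := by ring
        _ ≤ (U * CT) * 1 + ((U + 2 * P) * √U * CT) * 1 :=
            add_le_add (mul_le_mul_of_nonneg_left h1 a1) (mul_le_mul_of_nonneg_left h2 a2)
        _ = _ := by ring
    rw [hWd]
    linarith
  have hms : ms (cu χ u) r Z (s - r ^ 2) s ≤ ε := by
    unfold ms
    have jg : ContinuousOn (fun t => ∫ z, gsq (u t) z * tf k x z) (Ioo 0 T) := by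
      refine ct_int (R := L) (F := fun t z => gsq (u t) z * tf k x z) ?_ ?_
      · have jg : J T (fun s z => gsq (u s) z) := by
          unfold gsq
          exact ContDiffOn.sum fun i _ => ContDiffOn.sum fun j _ => ContDiffOn.pow ((h.ju i).pd j) 2
        exact jg.mul (J.space (tf_smooth k x))
      · intro t _ z hz
        have : tf k x z = 0 := by
          by_contra hcon
          exact hz (ball_subset_closedBall (hsupp z hcon))
        rw [this, mul_zero]
    have i1 : IntervalIntegrable (fun t => (8 ^ k)⁻¹ * ∫ z, gsq (u t) z * tf k x z) volume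
        (s - r ^ 2) s := by
      apply ContinuousOn.intervalIntegrable
      rw [uIcc_of_le hab.le]
      exact continuousOn_const.mul (jg.mono hsub)
    have h1 : ∫ τ in (s - r ^ 2)..s, B2 (Z τ) (8 * r) (cu χ u τ)
        ≤ ∫ τ in (s - r ^ 2)..s, (8 ^ k)⁻¹ * ∫ z, gsq (u τ) z * tf k x z := by
      apply intervalIntegral.integral_mono_on hab.le
        (B2_ii hLs.smooth_u hs0 hsT hZ.cont _ le_rfl hab.le le_rfl) i1
      intro t ht
      exact h.B2_le hcut (by linarith) (hsub t ht) k (hb1 t ht) (hb2 t ht)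
    rw [intervalIntegral.integral_const_mul] at h1
    have h2 : r⁻¹ * ∫ τ in (s - r ^ 2)..s, B2 (Z τ) (8 * r) (cu χ u τ)
        ≤ r⁻¹ * ((8 ^ k)⁻¹ * (W / 2)) := by
      apply mul_le_mul_of_nonneg_left _ (by positivity)
      exact h1.trans (mul_le_mul_of_nonneg_left hcac2 (by positivity))
    refine h2.trans ?_
    have h3 : r⁻¹ = 32 * 2 ^ k := by
      apply inv_eq_of_mul_eq_one_left
      rw [hr]
      linarith
    rw [h3, e8]
    have h4 : 32 * (2 : ℝ) ^ k * ((2 ^ k * 2 ^ k * 2 ^ k)⁻¹ * (W / 2)) = 16 * W / (2 ^ k * 2 ^ k) := by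
      field_simp
      ring
    rw [h4, div_le_iff₀ (by positivity)]
    rw [div_le_iff₀ hε] at k1
    have : 2 ^ k * ε ≤ ε * (2 ^ k * 2 ^ k) := by nlinarith [mul_pos p2 hε]
    linarith
  have hfx := hfix T _ _ (ball (0 : V) (K + 2)) (cu χ u) (cp χ p) hLs r s hr0 (by linarith) hsT Z hZ
    (fun t ht => hb1 t (Ioo_subset_Icc_self ht)) hms 0 (by simp)
  rw [hZs, smul_zero, add_zero] at hfx
  have hxO : x ∈ ball (0 : V) (K + 2) := ball_subset_ball (by linarith) hx
  have eST : ∀ n, ST n (cu χ u s) x = ST n (u s) x := by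
    intro n
    unfold TH305.DR.ST
    refine Finset.sum_congr rfl fun pp _ => ?_
    refine SS_congr_open n isOpen_ball (fun y hy => ?_) hxO
    unfold Om
    rw [cu_pd hcut hy, cu_pd hcut hy]
  have eSV : ∀ n, SV n (cu χ u s) x = SV n (u s) x := by
    intro n
    unfold SV
    refine Finset.sum_congr rfl fun i _ => ?_
    exact SS_congr_open n isOpen_ball (fun y hy => cu_eq hcut hy s i) hxO
  have hA2 : A2 x (5 * r) (cu χ u s) ≤ U * (2 * (5 * r)) ^ 3 := by
    unfold A2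
    have h1 : ∫ z in ball x (5 * r), nsq (cu χ u s) z ≤ ∫ _z in ball x (5 * r), U := by
      have hsi : ∀ i, ContDiff ℝ ∞ (fun y => cu χ u s y i) := fun i =>
        hcut.sm.mul (h.sl (hsub s ⟨hab.le, le_rfl⟩) i)
      apply setIntegral_mono (Pool.Agent.W386.MD.iob (nsq_cont hsi) _ _)
        (Pool.Agent.W386.MD.iob continuous_const _ _)
      intro z
      have h2 := nsq_le (cu χ u s) z
      have h3 := hcb s ⟨hab.le, le_rfl⟩ z
      have h4 : ‖cu χ u s z‖ ^ 2 ≤ (M / q) ^ 2 := pow_le_pow_left₀ (norm_nonneg _) h3 2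
      show nsq (cu χ u s) z ≤ U
      rw [hUd]
      linarith
    refine h1.trans (le_of_eq ?_)
    rw [setIntegral_const, Measure.real, Real.volume_pi_ball _ (by positivity), smul_eq_mul,
      ENNReal.toReal_ofReal (by positivity)]
    simp only [Fintype.card_fin]
    ring
  intro n hn
  obtain ⟨f1, f2⟩ := hfx n
  rw [eST] at f1
  rw [eSV] at f2
  have hrn : 0 < r ^ (2 * n + 4) := by positivity
  have g1 : ST n (u s) x ≤ C n / r ^ (2 * n + 4) := by
    rw [le_div_iff₀ hrn, mul_comm]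
    exact f1
  have g2 : SV (n + 1) (u s) x
      ≤ C (n + 1) * (1 + CA * r⁻¹ * (U * (2 * (5 * r)) ^ 3)) / r ^ (2 * n + 4) := by
    rw [le_div_iff₀ hrn, mul_comm]
    refine f2.trans ?_
    have := hC (n + 1)
    apply mul_le_mul_of_nonneg_left _ this.le
    have : CA * r⁻¹ * A2 x (5 * r) (cu χ u s) ≤ CA * r⁻¹ * (U * (2 * (5 * r)) ^ 3) :=
      mul_le_mul_of_nonneg_left hA2 (by positivity)
    linarith
  have n1 : 0 ≤ C n / r ^ (2 * n + 4) := by have := hC n; positivity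
  have n2 : 0 ≤ C (n + 1) * (1 + CA * r⁻¹ * (U * (2 * (5 * r)) ^ 3)) / r ^ (2 * n + 4) := by
    have := hC (n + 1); positivity
  have hsum := Finset.single_le_sum (f := fun n => (C n / r ^ (2 * n + 4)
    + C (n + 1) * (1 + CA * r⁻¹ * (U * (2 * (5 * r)) ^ 3)) / r ^ (2 * n + 4)))
    (fun i _ => (ht0 i).le) (Finset.mem_range.2 (Nat.lt_succ_of_le hn))
  constructor
  · exact (g1.trans (le_add_of_nonneg_right n2)).trans hsum
  · exact (g2.trans (le_add_of_nonneg_left n1)).trans hsum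

end Pool.Agent.H305.TI
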