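import Pool.Agent.H305.TI.Lio2

/-!
Comparison principles for ancient solutions.
-/

set_option autoImplicit false

open MeasureTheory Set Metric Filter Topology
open scoped ContDiff

namespace Pool.Agent.H305.TI

open H459R3.NS W221.NS Pool.Agent.V1183.PM
open Pool.Agent.TH305.DR (Om bb SS SS_zero SS_succ SS_one SS_nonneg SV ST ST_nonneg SV_nonneg om_sm
  pd_sum' pd_sub' pd_add' pd_neg' pd_const')
open Pool.Agent.W583.MD (sm_pd cs_pd pd_mul')
open Pool.Agent.W22.ME.TD (pd_comm)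

/-- Comparison on a moving ball; the inequality is needed only where the function is positive. -/
theorem cmpP {a b : ℝ} (c : V) {ϱ : ℝ → ℝ} (hϱ : ContinuousOn ϱ (Icc a b))
    {F : ℝ → V → ℝ} {B : ℝ → V → V}
    (hF : ContinuousOn (fun z : ℝ × V => F z.1 z.2) (Icc a b ×ˢ univ))
    (h0 : ∀ x, q2 (x - c) ≤ ϱ a → F a x ≤ 0)
    (hl : ∀ t ∈ Icc a b, ∀ x, q2 (x - c) = ϱ t → F t x ≤ 0)
    (hx : ∀ t ∈ Ioc a b, ContDiff ℝ 2 (F t))
    (ht : ∀ t ∈ Ioc a b, ∀ x, q2 (x - c) < ϱ t → DifferentiableAt ℝ (fun s => F s x) t)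
    (he : ∀ t ∈ Ioc a b, ∀ x, q2 (x - c) < ϱ t → 0 < F t x →
      deriv (fun s => F s x) t + ∑ j, B t x j * pd j (F t) x - lap (F t) x ≤ 0) :
    ∀ t ∈ Icc a b, ∀ x, q2 (x - c) ≤ ϱ t → F t x ≤ 0 := by
  intro t₀ ht₀ x₀ hx₀
  by_contra hcon
  push Not at hcon
  -- the small parameter
  obtain ⟨ε, hε, hε1⟩ : ∃ ε : ℝ, 0 < ε ∧ 0 < F t₀ x₀ - ε * (t₀ - a) := by
    refine ⟨F t₀ x₀ / (2 * (t₀ - a + 1)), by
      apply div_pos hcon
      linarith [ht₀.1], ?_⟩
    have h1 : 0 < t₀ - a + 1 := by linarith [ht₀.1]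
    have h2 : F t₀ x₀ / (2 * (t₀ - a + 1)) * (t₀ - a) < F t₀ x₀ := by
      rw [div_mul_eq_mul_div, div_lt_iff₀ (by positivity)]
      nlinarith
    linarith
  let D : Set (ℝ × V) := {z | z.1 ∈ Icc a b ∧ q2 (z.2 - c) ≤ ϱ z.1}
  have hqc : Continuous fun z : ℝ × V => q2 (z.2 - c) := q2_cont.comp (by fun_prop)
  have hDclosed : IsClosed D := by
    have h1 : IsClosed (Icc a b ×ˢ (univ : Set V)) := isClosed_Icc.prod isClosed_univ
    have h2 : ContinuousOn (fun z : ℝ × V => ϱ z.1 - q2 (z.2 - c)) (Icc a b ×ˢ (univ : Set V)) := by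
      apply ContinuousOn.sub _ hqc.continuousOn
      exact hϱ.comp continuous_fst.continuousOn fun z hz => hz.1
    have h3 := h2.preimage_isClosed_of_isClosed h1 isClosed_Ici (t := Ici (0 : ℝ))
    have e : D = (Icc a b ×ˢ (univ : Set V)) ∩ (fun z : ℝ × V => ϱ z.1 - q2 (z.2 - c)) ⁻¹' Ici 0 := by
      ext z
      simp [D]
    rw [e]
    exact h3
  obtain ⟨R, hR⟩ : ∃ R, ∀ t ∈ Icc a b, ϱ t ≤ R := by
    have := (isCompact_Icc.image_of_continuousOn hϱ).bddAbove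
    obtain ⟨R, hR⟩ := this
    exact ⟨R, fun t ht => hR (mem_image_of_mem _ ht)⟩
  have hDb : D ⊆ Icc a b ×ˢ closedBall c (√(max R 0)) := by
    rintro ⟨t, x⟩ ⟨h1, h2⟩
    refine ⟨h1, ?_⟩
    rw [mem_closedBall, dist_eq_norm]
    apply Real.le_sqrt_of_sq_le
    exact (norm_sq_le_q2 _).trans (h2.trans ((hR t h1).trans (le_max_left _ _)))
  have hDc : IsCompact D :=
    (isCompact_Icc.prod (isCompact_closedBall c _)).of_isClosed_subset hDclosed hDb
  have hG : ContinuousOn (fun z : ℝ × V => F z.1 z.2 - ε * (z.1 - a)) D := by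
    apply ContinuousOn.sub
    · exact hF.mono fun z hz => ⟨hz.1, mem_univ _⟩
    · fun_prop
  obtain ⟨⟨t₁, x₁⟩, hz₁, hmax⟩ := hDc.exists_isMaxOn ⟨(t₀, x₀), ht₀, hx₀⟩ hG
  obtain ⟨h1, h2⟩ := hz₁
  simp only at h1 h2
  have hpos : 0 < F t₁ x₁ - ε * (t₁ - a) :=
    lt_of_lt_of_le hε1 (hmax (show (t₀, x₀) ∈ D from ⟨ht₀, hx₀⟩))
  have hFpos : 0 < F t₁ x₁ := by
    have : 0 ≤ ε * (t₁ - a) := mul_nonneg hε.le (by linarith [h1.1])
    linarith
  have hat : a < t₁ := by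
    rcases eq_or_lt_of_le h1.1 with h | h
    · exfalso
      subst h
      linarith [h0 x₁ h2]
    · exact h
  have hlt : q2 (x₁ - c) < ϱ t₁ := by
    rcases eq_or_lt_of_le h2 with h | h
    · exfalso
      linarith [hl t₁ h1 x₁ h]
    · exact h
  have ht₁ : t₁ ∈ Ioc a b := ⟨hat, h1.2⟩
  -- in space
  have hlm : IsLocalMax (F t₁) x₁ := by
    have h3 : ∀ᶠ x in 𝓝 x₁, q2 (x - c) < ϱ t₁ := by
      have hc : ContinuousAt (fun x : V => q2 (x - c)) x₁ :=
        (q2_cont.comp (by fun_prop : Continuous fun x : V => x - c)).continuousAt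
      exact hc.eventually (gt_mem_nhds hlt)
    filter_upwards [h3] with x hx
    have := hmax (show (t₁, x) ∈ D from ⟨h1, hx.le⟩)
    simp only [Set.mem_ofPred_eq] at this
    linarith
  obtain ⟨hgrad, hlap⟩ := max_pt (hx t₁ ht₁) hlm
  -- in time
  have hder : ε ≤ deriv (fun s => F s x₁) t₁ := by
    have hd := (ht t₁ ht₁ x₁ hlt).hasDerivAt
    have hsl := hd.hasDerivWithinAt (s := Iio t₁)
    rw [hasDerivWithinAt_iff_tendsto_slope' (by simp)] at hsl
    apply ge_of_tendsto hsl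
    have hϱc : Tendsto ϱ (𝓝[<] t₁) (𝓝 (ϱ t₁)) := by
      have : ContinuousWithinAt ϱ (Icc a b) t₁ := hϱ t₁ h1
      apply this.mono_of_mem_nhdsWithin
      apply mem_of_superset (Ioo_mem_nhdsLT hat)
      exact fun s hs => ⟨hs.1.le, hs.2.le.trans h1.2⟩
    filter_upwards [hϱc.eventually (lt_mem_nhds hlt), Ioo_mem_nhdsLT hat] with s hs1 hs2
    have h4 := hmax (show (s, x₁) ∈ D from ⟨⟨hs2.1.le, hs2.2.le.trans h1.2⟩, hs1.le⟩)
    simp only [Set.mem_ofPred_eq] at h4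
    rw [slope_def_field, le_div_iff_of_neg (by linarith [hs2.2])]
    linarith
  have h5 := he t₁ ht₁ x₁ hlt hFpos
  have h6 : ∑ j, B t₁ x₁ j * pd j (F t₁) x₁ = 0 :=
    Finset.sum_eq_zero fun j _ => by rw [hgrad j, mul_zero]
  rw [h6] at h5
  linarith


/-! ### The function `N · ω`, `N = α x - b` -/

/-- `N = α x - b`. -/
noncomputable def Nf (α : ℝ) (b : V) (i : Fin 3) (x : V) : ℝ := α * x i - b i

/-- `N · ω`. -/
noncomputable def gN (α : ℝ) (b : V) (w : V → V) (x : V) : ℝ :=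
  Nf α b 0 x * Om 1 2 w x + Nf α b 1 x * Om 2 0 w x + Nf α b 2 x * Om 0 1 w x

/-- `N · w`. -/
noncomputable def hN (α : ℝ) (b : V) (w : V → V) (x : V) : ℝ := ∑ i, Nf α b i x * w x i

section
variable {α : ℝ} {b : V} {w : V → V}

lemma Nf_sm (i : Fin 3) : ContDiff ℝ ∞ (Nf α b i) := by
  unfold Nf
  exact (contDiff_const.mul (cd_coord i)).sub contDiff_const

lemma Nf_pd (i j : Fin 3) (x : V) : pd j (Nf α b i) x = α * (Pi.single j 1 : V) i := by
  have e : Nf α b i = fun y : V => (fun z : V => α * z i) y - (fun _ : V => b i) y := rfl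
  rw [e, pd_sub' (contDiff_const.mul (cd_coord i)) contDiff_const]
  simp only
  rw [pd_lin, pd_const']
  ring

lemma pd_Nf_mul {f : V → ℝ} (hf : ContDiff ℝ ∞ f) (i j : Fin 3) (x : V) :
    pd j (fun y => Nf α b i y * f y) x = Nf α b i x * pd j f x + α * (Pi.single j 1 : V) i * f x := by
  rw [pd_mul' (Nf_sm i) hf j x, Nf_pd]

lemma lap_Nf_mul {f : V → ℝ} (hf : ContDiff ℝ ∞ f) (i : Fin 3) (x : V) :
    lap (fun y => Nf α b i y * f y) x = Nf α b i x * lap f x + 2 * α * pd i f x := by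
  unfold lap
  have h1 : ∀ j, pd j (pd j (fun y => Nf α b i y * f y)) x
      = Nf α b i x * pd j (pd j f) x + 2 * (α * (Pi.single j 1 : V) i * pd j f x) := by
    intro j
    have e : pd j (fun y => Nf α b i y * f y)
        = fun y => Nf α b i y * pd j f y + α * (Pi.single j 1 : V) i * f y := by
      funext y
      exact pd_Nf_mul hf i j y
    rw [e, pd_add' ((Nf_sm i).mul (sm_pd hf j)) (contDiff_const.mul hf)]
    simp only
    rw [pd_Nf_mul (sm_pd hf j), pd_cmul hf]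
    ring
  simp only [h1, Finset.sum_add_distrib, ← Finset.mul_sum]
  have h2 : ∑ j, α * (Pi.single j 1 : V) i * pd j f x = α * pd i f x := by
    simp [Pi.single_apply]
  rw [h2]
  ring

lemma gN_sm (hw : ∀ i, ContDiff ℝ ∞ (fun y => w y i)) : ContDiff ℝ ∞ (gN α b w) := by
  unfold gN
  exact (((Nf_sm 0).mul (om_sm hw 1 2)).add ((Nf_sm 1).mul (om_sm hw 2 0))).add
    ((Nf_sm 2).mul (om_sm hw 0 1))

lemma hN_sm (hw : ∀ i, ContDiff ℝ ∞ (fun y => w y i)) : ContDiff ℝ ∞ (hN α b w) := by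
  unfold hN
  exact ContDiff.sum fun i _ => (Nf_sm i).mul (hw i)

/-- The identity for `N · ω` at one time. -/
lemma gN_id (hw : ∀ i, ContDiff ℝ ∞ (fun y => w y i)) {x : V} (hd : W221.NS.dv w x = 0) :
    Nf α b 0 x * (lap (Om 1 2 w) x - adv w (Om 1 2 w) x - stre 1 2 w x)
      + Nf α b 1 x * (lap (Om 2 0 w) x - adv w (Om 2 0 w) x - stre 2 0 w x)
      + Nf α b 2 x * (lap (Om 0 1 w) x - adv w (Om 0 1 w) x - stre 0 1 w x)
      = lap (gN α b w) x - adv w (gN α b w) x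
        + (Om 1 2 w x * pd 0 (hN α b w) x + Om 2 0 w x * pd 1 (hN α b w) x
          + Om 0 1 w x * pd 2 (hN α b w) x) := by
  have o12 := om_sm hw 1 2
  have o20 := om_sm hw 2 0
  have o01 := om_sm hw 0 1
  have n12 := (Nf_sm (α := α) (b := b) 0).mul o12
  have n20 := (Nf_sm (α := α) (b := b) 1).mul o20
  have n01 := (Nf_sm (α := α) (b := b) 2).mul o01
  have eg : gN α b w = fun y => (Nf α b 0 y * Om 1 2 w y + Nf α b 1 y * Om 2 0 w y)
      + Nf α b 2 y * Om 0 1 w y := rfl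
  have e1 : lap (gN α b w) x = (Nf α b 0 x * lap (Om 1 2 w) x + 2 * α * pd 0 (Om 1 2 w) x)
      + (Nf α b 1 x * lap (Om 2 0 w) x + 2 * α * pd 1 (Om 2 0 w) x)
      + (Nf α b 2 x * lap (Om 0 1 w) x + 2 * α * pd 2 (Om 0 1 w) x) := by
    rw [eg, lap_add2 (f := fun y => Nf α b 0 y * Om 1 2 w y + Nf α b 1 y * Om 2 0 w y)
      ((n12.add n20).of_le (by norm_cast)) (n01.of_le (by norm_cast)),
      lap_add2 (n12.of_le (by norm_cast)) (n20.of_le (by norm_cast)), lap_Nf_mul o12,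
      lap_Nf_mul o20, lap_Nf_mul o01]
  have e2 : ∀ j, pd j (gN α b w) x = (Nf α b 0 x * pd j (Om 1 2 w) x
        + α * (Pi.single j 1 : V) 0 * Om 1 2 w x)
      + (Nf α b 1 x * pd j (Om 2 0 w) x + α * (Pi.single j 1 : V) 1 * Om 2 0 w x)
      + (Nf α b 2 x * pd j (Om 0 1 w) x + α * (Pi.single j 1 : V) 2 * Om 0 1 w x) := by
    intro j
    rw [eg, pd_add' (n12.add n20) n01]
    simp only
    rw [pd_add' n12 n20]
    simp only
    rw [pd_Nf_mul o12, pd_Nf_mul o20, pd_Nf_mul o01]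
  have e3 : ∀ j, pd j (hN α b w) x = ∑ i, (Nf α b i x * pd j (fun y => w y i) x
      + α * (Pi.single j 1 : V) i * w x i) := by
    intro j
    have : hN α b w = fun y => ∑ i, Nf α b i y * w y i := rfl
    rw [this, congrFun (pd_sum' Finset.univ (f := fun i y => Nf α b i y * w y i)
      (fun i => (Nf_sm i).mul (hw i)) j) x]
    exact Finset.sum_congr rfl fun i _ => pd_Nf_mul (hw i) i j x
  have e4 : pd 0 (Om 1 2 w) x + pd 1 (Om 2 0 w) x + pd 2 (Om 0 1 w) x = 0 := by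
    have b' : ∀ m i j, pd m (Om i j w) x = pd m (pd i (fun y => w y j)) x
        - pd m (pd j (fun y => w y i)) x := by
      intro m i j
      have : Om i j w = fun y => pd i (fun y => w y j) y - pd j (fun y => w y i) y := rfl
      rw [this, pd_sub' (sm_pd (hw j) i) (sm_pd (hw i) j)]
    have hs : ∀ i j k, pd i (pd j (fun y => w y k)) x = pd j (pd i (fun y => w y k)) x :=
      fun i j k => congrFun (pd_comm (hw k) i j) x
    rw [b', b', b', hs 1 0 2, hs 2 0 1, hs 2 1 0]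
    ring
  unfold W221.NS.dv at hd
  rw [Fin.sum_univ_three] at hd
  rw [e1]
  unfold adv stre
  simp only [e2, e3, Fin.sum_univ_three]
  simp
  unfold Om at e4 ⊢
  linear_combination (-2 * α) * e4
    - (Nf α b 0 x * (pd 1 (fun y => w y 2) x - pd 2 (fun y => w y 1) x)
      + Nf α b 1 x * (pd 2 (fun y => w y 0) x - pd 0 (fun y => w y 2) x)
      + Nf α b 2 x * (pd 0 (fun y => w y 1) x - pd 1 (fun y => w y 0) x)) * hd

end

section
variable {M : ℝ} {v : ℝ → V → V} {α : ℝ} {b : V}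

lemma Anc.g_hd (h : Anc M v) (α : ℝ) (b : V) {t : ℝ} (ht : t < 0) (x : V) :
    HasDerivAt (fun s => gN α b (v s) x) (lap (gN α b (v t)) x - adv (v t) (gN α b (v t)) x
        + (Om 1 2 (v t) x * pd 0 (hN α b (v t)) x + Om 2 0 (v t) x * pd 1 (hN α b (v t)) x
          + Om 0 1 (v t) x * pd 2 (hN α b (v t)) x)) t := by
  rw [← gN_id (h.sm t ht) (h.dv t ht x)]
  exact (((h.vort t ht x 1 2).const_mul _).add ((h.vort t ht x 2 0).const_mul _)).add
    ((h.vort t ht x 0 1).const_mul _)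

lemma Anc.om_cont (h : Anc M v) (i j : Fin 3) :
    ContinuousOn (fun z : ℝ × V => Om i j (v z.1) z.2) (Iio 0 ×ˢ univ) :=
  (h.cont [i] j).sub (h.cont [j] i)

lemma Anc.g_cont (h : Anc M v) (α : ℝ) (b : V) :
    ContinuousOn (fun z : ℝ × V => gN α b (v z.1) z.2) (Iio 0 ×ˢ univ) := by
  have hN : ∀ i, ContinuousOn (fun z : ℝ × V => Nf α b i z.2) (Iio 0 ×ˢ univ) := fun i =>
    ((Nf_sm i).continuous.comp continuous_snd).continuousOn
  exact (((hN 0).mul (h.om_cont 1 2)).add ((hN 1).mul (h.om_cont 2 0))).add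
    ((hN 2).mul (h.om_cont 0 1))

lemma Anc.om_bd (h : Anc M v) : ∃ D : ℝ, 0 ≤ D ∧ ∀ t < 0, ∀ x i j, |Om i j (v t) x| ≤ D / (-t) := by
  obtain ⟨D, hD⟩ := h.der 1
  refine ⟨2 * √|D|, by positivity, fun t ht x i j => ?_⟩
  have ht' : 0 < -t := by linarith
  have h1 : ∀ i j, |pd i (fun y => v t y j) x| ≤ √|D| / (-t) := by
    intro i j
    have h2 := hD t ht x j
    rw [SS_one] at h2
    have h3 : pd i (fun y => v t y j) x ^ 2 ≤ ∑ i, pd i (fun y => v t y j) x ^ 2 :=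
      Finset.single_le_sum (f := fun i => pd i (fun y => v t y j) x ^ 2)
        (fun _ _ => sq_nonneg _) (Finset.mem_univ i)
    have h4 : pd i (fun y => v t y j) x ^ 2 ≤ |D| / (-t) ^ 2 := by
      rw [le_div_iff₀ (by positivity), mul_comm]
      refine (mul_le_mul_of_nonneg_left h3 (by positivity)).trans (h2.trans (le_abs_self D))
    have h5 := Real.abs_le_sqrt h4
    rwa [Real.sqrt_div (abs_nonneg D), Real.sqrt_sq ht'.le] at h5
  have h2 := h1 i j
  have h3 := h1 j i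
  unfold Om
  calc |pd i (fun y => v t y j) x - pd j (fun y => v t y i) x|
      ≤ |pd i (fun y => v t y j) x| + |pd j (fun y => v t y i) x| := abs_sub _ _
    _ ≤ √|D| / (-t) + √|D| / (-t) := add_le_add h2 h3
    _ = _ := by ring

lemma Anc.g_bd (h : Anc M v) : ∃ D : ℝ, 0 ≤ D ∧ ∀ (α : ℝ) (b : V), ∀ t < 0, ∀ x,
    |gN α b (v t) x| ≤ (|α| * ‖x‖ + ‖b‖) * (D / (-t)) := by
  obtain ⟨D, hD0, hD⟩ := h.om_bd
  refine ⟨3 * D, by positivity, fun α b t ht x => ?_⟩
  have hn : ∀ i, |Nf α b i x| ≤ |α| * ‖x‖ + ‖b‖ := by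
    intro i
    unfold Nf
    have h1 := norm_le_pi_norm x i
    have h2 := norm_le_pi_norm b i
    rw [Real.norm_eq_abs] at h1 h2
    refine (abs_sub _ _).trans ?_
    rw [abs_mul]
    exact add_le_add (mul_le_mul_of_nonneg_left h1 (abs_nonneg _)) h2
  have hp : ∀ i j k, |Nf α b i x * Om j k (v t) x| ≤ (|α| * ‖x‖ + ‖b‖) * (D / (-t)) := by
    intro i j k
    rw [abs_mul]
    exact mul_le_mul (hn i) (hD t ht x j k) (abs_nonneg _) (by positivity)
  unfold gN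
  have h1 := hp 0 1 2
  have h2 := hp 1 2 0
  have h3 := hp 2 0 1
  calc _ ≤ |Nf α b 0 x * Om 1 2 (v t) x + Nf α b 1 x * Om 2 0 (v t) x|
        + |Nf α b 2 x * Om 0 1 (v t) x| := abs_add_le _ _
    _ ≤ |Nf α b 0 x * Om 1 2 (v t) x| + |Nf α b 1 x * Om 2 0 (v t) x|
        + |Nf α b 2 x * Om 0 1 (v t) x| := by
          have := abs_add_le (Nf α b 0 x * Om 1 2 (v t) x) (Nf α b 1 x * Om 2 0 (v t) x)
          linarith
    _ ≤ _ := by
          have : 3 * D / (-t) = D / (-t) + D / (-t) + D / (-t) := by ring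
          rw [this]
          linarith

end

end Pool.Agent.H305.TI
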