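import Pool.Agent.H305.TI.Dyn

/-!
The function `N · ω` for ancient solutions with `N · v = 0`.
-/

set_option autoImplicit false

open MeasureTheory Set Metric Filter Topology
open scoped ContDiff

namespace Pool.Agent.H305.TI

open H459R3.NS W221.NS Pool.Agent.V1183.PM
open Pool.Agent.TH305.DR (Om bb SS SS_zero SS_succ SS_one SS_nonneg SV ST ST_nonneg SV_nonneg om_sm
  pd_sum' pd_sub' pd_add' pd_neg' pd_const')
open Pool.Agent.W583.MD (sm_pd cs_pd pd_mul')
open Pool.Agent.W22.ME.TD (pd_comm)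

lemma qa_pd (κ c : ℝ) (j : Fin 3) (x : V) : pd j (fun y => κ * q2 y + c) x = κ * (2 * x j) := by
  rw [pd_add' (contDiff_const.mul q2_cd) contDiff_const]
  simp only
  rw [pd_cmul q2_cd, pd_q2, pd_const']
  ring

lemma qa_lap (κ c : ℝ) (x : V) : lap (fun y => κ * q2 y + c) x = 6 * κ := by
  unfold lap
  have e : ∀ j, pd j (fun y => κ * q2 y + c) = fun y => κ * (2 * y j) := fun j =>
    funext fun y => qa_pd κ c j y
  simp only [e]
  have e2 : ∀ j, pd j (fun y : V => κ * (2 * y j)) x = 2 * κ := by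
    intro j
    rw [pd_cmul (contDiff_const.mul (cd_coord j)), pd_lin]
    simp
    ring
  simp only [e2]
  simp
  ring

lemma dot_le {x w : V} {m : ℝ} (h : ‖w‖ * ‖x‖ ≤ m) : |∑ j, w j * x j| ≤ 3 * m := by
  refine (Finset.abs_sum_le_sum_abs _ _).trans ?_
  have h1 : ∀ j, |w j * x j| ≤ m := by
    intro j
    rw [abs_mul]
    refine le_trans ?_ h
    exact mul_le_mul (norm_le_pi_norm w j) (norm_le_pi_norm x j) (abs_nonneg _) (norm_nonneg _)
  rw [Fin.sum_univ_three]
  linarith [h1 0, h1 1, h1 2]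

section
variable {M : ℝ} {v : ℝ → V → V} {α : ℝ} {b : V}

lemma Anc.M_nonneg (h : Anc M v) : 0 ≤ M :=
  (mul_nonneg (norm_nonneg _) (by positivity)).trans (h.bd (-1) (by norm_num) 0)

lemma Anc.dot_bd (h : Anc M v) {t : ℝ} (ht : t < 0) (x : V) : |∑ j, v t x j * x j| ≤ 3 * M := by
  apply dot_le
  refine le_trans ?_ (h.bd t ht x)
  apply mul_le_mul_of_nonneg_left _ (norm_nonneg _)
  linarith [Real.sqrt_nonneg (-t)]

/-- A bounded solution of the drift diffusion equation with the drift `v` on a time interval. -/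
lemma Anc.max_pr (h : Anc M v) {g : ℝ → V → ℝ} {t₀ t₁ A B : ℝ} (h01 : t₀ < t₁) (ht₁ : t₁ < 0)
    (hg : ContinuousOn (fun z : ℝ × V => g z.1 z.2) (Iio 0 ×ˢ univ))
    (hs : ∀ t < 0, ContDiff ℝ ∞ (g t))
    (ht : ∀ t < 0, ∀ x, HasDerivAt (fun s => g s x) (lap (g t) x - adv (v t) (g t) x) t)
    (hA : ∀ x, g t₀ x ≤ A) (hB : ∀ t ∈ Icc t₀ t₁, ∀ x, g t x - A ≤ B) (x₁ : V) : g t₁ x₁ ≤ A := by
  have hM := h.M_nonneg
  apply le_of_forall_pos_le_add
  intro η hη
  -- the coefficient
  obtain ⟨κ, hκ⟩ : ∃ κ, κ = η / (q2 x₁ + (6 * M + 6) * (t₁ - t₀) + 1) := ⟨_, rfl⟩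
  have hq1 := q2_nonneg x₁
  have hden : 0 < q2 x₁ + (6 * M + 6) * (t₁ - t₀) + 1 := by
    have : 0 ≤ (6 * M + 6) * (t₁ - t₀) := mul_nonneg (by linarith) (by linarith)
    linarith
  have hκ0 : 0 < κ := by rw [hκ]; exact div_pos hη hden
  obtain ⟨R, hR⟩ : ∃ R, R = |B| / κ + q2 x₁ + 1 := ⟨_, rfl⟩
  have hR1 : q2 x₁ ≤ R := by
    rw [hR]
    have : 0 ≤ |B| / κ := by positivity
    linarith
  have hR2 : B ≤ κ * R := by
    rw [hR]
    have : κ * (|B| / κ + q2 x₁ + 1) = |B| + κ * (q2 x₁ + 1) := by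
      field_simp
      ring
    rw [this]
    have h2 : 0 ≤ κ * (q2 x₁ + 1) := by positivity
    linarith [le_abs_self B]
  have hneg : ∀ t ∈ Icc t₀ t₁, t < 0 := fun t ht => ht.2.trans_lt ht₁
  have key := cmp (a := t₀) (b := t₁) h01.le 0 (ϱ := fun _ => R) continuousOn_const
    (F := fun t x => g t x - (κ * q2 x + (A + κ * ((6 * M + 6) * (t - t₀))))) (B := v)
    (by
      apply ContinuousOn.sub
      · exact hg.mono fun z hz => ⟨hneg z.1 hz.1, mem_univ _⟩
      · have : Continuous fun z : ℝ × V => κ * q2 z.2 + (A + κ * ((6 * M + 6) * (z.1 - t₀))) := by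
          have := q2_cont
          fun_prop
        exact this.continuousOn)
    (fun x _ => by
      have h1 := hA x
      have h2 := q2_nonneg x
      have h3 : 0 ≤ κ * q2 x := by positivity
      simp only [sub_self, mul_zero, add_zero]
      linarith)
    (fun t ht x hx => by
      rw [sub_zero] at hx
      have h1 := hB t ht x
      rw [hx]
      have h2 : 0 ≤ κ * ((6 * M + 6) * (t - t₀)) :=
        mul_nonneg hκ0.le (mul_nonneg (by linarith) (by linarith [ht.1]))
      linarith)
    (fun t ht => by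
      have h1 := hs t (hneg t ⟨ht.1.le, ht.2⟩)
      have h2 : ContDiff ℝ ∞ (fun x : V => κ * q2 x + (A + κ * ((6 * M + 6) * (t - t₀)))) :=
        (contDiff_const.mul q2_cd).add contDiff_const
      exact (h1.sub h2).of_le (by norm_cast))
    (fun t h2 x _ => by
      have h1 := (ht t (hneg t ⟨h2.1.le, h2.2⟩) x).differentiableAt
      exact h1.sub (by fun_prop))
    (fun t h2 x _ => by
      have hneg' := hneg t ⟨h2.1.le, h2.2⟩
      have h1 := ht t hneg' x
      have h3 : HasDerivAt (fun s => κ * q2 x + (A + κ * ((6 * M + 6) * (s - t₀))))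
          (κ * (6 * M + 6)) t := by
        have := (((((hasDerivAt_id t).sub_const t₀).const_mul (6 * M + 6)).const_mul κ).const_add
          A).const_add (κ * q2 x)
        refine this.congr_deriv ?_
        simp
      have h4 : deriv (fun s => g s x - (κ * q2 x + (A + κ * ((6 * M + 6) * (s - t₀))))) t
          = (lap (g t) x - adv (v t) (g t) x) - κ * (6 * M + 6) := (h1.sub h3).deriv
      have hg1 : ContDiff ℝ ∞ (g t) := hs t hneg'
      have hq : ContDiff ℝ ∞ (fun x : V => κ * q2 x + (A + κ * ((6 * M + 6) * (t - t₀)))) :=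
        (contDiff_const.mul q2_cd).add contDiff_const
      have h5 : ∀ j, pd j (fun x => g t x - (κ * q2 x + (A + κ * ((6 * M + 6) * (t - t₀))))) x
          = pd j (g t) x - κ * (2 * x j) := by
        intro j
        rw [pd_sub' hg1 hq]
        simp only
        rw [qa_pd]
      have h6 : lap (fun x => g t x - (κ * q2 x + (A + κ * ((6 * M + 6) * (t - t₀))))) x
          = lap (g t) x - 6 * κ := by
        rw [lap_sub2 (hg1.of_le (by norm_cast)) (hq.of_le (by norm_cast)), qa_lap]
      rw [h4, h6]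
      simp only [h5]
      have h7 : ∑ j, v t x j * (pd j (g t) x - κ * (2 * x j))
          = adv (v t) (g t) x - 2 * κ * ∑ j, v t x j * x j := by
        unfold adv
        rw [Finset.mul_sum, ← Finset.sum_sub_distrib]
        exact Finset.sum_congr rfl fun j _ => by ring
      rw [h7]
      have h8 := abs_le.1 (h.dot_bd hneg' x)
      nlinarith [h8.1, h8.2])
    t₁ ⟨h01.le, le_rfl⟩ x₁ (by rw [sub_zero]; exact hR1)
  have h2 : κ * (q2 x₁ + (6 * M + 6) * (t₁ - t₀)) ≤ η := by
    rw [hκ, div_mul_eq_mul_div, div_le_iff₀ hden]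
    nlinarith
  linarith

/-- A solution of the drift diffusion equation which tends to zero as `t → -∞` vanishes. -/
theorem Anc.zero_of (h : Anc M v) {g : ℝ → V → ℝ} {C : ℝ}
    (hg : ContinuousOn (fun z : ℝ × V => g z.1 z.2) (Iio 0 ×ˢ univ))
    (hs : ∀ t < 0, ContDiff ℝ ∞ (g t))
    (ht : ∀ t < 0, ∀ x, HasDerivAt (fun s => g s x) (lap (g t) x - adv (v t) (g t) x) t)
    (hC : ∀ t < 0, ∀ x, g t x ≤ C / (-t)) : ∀ t < 0, ∀ x, g t x ≤ 0 := by
  intro t ht0 x
  have key : ∀ t₀ < t, g t x ≤ |C| / (-t₀) := by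
    intro t₀ h0
    refine h.max_pr (B := |C| / (-t)) h0 ht0 hg hs ht (fun y => ?_) (fun s hs y => ?_) x
    · refine (hC t₀ (h0.trans ht0) y).trans ?_
      exact div_le_div_of_nonneg_right (le_abs_self C) (by linarith)
    · have h1 := hC s (hs.2.trans_lt ht0) y
      have h2 : C / (-s) ≤ |C| / (-t) := by
        refine (div_le_div_of_nonneg_right (le_abs_self C) (by linarith [hs.2])).trans ?_
        exact div_le_div_of_nonneg_left (abs_nonneg C) (by linarith) (by linarith [hs.2])
      have h3 : 0 ≤ |C| / (-t₀) := div_nonneg (abs_nonneg C) (by linarith)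
      linarith
  have hlim : Tendsto (fun s : ℝ => |C| / s) atTop (𝓝 0) := tendsto_const_nhds.div_atTop tendsto_id
  apply ge_of_tendsto hlim
  filter_upwards [eventually_gt_atTop (-t)] with s hs
  have := key (-s) (by linarith)
  rwa [neg_neg] at this

/-- If one component of the velocity vanishes, so does the same component of the vorticity. -/
theorem Anc.g_zero (h : Anc M v) (b : V) (hh : ∀ t < 0, ∀ x, hN 0 b (v t) x = 0) :
    ∀ t < 0, ∀ x, gN 0 b (v t) x = 0 := by
  obtain ⟨D, hD0, hD⟩ := h.g_bd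
  have hder : ∀ t < 0, ∀ x, HasDerivAt (fun s => gN 0 b (v s) x)
      (lap (gN 0 b (v t)) x - adv (v t) (gN 0 b (v t)) x) t := by
    intro t ht x
    have h1 := h.g_hd 0 b ht x
    have h2 : ∀ j, pd j (hN 0 b (v t)) x = 0 := fun j => pd_of_zero (hh t ht) j x
    rw [h2, h2, h2] at h1
    refine h1.congr_deriv ?_
    ring
  have hbd : ∀ t < 0, ∀ x, |gN 0 b (v t) x| ≤ (‖b‖ * D) / (-t) := by
    intro t ht x
    have := hD 0 b t ht x
    rw [abs_zero, zero_mul, zero_add] at this
    rw [mul_div_assoc]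
    exact this
  have k1 := h.zero_of (h.g_cont 0 b) (fun t ht => gN_sm (h.sm t ht)) hder
    (fun t ht x => (le_abs_self _).trans (hbd t ht x))
  have k2 := h.zero_of (g := fun t x => - gN 0 b (v t) x) (h.g_cont 0 b).neg
    (fun t ht => (gN_sm (h.sm t ht)).neg) (fun t ht x => by
      have h1 := (hder t ht x).neg
      have hg := gN_sm (α := 0) (b := b) (h.sm t ht)
      have e1 : ∀ j, pd j (fun y => - gN 0 b (v t) y) = fun y => - pd j (gN 0 b (v t)) y := fun j =>
        pd_neg' _ j
      have e2 : lap (fun y => - gN 0 b (v t) y) x = - lap (gN 0 b (v t)) x := by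
        unfold lap
        simp only [e1]
        rw [← Finset.sum_neg_distrib]
        exact Finset.sum_congr rfl fun j _ => congrFun (pd_neg' _ j) x
      have e3 : adv (v t) (fun y => - gN 0 b (v t) y) x = - adv (v t) (gN 0 b (v t)) x := by
        unfold adv
        simp only [e1]
        rw [← Finset.sum_neg_distrib]
        exact Finset.sum_congr rfl fun j _ => by ring
      refine h1.congr_deriv ?_
      rw [e2, e3]
      ring)
    (fun t ht x => (neg_le_abs _).trans (hbd t ht x))
  intro t ht x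
  have := k1 t ht x
  have := k2 t ht x
  linarith

/-- If one component of the velocity of an ancient solution vanishes then the solution vanishes. -/
theorem Anc.component (h : Anc M v) {b : V} (hb : b ≠ 0)
    (hh : ∀ t < 0, ∀ x, ∑ i, b i * v t x i = 0) : ∀ t < 0, ∀ x, v t x = 0 := by
  have e1 : ∀ t x, hN 0 b (v t) x = - ∑ i, b i * v t x i := by
    intro t x
    unfold hN Nf
    rw [← Finset.sum_neg_distrib]
    exact Finset.sum_congr rfl fun i _ => by ring
  have h1 := h.g_zero b (fun t ht x => by rw [e1, hh t ht x, neg_zero])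
  intro t ht
  refine liou_plane (M := M) (h.sm t ht) (h.dv t ht) (fun x => ?_) hb (hh t ht) (fun x => ?_)
  · refine le_trans ?_ (h.bd t ht x)
    apply mul_le_mul_of_nonneg_left _ (norm_nonneg _)
    linarith [Real.sqrt_nonneg (-t)]
  · have h2 := h1 t ht x
    unfold gN Nf at h2
    linarith

/-- If a component of the velocity is monotone in one direction at one time then it vanishes at
this time. -/
theorem Anc.slice (h : Anc M v) {e f : V} (he : e ≠ 0) {t : ℝ} (ht : t < 0)
    (hm : ∀ x, 0 ≤ ∑ j, e j * ∑ i, f i * pd j (fun y => v t y i) x) :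
    ∀ x, ∑ i, f i * v t x i = 0 := by
  intro x
  obtain ⟨F, hF⟩ : ∃ F : ℝ → ℝ, F = fun s => ∑ i, f i * v t (x + s • e) i := ⟨_, rfl⟩
  have hsm := h.sm t ht
  have hd : ∀ s, HasDerivAt F (∑ j, e j * ∑ i, f i * pd j (fun y => v t y i) (x + s • e)) s := by
    intro s
    rw [hF]
    have h1 : HasDerivAt (fun s : ℝ => x + s • e) e s := by
      have := ((hasDerivAt_id s).smul_const e).const_add x
      simpa using this
    have h2 : ∀ i, HasDerivAt (fun s : ℝ => f i * v t (x + s • e) i)
        (f i * ∑ j, e j * pd j (fun y => v t y i) (x + s • e)) s := by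
      intro i
      have h3 := (((hsm i).differentiable (by simp)) (x + s • e)).hasFDerivAt.comp_hasDerivAt s h1
      rw [fd_eq] at h3
      exact h3.const_mul (f i)
    have h3 := HasDerivAt.fun_sum (u := Finset.univ) fun i _ => h2 i
    refine h3.congr_deriv ?_
    simp only [Fin.sum_univ_three]
    ring
  have hmono : Monotone F := by
    apply monotone_of_deriv_nonneg (fun s => (hd s).differentiableAt)
    intro s
    rw [(hd s).deriv]
    exact hm _
  have hs0 : 0 < √(-t) := Real.sqrt_pos.2 (by linarith)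
  have hen : 0 < ‖e‖ := norm_pos_iff.2 he
  have hM := h.M_nonneg
  have hbd : ∀ s : ℝ, |s| * ‖e‖ > ‖x‖ → |F s| ≤ 3 * ‖f‖ * (M / (|s| * ‖e‖ - ‖x‖)) := by
    intro s hs
    have h1 := h.bd t ht (x + s • e)
    have h2 : |s| * ‖e‖ - ‖x‖ ≤ ‖x + s • e‖ := by
      have h3 : ‖s • e‖ ≤ ‖x + s • e‖ + ‖x‖ := by
        calc ‖s • e‖ = ‖(x + s • e) - x‖ := by congr 1; abel
          _ ≤ _ := norm_sub_le _ _
      rw [norm_smul, Real.norm_eq_abs] at h3
      linarith
    have h4 : 0 < |s| * ‖e‖ - ‖x‖ := by linarith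
    have h5 : ‖v t (x + s • e)‖ ≤ M / (|s| * ‖e‖ - ‖x‖) := by
      rw [le_div_iff₀ h4]
      refine le_trans ?_ h1
      apply mul_le_mul_of_nonneg_left _ (norm_nonneg _)
      linarith
    rw [hF]
    refine (Finset.abs_sum_le_sum_abs _ _).trans ?_
    have h6 : ∀ i, |f i * v t (x + s • e) i| ≤ ‖f‖ * (M / (|s| * ‖e‖ - ‖x‖)) := by
      intro i
      rw [abs_mul]
      exact mul_le_mul (norm_le_pi_norm f i) ((norm_le_pi_norm _ i).trans h5) (abs_nonneg _)
        (norm_nonneg _)
    rw [Fin.sum_univ_three]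
    linarith [h6 0, h6 1, h6 2]
  have hlim : Tendsto (fun s : ℝ => 3 * ‖f‖ * (M / (s * ‖e‖ - ‖x‖))) atTop (𝓝 0) := by
    have h1 : Tendsto (fun s : ℝ => s * ‖e‖ - ‖x‖) atTop atTop :=
      tendsto_atTop_add_const_right _ _ (tendsto_id.atTop_mul_const hen)
    have h2 := (tendsto_const_nhds (x := M)).div_atTop h1
    have h3 := h2.const_mul (3 * ‖f‖)
    rwa [mul_zero] at h3
  have hF0 : F 0 = ∑ i, f i * v t x i := by
    rw [hF]
    simp
  rw [← hF0]
  apply le_antisymm
  · apply ge_of_tendsto hlim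
    filter_upwards [eventually_gt_atTop (‖x‖ / ‖e‖), eventually_ge_atTop 0] with s hs hs'
    have h1 : ‖x‖ < |s| * ‖e‖ := by
      rw [abs_of_nonneg hs']
      rwa [div_lt_iff₀ hen] at hs
    have h2 := hbd s h1
    rw [abs_of_nonneg hs'] at h2
    exact (hmono hs').trans ((le_abs_self _).trans h2)
  · have h0 : -F 0 ≤ 0 := by
      apply ge_of_tendsto hlim
      filter_upwards [eventually_gt_atTop (‖x‖ / ‖e‖), eventually_ge_atTop 0] with s hs hs'
      have h1 : ‖x‖ < |(-s)| * ‖e‖ := by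
        rw [abs_neg, abs_of_nonneg hs']
        rwa [div_lt_iff₀ hen] at hs
      have h2 := hbd (-s) h1
      rw [abs_neg s, abs_of_nonneg hs'] at h2
      have h3 := hmono (show -s ≤ 0 by linarith)
      exact (neg_le_neg h3).trans ((neg_le_abs _).trans h2)
    linarith

/-- If a component of the velocity is monotone in one direction then the solution vanishes. -/
theorem Anc.monotone (h : Anc M v) {e f : V} (he : e ≠ 0) (hf : f ≠ 0)
    (hm : ∀ t < 0, ∀ x, 0 ≤ ∑ j, e j * ∑ i, f i * pd j (fun y => v t y i) x) :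
    ∀ t < 0, ∀ x, v t x = 0 :=
  h.component hf fun t ht => h.slice he ht (hm t ht)

end

end Pool.Agent.H305.TI
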