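import Pool.Agent.H305.TI.Dyn2

/-!
The flux of a divergence free field through spheres: a field which flows nowhere into a spherical
shell of concentric spheres is tangential to these spheres.
-/

set_option autoImplicit false

open MeasureTheory Set Metric Filter Topology
open scoped ContDiff

namespace Pool.Agent.H305.TI

open H459R3.NS W221.NS Pool.Agent.V1183.PM
open Pool.Agent.W583.MD (sm_pd cs_pd pd_mul' Z Z.add Z.sub Z.smul Z.sum int_cs Z_pd hcs)

/-- A bump on the interval from `a` to `b`. -/
noncomputable def eta (a b s : ℝ) : ℝ := expNegInvGlue (s - a) * expNegInvGlue (b - s)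

section
variable {a b s : ℝ}

lemma eta_sm : ContDiff ℝ ∞ (eta a b) := by
  unfold eta
  exact (expNegInvGlue.contDiff.comp (contDiff_id.sub contDiff_const)).mul
    (expNegInvGlue.contDiff.comp (contDiff_const.sub contDiff_id))

lemma eta_nonneg : 0 ≤ eta a b s := mul_nonneg (expNegInvGlue.nonneg _) (expNegInvGlue.nonneg _)

lemma eta_pos (h1 : a < s) (h2 : s < b) : 0 < eta a b s :=
  mul_pos (expNegInvGlue.pos_of_pos (by linarith)) (expNegInvGlue.pos_of_pos (by linarith))

lemma eta_zero (h : b ≤ s) : eta a b s = 0 := by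
  unfold eta
  rw [expNegInvGlue.zero_of_nonpos (x := b - s) (by linarith), mul_zero]

lemma eta_zero' (h : s ≤ a) : eta a b s = 0 := by
  unfold eta
  rw [expNegInvGlue.zero_of_nonpos (x := s - a) (by linarith), zero_mul]

/-- The primitive. -/
noncomputable def hh (a b s : ℝ) : ℝ := ∫ t in s..b, eta a b t

lemma hh_hd : HasDerivAt (hh a b) (-(eta a b s)) s := by
  have hc : Continuous (eta a b) := eta_sm.continuous
  exact intervalIntegral.integral_hasDerivAt_left (hc.intervalIntegrable _ _)
    (hc.stronglyMeasurableAtFilter _ _) hc.continuousAt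

lemma hh_sm : ContDiff ℝ ∞ (hh a b) := by
  rw [contDiff_infty_iff_deriv]
  refine ⟨fun s => hh_hd.differentiableAt, ?_⟩
  have : deriv (hh a b) = fun s => -(eta a b s) := by
    funext s
    exact hh_hd.deriv
  rw [this]
  exact eta_sm.neg

lemma hh_zero (h : b ≤ s) : hh a b s = 0 := by
  unfold hh
  apply intervalIntegral.integral_zero_ae
  filter_upwards with t ht
  rw [uIoc_of_ge h] at ht
  exact eta_zero ht.1.le

end

lemma pd_comp1 {h : ℝ → ℝ} {h' : ℝ} {f : V → ℝ} {x : V} (hh : HasDerivAt h h' (f x))
    (hf : DifferentiableAt ℝ f x) (j : Fin 3) : pd j (fun y => h (f y)) x = h' * pd j f x := by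
  unfold pd
  have h1 : fderiv ℝ (fun y => h (f y)) x = h' • fderiv ℝ f x :=
    (hh.comp_hasFDerivAt x hf.hasFDerivAt).fderiv
  rw [h1]
  rfl

/-- A divergence free field which flows outward in a spherical shell is tangential there. -/
theorem flux_zero {w : V → V} (hw : ∀ i, ContDiff ℝ ∞ (fun y => w y i)) {c : V} {a b : ℝ}
    (hd : ∀ x, W221.NS.dv w x = 0)
    (hpos : ∀ x, a < q2 (x - c) → q2 (x - c) < b → 0 ≤ hN 1 c w x) :
    ∀ x, a < q2 (x - c) → q2 (x - c) < b → hN 1 c w x = 0 := by
  have hΦ : ContDiff ℝ ∞ (fun x => hh a b (q2 (x - c))) := hh_sm.comp (q2c_cd c)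
  have hcsΦ : HasCompactSupport (fun x => hh a b (q2 (x - c))) := by
    apply HasCompactSupport.intro (isCompact_closedBall c √(max b 0))
    intro x hx
    apply hh_zero
    by_contra hlt
    push Not at hlt
    apply hx
    rw [mem_closedBall, dist_eq_norm]
    apply Real.le_sqrt_of_sq_le
    exact (norm_sq_le_q2 _).trans (hlt.le.trans (le_max_left _ _))
  have hF : ∀ j, ContDiff ℝ ∞ (fun x => hh a b (q2 (x - c)) * w x j) := fun j => hΦ.mul (hw j)
  have hFc : ∀ j, HasCompactSupport (fun x => hh a b (q2 (x - c)) * w x j) := fun j => hcsΦ.mul_right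
  have hZ := Z.sum fun j => Z_pd (hF j) (hFc j) j
  have hsum : ∀ x, ∑ j, pd j (fun x => hh a b (q2 (x - c)) * w x j) x
      = -(2 * (eta a b (q2 (x - c)) * hN 1 c w x)) := by
    intro x
    have h1 : ∀ j, pd j (fun x => hh a b (q2 (x - c)) * w x j) x
        = hh a b (q2 (x - c)) * pd j (fun x => w x j) x
          + -(eta a b (q2 (x - c))) * (2 * (x j - c j)) * w x j := by
      intro j
      rw [pd_mul' hΦ (hw j), pd_comp1 hh_hd ((q2c_cd c).differentiable (by simp) x),
        Pool.Agent.V1183.PM.pd_q2]
    simp only [h1, Finset.sum_add_distrib, ← Finset.mul_sum]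
    have h2 := hd x
    unfold W221.NS.dv at h2
    rw [h2, mul_zero, zero_add]
    unfold hN Nf
    rw [Fin.sum_univ_three, Fin.sum_univ_three]
    ring
  simp only [hsum] at hZ
  have hk0 : ∀ x, 0 ≤ eta a b (q2 (x - c)) * hN 1 c w x := by
    intro x
    by_cases h1 : a < q2 (x - c)
    · by_cases h2 : q2 (x - c) < b
      · exact mul_nonneg eta_nonneg (hpos x h1 h2)
      · rw [eta_zero (by linarith), zero_mul]
    · rw [eta_zero' (by linarith), zero_mul]
  have hkc : Continuous (fun x => eta a b (q2 (x - c)) * hN 1 c w x) :=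
    (eta_sm.continuous.comp (q2c_cd c).continuous).mul (hN_sm hw).continuous
  have hkcs : HasCompactSupport (fun x => eta a b (q2 (x - c)) * hN 1 c w x) := by
    apply HasCompactSupport.intro (isCompact_closedBall c √(max b 0))
    intro x hx
    have : eta a b (q2 (x - c)) = 0 := by
      apply eta_zero
      by_contra hlt
      push Not at hlt
      apply hx
      rw [mem_closedBall, dist_eq_norm]
      apply Real.le_sqrt_of_sq_le
      exact (norm_sq_le_q2 _).trans (hlt.le.trans (le_max_left _ _))
    rw [this, zero_mul]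
  intro x h1 h2
  by_contra hne
  have hx0 : eta a b (q2 (x - c)) * hN 1 c w x ≠ 0 := mul_ne_zero (eta_pos h1 h2).ne' hne
  have h3 := hkc.integral_pos_of_hasCompactSupport_nonneg_nonzero (μ := volume) hkcs hk0 hx0
  have h4 := hZ.2
  rw [integral_neg, integral_const_mul] at h4
  linarith

end Pool.Agent.H305.TI
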