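import Pool.Agent.H305.TI.Resc

/-!
Negative values on boxes, in the rescaled and in the original variables.
-/

set_option autoImplicit false

open MeasureTheory Set Metric Filter Topology
open scoped ContDiff ENNReal

namespace Pool.Agent.H305.TI

open H459R3.NS W221.NS Pool.Agent.V1183.PM
open Pool.Agent.TH305.DR (Om Cut exists_cut)
open Pool.Agent.Results.MP_6bf1e5_an.PressureMonotone (TypeI Reg tg reg_of)

/-- If the limit is negative at a point then the sequence is negative on a box. -/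
lemma LLB.neg_box {U : Ultrafilter ℕ} {F : ℕ → ℝ → V → ℝ} (hF : LLB U F) {t₀ : ℝ} {x₀ : V}
    (ht₀ : t₀ < 0) (hneg : (ul U fun n => F n t₀ x₀) < 0) : ∃ δ κ : ℝ, 0 < δ ∧ 0 < κ ∧ κ ≤ 1 ∧
      κ ≤ -t₀ / 2 ∧ ∀ η : ℝ, 0 < η → η ≤ κ → ∀ᶠ n in (U : Filter ℕ), ∀ t ∈ Icc (t₀ - η) (t₀ + η),
        ∀ x ∈ ball x₀ η, F n t x ≤ -δ := by
  obtain ⟨δ, hδ⟩ : ∃ δ, δ = -(ul U fun n => F n t₀ x₀) / 3 := ⟨_, rfl⟩
  have hδ0 : 0 < δ := by rw [hδ]; linarith
  obtain ⟨B, C, hB, hC, h⟩ := hF (2 * t₀) (t₀ / 2) (‖x₀‖ + 1) (by linarith)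
  obtain ⟨κ, hκ⟩ : ∃ κ, κ = min (min 1 (-t₀ / 2)) (δ / (2 * (C + 1))) := ⟨_, rfl⟩
  have h1 : κ ≤ 1 := by rw [hκ]; exact (min_le_left _ _).trans (min_le_left _ _)
  have h2 : κ ≤ -t₀ / 2 := by rw [hκ]; exact (min_le_left _ _).trans (min_le_right _ _)
  have h3 : κ ≤ δ / (2 * (C + 1)) := by rw [hκ]; exact min_le_right _ _
  have hκ0 : 0 < κ := by
    rw [hκ]
    apply lt_min (lt_min one_pos (by linarith)) (by positivity)
  refine ⟨δ, κ, hδ0, hκ0, h1, h2, fun η hη0 hη => ?_⟩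
  have h4 := (hF.tendsto ht₀ x₀).eventually (gt_mem_nhds
    (show (ul U fun n => F n t₀ x₀) < -(2 * δ) by rw [hδ]; linarith))
  filter_upwards [h, h4] with n hn hn2 t ht x hx
  have ht' : t ∈ Icc (2 * t₀) (t₀ / 2) := ⟨by linarith [ht.1], by linarith [ht.2]⟩
  have hx' : x ∈ ball (0 : V) (‖x₀‖ + 1) := by
    rw [mem_ball, dist_eq_norm] at hx
    rw [mem_ball, dist_zero_right]
    calc ‖x‖ = ‖(x - x₀) + x₀‖ := by congr 1; abel
      _ ≤ ‖x - x₀‖ + ‖x₀‖ := norm_add_le _ _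
      _ < _ := by linarith
  have h5 := (hn t ht' x hx').2 t₀ ⟨by linarith, by linarith⟩ x₀ (by
    rw [mem_ball, dist_zero_right]; linarith)
  have h6 : |t - t₀| + ‖x - x₀‖ ≤ 2 * κ := by
    have a1 : |t - t₀| ≤ η := abs_le.2 ⟨by linarith [ht.1], by linarith [ht.2]⟩
    rw [mem_ball, dist_eq_norm] at hx
    linarith
  have h7 : C * (|t - t₀| + ‖x - x₀‖) ≤ δ := by
    rw [le_div_iff₀ (by positivity)] at h3
    calc C * (|t - t₀| + ‖x - x₀‖) ≤ C * (2 * κ) := mul_le_mul_of_nonneg_left h6 hC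
      _ ≤ δ := by nlinarith
  have h8 := (le_abs_self _).trans (h5.trans h7)
  linarith

section
variable {ν M : ℝ} {T ρ r : ℕ → ℝ} {x₀ : ℕ → V} {u : ℕ → ℝ → V → V} {p : ℕ → ℝ → V → ℝ}
  {χ : ℕ → V → ℝ} {N : ℕ → ℝ}

/-- Points of a box in the original variables. -/
lemma Rs.pt (h : Rs ν M T ρ r x₀ u p χ N) (n : ℕ) {t₀ η τ : ℝ} {y₀ x : V}
    (hτ : τ ∈ Icc (T n + r n ^ 2 * t₀ / ν - η * r n ^ 2 / ν) (T n + r n ^ 2 * t₀ / ν + η * r n ^ 2 / ν))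
    (hx : x ∈ ball (x₀ n + r n • y₀) (r n * η)) :
    ∃ t ∈ Icc (t₀ - η) (t₀ + η), ∃ y ∈ ball y₀ η, τ = T n + r n ^ 2 * t / ν ∧ x = x₀ n + r n • y := by
  have h1 := h.ν0
  have h2 := h.r0 n
  have h3 : 0 < r n ^ 2 := by positivity
  refine ⟨ν * (τ - T n) / r n ^ 2, ⟨?_, ?_⟩, (r n)⁻¹ • (x - x₀ n), ?_, ?_, ?_⟩
  · rw [le_div_iff₀ h3]
    have := mul_le_mul_of_nonneg_left hτ.1 h1.le
    have e : ν * (T n + r n ^ 2 * t₀ / ν - η * r n ^ 2 / ν) = ν * T n + (t₀ - η) * r n ^ 2 := by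
      field_simp
      ring
    rw [e] at this
    linarith
  · rw [div_le_iff₀ h3]
    have := mul_le_mul_of_nonneg_left hτ.2 h1.le
    have e : ν * (T n + r n ^ 2 * t₀ / ν + η * r n ^ 2 / ν) = ν * T n + (t₀ + η) * r n ^ 2 := by
      field_simp
      ring
    rw [e] at this
    linarith
  · rw [mem_ball, dist_eq_norm] at hx ⊢
    have e : x - (x₀ n + r n • y₀) = r n • ((r n)⁻¹ • (x - x₀ n) - y₀) := by
      rw [smul_sub, smul_smul, mul_inv_cancel₀ h2.ne', one_smul]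
      abel
    rw [e, norm_smul, Real.norm_of_nonneg h2.le] at hx
    exact lt_of_mul_lt_mul_left hx h2.le
  · field_simp
    ring
  · rw [smul_smul, mul_inv_cancel₀ h2.ne', one_smul]
    abel

/-- The balls of the rescaled solution contain each compact set. -/
lemma Rs.ev (h : Rs ν M T ρ r x₀ u p χ N) (a R : ℝ) : ∀ᶠ n : ℕ in atTop, a ≤ (n : ℝ) + 1 ∧
    (∀ y ∈ ball (0 : V) R, y ∈ ball (0 : V) (ρ n / 2 / r n)) ∧
      ∀ t, -a ≤ t → t < 0 → tmR ν T r n + t ∈ Ioo 0 (tmR ν T r n) := by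
  filter_upwards [eventually_ge_atTop (Nat.ceil (|a| + 1)),
    h.sq.L_top.eventually_ge_atTop R] with n h1 h2
  have h3 : |a| + 1 ≤ n := (Nat.le_ceil _).trans (by exact_mod_cast h1)
  have h4 : ((n : ℝ) + 1) ≤ tmR ν T r n := by
    unfold tmR
    have := h.r0 n
    rw [le_div_iff₀ (by positivity)]
    exact h.rT n
  refine ⟨by linarith [le_abs_self a], fun y hy => ball_subset_ball h2 hy, fun t ht ht0 => ?_⟩
  constructor
  · linarith [le_abs_self a]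
  · linarith

end

end Pool.Agent.H305.TI
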