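import Pool.Agent.H305.TI.Shell
import Pool.Agent.H305.TI.Neg

/-!
Singularities of type I: flow in both directions through all spheres near the singular point.
-/

set_option autoImplicit false

open MeasureTheory Set Metric Filter Topology
open scoped ContDiff ENNReal

namespace Pool.Agent.H305.TI

open H459R3.NS W221.NS Pool.Agent.V1183.PM
open Pool.Agent.TH305.DR (Om Cut exists_cut)
open Pool.Agent.Results.MP_6bf1e5_an.PressureMonotone (TypeI Reg tg reg_of)

/-- The distance in the Euclidean norm. -/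
noncomputable def ed (x c : V) : ℝ := √(∑ i, (x i - c i) ^ 2)

lemma ed_q2 (x c : V) : ed x c = √(q2 (x - c)) := rfl

lemma ed_cont : Continuous fun z : V × V => ed z.1 z.2 := by
  unfold ed
  fun_prop

/-- Scaling of the Euclidean distance. -/
lemma ed_scale {r : ℝ} (hr : 0 < r) (a y c : V) : ed (a + r • y) (a + r • c) = r * ed y c := by
  unfold ed
  have : ∑ i, ((a + r • y) i - (a + r • c) i) ^ 2 = r ^ 2 * ∑ i, (y i - c i) ^ 2 := by
    rw [Finset.mul_sum]
    refine Finset.sum_congr rfl fun i _ => ?_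
    simp only [Pi.add_apply, Pi.smul_apply, smul_eq_mul]
    ring
  rw [this, Real.sqrt_mul (sq_nonneg r), Real.sqrt_sq hr.le]

/-- Flow through spheres, with a sign `σ`. -/
theorem inflow_pos {ν M δ σ : ℝ} (hν : 0 < ν) (hM : 0 < M) (hδ : 0 < δ) (hσ : σ ≠ 0) :
    ∃ ε : ℝ, 0 < ε ∧
    ∀ (T ρ : ℝ) (x₀ : V) (u : ℝ → V → V) (p : ℝ → V → ℝ), TypeI ν M T ρ x₀ u p → ¬ Reg T x₀ u →
      ∀ r : ℝ, 0 < r → r ≤ ε * ρ → r ^ 2 ≤ ε * (ν * T) → ∀ c : V, ed x₀ c ≤ r →
          ENNReal.ofReal (ε * r ^ 5) < ∫⁻ t in Ioo (T - r ^ 2 / ν) (T - ε * r ^ 2 / ν),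
            ∫⁻ x in {x : V | |ed x c - ed x₀ c| < δ * r},
              ENNReal.ofReal (-(σ * ∑ i, (x i - c i) * u t x i)) := by
  by_contra hcon
  push Not at hcon
  have hpos : ∀ n : ℕ, (0 : ℝ) < 1 / (n + 1) := fun n => by positivity
  choose T ρ x₀ u p hTI hsg r hr hrρ hrT c hcr hint using fun n : ℕ => hcon _ (hpos n)
  have hr2 : ∀ n : ℕ, ((n : ℝ) + 1) * r n ≤ ρ n := by
    intro n
    have := hrρ n
    rw [div_mul_eq_mul_div, one_mul, le_div_iff₀ (by positivity)] at this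
    linarith
  have hrT2 : ∀ n : ℕ, ((n : ℝ) + 1) * r n ^ 2 ≤ ν * T n := by
    intro n
    have := hrT n
    rw [div_mul_eq_mul_div, one_mul, le_div_iff₀ (by positivity)] at this
    linarith
  have hρ0 : ∀ n, 0 < ρ n := by
    intro n
    have h1 := hr n
    have h2 : 0 < ((n : ℝ) + 1) * r n := by positivity
    linarith [hr2 n]
  have hcut := fun n => exists_cut (show 0 < ρ n / 2 by linarith [hρ0 n])
      (show ρ n / 2 < 3 * ρ n / 4 by linarith [hρ0 n])
  choose N χ _ hc using hcut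
  have hRs : Rs ν M T ρ r x₀ u p χ N := ⟨hν, hM, hTI, hr, hr2, hrT2, hsg, hc⟩
  have hsq := hRs.sq
  obtain ⟨M', hM'⟩ : ∃ M', M' = ν⁻¹ * (1 + √ν) * M := ⟨_, rfl⟩
  rw [← hM'] at hsq
  have hM'0 : 0 < M' := by rw [hM']; positivity
  have hU : ((hyperfilter ℕ : Ultrafilter ℕ) : Filter ℕ) ≤ atTop := Nat.hyperfilter_le_atTop
  obtain ⟨U, hUd⟩ : ∃ U : Ultrafilter ℕ, U = hyperfilter ℕ := ⟨_, rfl⟩
  rw [← hUd] at hU
  have hanc := hsq.anc hM'0 hU
  obtain ⟨q, K, z, hq, hq1, hK, hz, hnd⟩ := Sq.nd hM'0 hU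
  have hND := hnd hsq (fun n => hRs.sing n)
  -- the rescaled centres
  obtain ⟨b, hb⟩ : ∃ b : ℕ → V, b = fun n => (r n)⁻¹ • (c n - x₀ n) := ⟨_, rfl⟩
  have hcb : ∀ n, c n = x₀ n + r n • b n := by
    intro n
    rw [hb]
    simp only
    rw [smul_smul, mul_inv_cancel₀ (hr n).ne', one_smul]
    abel
  have hb1 : ∀ n, ed 0 (b n) ≤ 1 := by
    intro n
    have h1 := hcr n
    have h2 : ed (x₀ n) (c n) = r n * ed 0 (b n) := by
      have := ed_scale (hr n) (x₀ n) 0 (b n)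
      rw [smul_zero, add_zero, ← hcb] at this
      exact this
    rw [h2] at h1
    exact le_of_mul_le_mul_left (by linarith) (hr n)
  have hmem : ∀ n, b n ∈ closedBall (0 : V) 1 := by
    intro n
    rw [mem_closedBall, dist_zero_right]
    have h1 := hb1 n
    rw [ed_q2, zero_sub] at h1
    have h2 : ‖b n‖ ≤ √(q2 (-b n)) := Real.le_sqrt_of_sq_le (by
      have := norm_sq_le_q2 (-b n)
      rwa [norm_neg] at this)
    exact h2.trans h1
  obtain ⟨b₀, -, hb₀⟩ := ul_compact (U := U) (isCompact_closedBall (0 : V) 1)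
    (Eventually.of_forall hmem)
  have hbi : ∀ i, Tendsto (fun n => b n i) U (𝓝 (b₀ i)) := fun i =>
    ((continuous_apply i).tendsto _).comp hb₀
  -- the function
  have hllb : LLB U (fun n t x => σ * ∑ i, (x i - b n i) * ru ν r x₀ u χ n (tmR ν T r n + t) x i) := by
    refine (LLB.const σ).mul (LLB.sum fun i => ?_)
    refine ((LLB.coord i).sub (LLB.seq (B := 1) (Eventually.of_forall fun n => ?_))).mul
      (hsq.llb hM'0 hU [] i)
    have := norm_le_pi_norm (b n) i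
    rw [Real.norm_eq_abs] at this
    have h2 := hmem n
    rw [mem_closedBall, dist_zero_right] at h2
    exact this.trans h2
  have hlim : ∀ t < 0, ∀ x, (ul U fun n => σ * ∑ i, (x i - b n i) * ru ν r x₀ u χ n (tmR ν T r n + t) x i)
      = σ * hN 1 b₀ (vlim U (tmR ν T r) (ru ν r x₀ u χ) t) x := by
    intro t ht x
    apply ul_eq
    unfold hN Nf
    refine Tendsto.const_mul σ (tendsto_finsetSum _ fun i _ => ?_)
    rw [one_mul]
    exact ((tendsto_const_nhds).sub (hbi i)).mul (hsq.u_lim hM'0 hU ht i x)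
  refine hanc.no_shell hq hz hND (c := b₀) hδ hσ fun t₀ ht₀ y₀ hy₀ => ?_
  by_contra hneg
  rw [not_le, ← hlim t₀ ht₀.2 y₀] at hneg
  obtain ⟨δ', κ, hδ', hκ, hκ1, hκ2, hbox⟩ := hllb.neg_box ht₀.2 hneg
  -- the neighbourhood in the shell
  have hshell : ∀ᶠ w : V × V in 𝓝 (y₀, b₀), |ed w.1 w.2 - ed 0 w.2| < δ := by
    have h1 : Continuous fun w : V × V => |ed w.1 w.2 - ed 0 w.2| := by
      have h2 := ed_cont
      have h3 : Continuous fun w : V × V => ed 0 w.2 := h2.comp (by fun_prop : Continuous fun w : V × V => ((0 : V), w.2))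
      exact (h2.sub h3).abs
    have h4 : |ed y₀ b₀ - ed 0 b₀| < δ := by
      have h5 : ed 0 b₀ = √(q2 b₀) := by
        unfold ed q2
        simp
      rw [h5, ed_q2]
      exact hy₀
    exact h1.continuousAt.eventually (gt_mem_nhds (show |ed (y₀, b₀).1 (y₀, b₀).2 - ed 0 (y₀, b₀).2| < δ from h4))
  rw [nhds_prod_eq, Filter.eventually_prod_iff] at hshell
  obtain ⟨pa, hpa, pb, hpb, hab⟩ := hshell
  obtain ⟨η₀, hη₀, hball⟩ := Metric.mem_nhds_iff.1 hpa
  have ht1 : 0 < t₀ + 1 := by linarith [ht₀.1]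
  have ht2 : 0 < -t₀ := by linarith [ht₀.2]
  obtain ⟨η, hη⟩ : ∃ η, η = min κ (min η₀ (min (t₀ + 1) (-t₀) / 2)) := ⟨_, rfl⟩
  have hη0 : 0 < η := by
    rw [hη]
    exact lt_min hκ (lt_min hη₀ (by have := lt_min ht1 ht2; linarith))
  have hηκ : η ≤ κ := by rw [hη]; exact min_le_left _ _
  have hηη : η ≤ η₀ := by rw [hη]; exact (min_le_right _ _).trans (min_le_left _ _)
  have hη1 : η ≤ (t₀ + 1) / 2 := by
    rw [hη]
    refine (min_le_right _ _).trans ((min_le_right _ _).trans ?_)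
    have := min_le_left (t₀ + 1) (-t₀)
    linarith
  have hη2 : η ≤ -t₀ / 2 := by
    rw [hη]
    refine (min_le_right _ _).trans ((min_le_right _ _).trans ?_)
    have := min_le_right (t₀ + 1) (-t₀)
    linarith
  -- a large index
  have hc0 : 0 < δ' * (2 * η) ^ 3 * (2 * η) := by positivity
  obtain ⟨A, hA⟩ : ∃ A : ℝ, A = 10 + ‖y₀‖ + 4 / (-t₀) + 1 / (δ' * (2 * η) ^ 3 * (2 * η)) := ⟨_, rfl⟩
  have hA1 : 10 + ‖y₀‖ ≤ A := by
    rw [hA]
    have : 0 ≤ 4 / (-t₀) := by positivity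
    have : 0 ≤ 1 / (δ' * (2 * η) ^ 3 * (2 * η)) := by positivity
    linarith
  have hA2 : 4 / (-t₀) < A := by
    rw [hA]
    have := norm_nonneg y₀
    have : 0 ≤ 1 / (δ' * (2 * η) ^ 3 * (2 * η)) := by positivity
    linarith
  have hA3 : 1 / (δ' * (2 * η) ^ 3 * (2 * η)) < A := by
    rw [hA]
    have := norm_nonneg y₀
    have : 0 ≤ 4 / (-t₀) := by positivity
    linarith
  obtain ⟨n, ⟨hn1, hn5⟩, hn2, hn3, hn4⟩ := (((hbox η hη0 hηκ).and (hb₀.eventually hpb)).and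
    (hU (hRs.ev A (‖y₀‖ + 2)))).exists
  have hrn := hr n
  have hr2n : 0 < r n ^ 2 := by positivity
  have hnpos : (0 : ℝ) < (n : ℝ) + 1 := by positivity
  have ht4 : t₀ + η < -(1 / ((n : ℝ) + 1)) := by
    have h1 : 1 / ((n : ℝ) + 1) < -t₀ / 2 := by
      rw [div_lt_iff₀ hnpos]
      rw [div_lt_iff₀ ht2] at hA2
      nlinarith
    linarith
  have hG : ∀ τ ∈ Icc (T n + r n ^ 2 * t₀ / ν - η * r n ^ 2 / ν)
      (T n + r n ^ 2 * t₀ / ν + η * r n ^ 2 / ν), ∀ x ∈ ball (x₀ n + r n • y₀) (r n * η),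
        σ * ∑ i, (x i - c n i) * u n τ x i ≤ -(δ' * ν) ∧ T n - r n ^ 2 / ν < τ ∧
          τ < T n - 1 / (n + 1) * r n ^ 2 / ν ∧ |ed x (c n) - ed (x₀ n) (c n)| < δ * r n := by
    intro τ hτ x hx
    obtain ⟨t, ht, y, hy, hτe, hxe⟩ := hRs.pt n hτ hx
    have hy1 : ‖y‖ < ‖y₀‖ + 1 := by
      rw [mem_ball, dist_eq_norm] at hy
      calc ‖y‖ = ‖(y - y₀) + y₀‖ := by congr 1; abel
        _ ≤ ‖y - y₀‖ + ‖y₀‖ := norm_add_le _ _
        _ < _ := by linarith
    have hy2 : y ∈ ball (0 : V) (‖y₀‖ + 2) := by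
      rw [mem_ball, dist_zero_right]
      linarith
    have hval := fun i => hRs.val (hn3 y hy2) t i
    have h1 := hn1 t ht y hy
    simp only [hval] at h1
    rw [← hτe, ← hxe] at h1
    refine ⟨?_, ?_, ?_, ?_⟩
    · have e1 : σ * ∑ i, (y i - b n i) * (r n / ν * u n τ x i)
          = (σ * ∑ i, (x i - c n i) * u n τ x i) / ν := by
        rw [mul_div_assoc, Finset.sum_div]
        congr 1
        refine Finset.sum_congr rfl fun i _ => ?_
        have e2 : x i - c n i = r n * (y i - b n i) := by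
          rw [hxe, hcb n]
          simp only [Pi.add_apply, Pi.smul_apply, smul_eq_mul]
          ring
        rw [e2]
        ring
      rw [e1, div_le_iff₀ hν] at h1
      linarith
    · have e4 : r n ^ 2 * t / ν = r n ^ 2 / ν * t := by ring
      rw [hτe, e4]
      have h5 : 0 < r n ^ 2 / ν := by positivity
      have h6 : -1 < t := by linarith [ht.1]
      nlinarith
    · have e3 : 1 / ((n : ℝ) + 1) * r n ^ 2 / ν = r n ^ 2 / ν * (1 / ((n : ℝ) + 1)) := by ring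
      have e4 : r n ^ 2 * t / ν = r n ^ 2 / ν * t := by ring
      rw [hτe, e3, e4]
      have h5 : 0 < r n ^ 2 / ν := by positivity
      have h6 : t < -(1 / ((n : ℝ) + 1)) := by linarith [ht.2]
      nlinarith
    · have e5 : ed x (c n) = r n * ed y (b n) := by
        rw [hxe, hcb n]
        exact ed_scale hrn _ _ _
      have e6 : ed (x₀ n) (c n) = r n * ed 0 (b n) := by
        have := ed_scale hrn (x₀ n) 0 (b n)
        rw [smul_zero, add_zero, ← hcb] at this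
        exact this
      rw [e5, e6, ← mul_sub, abs_mul, abs_of_pos hrn, mul_comm δ]
      apply mul_lt_mul_of_pos_left _ hrn
      exact hab (hball (ball_subset_ball hηη hy)) hn5
  have hlow := low_box (G := fun τ x => σ * ∑ i, (x i - c n i) * u n τ x i)
    (I := Ioo (T n - r n ^ 2 / ν) (T n - 1 / (n + 1) * r n ^ 2 / ν))
    (B := {x : V | |ed x (c n) - ed (x₀ n) (c n)| < δ * r n})
    (t₀ := T n + r n ^ 2 * t₀ / ν) (a := η * r n ^ 2 / ν) (ρ := r n * η)
    (x₀ := x₀ n + r n • y₀) (δ := δ' * ν) (by positivity)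
    (fun τ hτ => by
      obtain ⟨-, g2, g3, -⟩ := hG τ hτ (x₀ n + r n • y₀) (mem_ball_self (by positivity))
      exact ⟨g2, g3⟩)
    (fun x hx => by
      obtain ⟨-, -, -, g4⟩ := hG (T n + r n ^ 2 * t₀ / ν) ⟨by
        have : 0 < η * r n ^ 2 / ν := by positivity
        linarith, by
        have : 0 < η * r n ^ 2 / ν := by positivity
        linarith⟩ x hx
      exact g4)
    (fun τ hτ x hx => (hG τ hτ x hx).1) (by positivity)
  have h1 := hlow.trans (hint n)
  rw [ENNReal.ofReal_le_ofReal_iff (by positivity)] at h1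
  have e1 : δ' * ν * (2 * (r n * η)) ^ 3 * (2 * (η * r n ^ 2 / ν))
      = (δ' * (2 * η) ^ 3 * (2 * η)) * r n ^ 5 := by
    field_simp
  rw [e1] at h1
  have h2 : δ' * (2 * η) ^ 3 * (2 * η) ≤ 1 / ((n : ℝ) + 1) :=
    le_of_mul_le_mul_right h1 (by positivity)
  rw [le_div_iff₀ hnpos] at h2
  rw [div_lt_iff₀ hc0] at hA3
  have h3 : A * (δ' * (2 * η) ^ 3 * (2 * η)) ≤ ((n : ℝ) + 1) * (δ' * (2 * η) ^ 3 * (2 * η)) :=
    mul_le_mul_of_nonneg_right hn2 hc0.le
  linarith

end Pool.Agent.H305.TI
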