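import Pool.Agent.H305.TI.Flux

/-!
A solution of the drift diffusion equation near the singular point which is `O(1/(-t))` is bounded.
-/

set_option autoImplicit false

open MeasureTheory Set Metric Filter Topology
open scoped ContDiff

namespace Pool.Agent.H305.TI

open H459R3.NS W221.NS Pool.Agent.V1183.PM
open Pool.Agent.W583.MD (sm_pd cs_pd pd_mul')
open Pool.Agent.TH305.DR (pd_sub' pd_add' pd_const')

/-- The weight. -/
noncomputable def PP (β a t : ℝ) (x : V) : ℝ := -t + β * (a - q2 x) ^ 2

section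
variable {β a t : ℝ} {x : V}

lemma PP_sm : ContDiff ℝ ∞ (PP β a t) := by
  unfold PP
  exact contDiff_const.add (contDiff_const.mul ((contDiff_const.sub q2_cd).pow 2))

lemma PP_pd (j : Fin 3) : pd j (PP β a t) x = -4 * β * (a - q2 x) * x j := by
  have h : HasDerivAt (fun s : ℝ => -t + β * (a - s) ^ 2) (β * (2 * (a - q2 x) * (-1))) (q2 x) := by
    have h1 : HasDerivAt (fun s : ℝ => a - s) (-1) (q2 x) := by
      simpa using (hasDerivAt_id (q2 x)).const_sub a
    have h2 := (h1.pow 2).const_mul β
    have h3 := h2.const_add (-t)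
    refine h3.congr_deriv ?_
    norm_num
  have h2 := pd_comp1 (f := q2) h ((q2_cd (n := 1)).differentiable (by norm_num) x) j
  have e : PP β a t = fun y => (fun s : ℝ => -t + β * (a - s) ^ 2) (q2 y) := rfl
  rw [e, h2, pd_q2]
  ring

lemma PP_lap : lap (PP β a t) x = β * (20 * q2 x - 12 * a) := by
  unfold lap
  have h1 : ∀ j, pd j (pd j (PP β a t)) x = β * (8 * x j ^ 2 - 4 * (a - q2 x)) := by
    intro j
    have e : pd j (PP β a t) = fun y => (-4 * β * a - (-4 * β) * q2 y) * (1 * y j) := by
      funext y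
      rw [PP_pd]
      ring
    have s1 : ContDiff ℝ ∞ (fun y : V => -4 * β * a - (-4 * β) * q2 y) :=
      contDiff_const.sub (contDiff_const.mul q2_cd)
    have s2 : ContDiff ℝ ∞ (fun y : V => 1 * y j) := contDiff_const.mul (cd_coord j)
    rw [e, pd_mul' s1 s2, pd_lin, pd_sub' contDiff_const (contDiff_const.mul q2_cd)]
    simp only
    rw [pd_cmul q2_cd, pd_q2, pd_const']
    simp
    ring
  simp only [h1]
  rw [Fin.sum_univ_three]
  unfold q2
  rw [Fin.sum_univ_three]
  ring

lemma lap_mul_sm {f g : V → ℝ} (hf : ContDiff ℝ ∞ f) (hg : ContDiff ℝ ∞ g) (x : V) :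
    lap (fun y => f y * g y) x = f x * lap g x + 2 * ∑ j, pd j f x * pd j g x + g x * lap f x := by
  unfold lap
  have h1 : ∀ j, pd j (pd j (fun y => f y * g y)) x
      = f x * pd j (pd j g) x + 2 * (pd j f x * pd j g x) + g x * pd j (pd j f) x := by
    intro j
    have e : pd j (fun y => f y * g y) = fun y => f y * pd j g y + pd j f y * g y := by
      funext y
      rw [pd_mul' hf hg]
    rw [e, pd_add' (hf.mul (sm_pd hg j)) ((sm_pd hf j).mul hg)]
    simp only
    rw [pd_mul' hf (sm_pd hg j), pd_mul' (sm_pd hf j) hg]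
    ring
  simp only [h1, Finset.sum_add_distrib, ← Finset.mul_sum]

end

section
variable {M : ℝ} {v : ℝ → V → V}

lemma Anc.bd_inner (h : Anc M v) {a C : ℝ} (ha : 0 < a) (hC : 0 ≤ C) {g : ℝ → V → ℝ}
    (hg : ContinuousOn (fun z : ℝ × V => g z.1 z.2) (Iio 0 ×ˢ univ))
    (hs : ∀ t < 0, ContDiff ℝ ∞ (g t))
    (ht : ∀ t ∈ Ico (-1 / 2 : ℝ) 0, ∀ x, q2 x < a →
      HasDerivAt (fun s => g s x) (lap (g t) x - adv (v t) (g t) x) t)
    (hb : ∀ t ∈ Ico (-1 / 2 : ℝ) 0, ∀ x, q2 x ≤ a → g t x * (-t) ≤ C) :
    ∃ A : ℝ, 0 ≤ A ∧ ∀ t ∈ Ico (-1 / 2 : ℝ) 0, ∀ x, q2 x ≤ a / 2 → g t x ≤ A := by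
  have hM := h.M_nonneg
  obtain ⟨β, hβ⟩ : ∃ β, β = 1 / (12 * a * (M + 2)) := ⟨_, rfl⟩
  have hβ0 : 0 < β := by rw [hβ]; positivity
  have hβ1 : β * (12 * a * (M + 2)) = 1 := by
    rw [hβ]
    field_simp
  obtain ⟨A', hA'⟩ : ∃ A', A' = C * (1 + 2 * β * a ^ 2) := ⟨_, rfl⟩
  have hA'0 : 0 ≤ A' := by rw [hA']; positivity
  have hCA : C ≤ A' := by
    rw [hA']
    have : 0 ≤ C * (2 * β * a ^ 2) := by positivity
    linarith
  have hq0 : ∀ x : V, q2 (x - 0) = q2 x := fun x => by rw [sub_zero]
  have key : ∀ b ∈ Ico (-1 / 2 : ℝ) 0, ∀ x, q2 x ≤ a → g b x * PP β a b x - A' ≤ 0 := by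
    intro b hbb x hx
    have hneg : ∀ t ∈ Icc (-1 / 2 : ℝ) b, t < 0 := fun t ht => ht.2.trans_lt hbb.2
    refine cmpP (a := -1 / 2) (b := b) 0 (ϱ := fun _ => a) continuousOn_const
      (F := fun t x => g t x * PP β a t x - A')
      (B := fun t x j => v t x j + 2 / PP β a t x * pd j (PP β a t) x) ?_ ?_ ?_ ?_ ?_ ?_ b
      ⟨hbb.1, le_rfl⟩ x (by rw [hq0]; exact hx)
    · apply ContinuousOn.sub _ continuousOn_const
      apply ContinuousOn.mul
      · exact hg.mono fun z hz => ⟨hneg z.1 hz.1, mem_univ _⟩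
      · have : Continuous fun z : ℝ × V => PP β a z.1 z.2 := by
          unfold PP
          have := q2_cont
          fun_prop
        exact this.continuousOn
    · intro y hy
      rw [hq0] at hy
      have h1 := hb (-1 / 2) ⟨le_rfl, by norm_num⟩ y hy
      have h2 : PP β a (-1 / 2) y = 1 / 2 * (1 + 2 * β * (a - q2 y) ^ 2) := by
        unfold PP
        ring
      have h3 : (a - q2 y) ^ 2 ≤ a ^ 2 := by
        have := q2_nonneg y
        apply pow_le_pow_left₀ (by linarith)
        linarith
      have h4 : 0 ≤ 1 + 2 * β * (a - q2 y) ^ 2 := by positivity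
      rw [h2]
      have h5 : g (-1 / 2) y * (1 / 2 * (1 + 2 * β * (a - q2 y) ^ 2))
          = (g (-1 / 2) y * (-(-1 / 2))) * (1 + 2 * β * (a - q2 y) ^ 2) := by ring
      rw [h5]
      have h6 : (g (-1 / 2) y * (-(-1 / 2))) * (1 + 2 * β * (a - q2 y) ^ 2)
          ≤ C * (1 + 2 * β * (a - q2 y) ^ 2) := mul_le_mul_of_nonneg_right h1 h4
      have h7 : C * (1 + 2 * β * (a - q2 y) ^ 2) ≤ A' := by
        rw [hA']
        apply mul_le_mul_of_nonneg_left _ hC
        have := mul_le_mul_of_nonneg_left h3 (show 0 ≤ 2 * β by positivity)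
        linarith
      linarith
    · intro t ht' y hy
      rw [hq0] at hy
      have h1 := hb t ⟨ht'.1, hneg t ht'⟩ y hy.le
      have h2 : PP β a t y = -t := by
        unfold PP
        rw [hy]
        ring
      rw [h2]
      linarith
    · intro t ht'
      have := (((hs t (hneg t ⟨ht'.1.le, ht'.2⟩)).mul (PP_sm (β := β) (a := a) (t := t))).sub
        (contDiff_const (c := A')))
      exact this.of_le (by norm_cast)
    · intro t ht' y hy
      rw [hq0] at hy
      have h1 := (ht t ⟨ht'.1.le, hneg t ⟨ht'.1.le, ht'.2⟩⟩ y hy).differentiableAt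
      unfold PP
      exact (h1.mul (by fun_prop)).sub_const _
    · intro t ht' y hy hF
      rw [hq0] at hy
      have ht0 := hneg t ⟨ht'.1.le, ht'.2⟩
      have hgt := hs t ht0
      have hP0 : 0 < PP β a t y := by
        unfold PP
        have : 0 ≤ β * (a - q2 y) ^ 2 := by positivity
        linarith
      have hgpos : 0 < g t y := by
        have : 0 < g t y * PP β a t y := by linarith
        exact pos_of_mul_pos_left this hP0.le
      have h1 := ht t ⟨ht'.1.le, ht0⟩ y hy
      have h2 : HasDerivAt (fun s => PP β a s y) (-1) t := by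
        unfold PP
        simpa using ((hasDerivAt_id t).neg).add_const (β * (a - q2 y) ^ 2)
      have h3 : deriv (fun s => g s y * PP β a s y - A') t
          = (lap (g t) y - adv (v t) (g t) y) * PP β a t y + g t y * (-1) :=
        ((h1.mul h2).sub_const A').deriv
      have h4 : ∀ j, pd j (fun z => g t z * PP β a t z - A') y
          = g t y * pd j (PP β a t) y + pd j (g t) y * PP β a t y := by
        intro j
        rw [pd_sub' (hgt.mul PP_sm) contDiff_const]
        simp only
        rw [pd_mul' hgt PP_sm, pd_const', sub_zero]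
      have h5 : lap (fun z => g t z * PP β a t z - A') y
          = g t y * lap (PP β a t) y + 2 * ∑ j, pd j (g t) y * pd j (PP β a t) y
            + PP β a t y * lap (g t) y := by
        rw [lap_sub2 ((hgt.mul PP_sm).of_le (by norm_cast)) contDiff_const, lap_mul_sm hgt PP_sm]
        have : lap (fun _ : V => A') y = 0 := by
          unfold lap
          simp [pd_const']
        rw [this, sub_zero]
      rw [h3, h5]
      simp only [h4]
      -- the coefficient
      have hs0 : 0 ≤ a - q2 y := by linarith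
      have hqy := q2_nonneg y
      have hdot := abs_le.1 (h.dot_bd ht0 y)
      have hvP : ∑ j, v t y j * pd j (PP β a t) y = -4 * β * (a - q2 y) * ∑ j, v t y j * y j := by
        rw [Finset.mul_sum]
        exact Finset.sum_congr rfl fun j _ => by rw [PP_pd]; ring
      have hPP : ∑ j, pd j (PP β a t) y ^ 2 = 16 * β ^ 2 * (a - q2 y) ^ 2 * q2 y := by
        simp only [PP_pd]
        unfold q2
        simp only [Fin.sum_univ_three]
        ring
      have hPP2 : 2 / PP β a t y * ∑ j, pd j (PP β a t) y ^ 2 ≤ 32 * β * q2 y := by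
        rw [hPP, div_mul_eq_mul_div, div_le_iff₀ hP0]
        have : β * (a - q2 y) ^ 2 ≤ PP β a t y := by
          unfold PP
          linarith
        have h6 := mul_le_mul_of_nonneg_left this (show 0 ≤ 32 * β * q2 y by positivity)
        calc 2 * (16 * β ^ 2 * (a - q2 y) ^ 2 * q2 y) = 32 * β * q2 y * (β * (a - q2 y) ^ 2) := by ring
          _ ≤ _ := h6
      have hid : (lap (g t) y - adv (v t) (g t) y) * PP β a t y + g t y * (-1)
          + ∑ j, (v t y j + 2 / PP β a t y * pd j (PP β a t) y)
            * (g t y * pd j (PP β a t) y + pd j (g t) y * PP β a t y)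
          - (g t y * lap (PP β a t) y + 2 * ∑ j, pd j (g t) y * pd j (PP β a t) y
            + PP β a t y * lap (g t) y)
          = - g t y * (1 - ∑ j, v t y j * pd j (PP β a t) y + lap (PP β a t) y
              - 2 / PP β a t y * ∑ j, pd j (PP β a t) y ^ 2) := by
        unfold adv
        simp only [Fin.sum_univ_three]
        field_simp
        ring
      rw [hid, hvP, PP_lap]
      have hk : 0 ≤ 1 - -4 * β * (a - q2 y) * ∑ j, v t y j * y j + β * (20 * q2 y - 12 * a)
              - 2 / PP β a t y * ∑ j, pd j (PP β a t) y ^ 2 := by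
        have m1 : -(12 * β * a * M) ≤ 4 * β * (a - q2 y) * ∑ j, v t y j * y j := by
          have c0 : 0 ≤ 4 * β * (a - q2 y) := by positivity
          have c1 := mul_le_mul_of_nonneg_left hdot.1 c0
          have c2 : 4 * β * (a - q2 y) * (3 * M) ≤ 12 * β * a * M := by
            have : 0 ≤ 12 * β * M * q2 y := by positivity
            linarith
          linarith
        have m2 : 0 ≤ β * (12 * a * (M + 2)) - 12 * β * a * M - 12 * β * a - 12 * β * q2 y := by
          have : β * q2 y ≤ β * a := mul_le_mul_of_nonneg_left hy.le hβ0.le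
          linarith
        linarith
      nlinarith
  refine ⟨A' / (β * (a / 2) ^ 2), by positivity, fun t ht' x hx => ?_⟩
  have h1 := key t ht' x (by linarith)
  by_cases hgx : g t x ≤ 0
  · exact hgx.trans (by positivity)
  push Not at hgx
  rw [le_div_iff₀ (by positivity)]
  have h2 : β * (a / 2) ^ 2 ≤ PP β a t x := by
    unfold PP
    have h3 : (a / 2) ^ 2 ≤ (a - q2 x) ^ 2 := pow_le_pow_left₀ (by positivity) (by linarith) 2
    have h4 := mul_le_mul_of_nonneg_left h3 hβ0.le
    linarith [ht'.2]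
  have h3 := mul_le_mul_of_nonneg_left h2 hgx.le
  linarith

end

end Pool.Agent.H305.TI
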