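import Pool.Agent.H305.TI.Nd

/-!
Static Liouville theorems: divergence free fields which are tangential, with tangential vorticity,
to a family of spheres or planes.
-/

set_option autoImplicit false

open MeasureTheory Set Metric Filter Topology
open scoped ContDiff

namespace Pool.Agent.H305.TI

open H459R3.NS W221.NS Pool.Agent.V1183.PM
open Pool.Agent.TH305.DR (Om bb SS SS_zero SS_succ SS_one SS_nonneg SV ST ST_nonneg SV_nonneg om_sm
  pd_sum' pd_sub' pd_add' pd_neg' pd_const')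
open Pool.Agent.W583.MD (sm_pd cs_pd pd_mul')
open Pool.Agent.W22.ME.TD (pd_comm)

lemma sq_zero_of {a b : ℝ} (h : a ^ 2 + b ≤ 0) (hb : 0 ≤ b) : a = 0 := by
  have h1 : a ^ 2 ≤ 0 := by linarith
  exact pow_eq_zero_iff (two_ne_zero) |>.1 (le_antisymm h1 (sq_nonneg _))

/-- The algebra for spheres: `a i j = ∂ᵢ wⱼ`, `s i j k = ∂ᵢ ∂ⱼ wₖ`. -/
lemma alg_sphere (x w : Fin 3 → ℝ) (a : Fin 3 → Fin 3 → ℝ) (s : Fin 3 → Fin 3 → Fin 3 → ℝ)
    (hs : ∀ i j k, s i j k = s j i k)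
    (r0 : x 0 * w 0 + x 1 * w 1 + x 2 * w 2 = 0)
    (r1 : ∀ m, w m + (x 0 * a m 0 + x 1 * a m 1 + x 2 * a m 2) = 0)
    (r2 : ∀ l m, a l m + a m l + (x 0 * s l m 0 + x 1 * s l m 1 + x 2 * s l m 2) = 0)
    (_d0 : a 0 0 + a 1 1 + a 2 2 = 0) (d1 : ∀ m, s m 0 0 + s m 1 1 + s m 2 2 = 0)
    (e0 : a 1 2 - a 2 1 + (x 0 * (s 0 1 2 - s 0 2 1) + x 1 * (s 0 2 0 - s 0 0 2)
      + x 2 * (s 0 0 1 - s 0 1 0)) = 0)
    (e1 : a 2 0 - a 0 2 + (x 0 * (s 1 1 2 - s 1 2 1) + x 1 * (s 1 2 0 - s 1 0 2)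
      + x 2 * (s 1 0 1 - s 1 1 0)) = 0)
    (e2 : a 0 1 - a 1 0 + (x 0 * (s 2 1 2 - s 2 2 1) + x 1 * (s 2 2 0 - s 2 0 2)
      + x 2 * (s 2 0 1 - s 2 1 0)) = 0)
    (hle : ∑ k, ((x 1 * a 2 k - x 2 * a 1 k) ^ 2 + (x 2 * a 0 k - x 0 * a 2 k) ^ 2
        + (x 0 * a 1 k - x 1 * a 0 k) ^ 2
        + w k * ((x 1 ^ 2 + x 2 ^ 2) * s 0 0 k + (x 0 ^ 2 + x 2 ^ 2) * s 1 1 k
          + (x 0 ^ 2 + x 1 ^ 2) * s 2 2 k - 2 * x 0 * x 1 * s 0 1 k - 2 * x 1 * x 2 * s 1 2 k
          - 2 * x 0 * x 2 * s 0 2 k - 2 * (x 0 * a 0 k + x 1 * a 1 k + x 2 * a 2 k))) ≤ 0) :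
    (x 0 ^ 2 + x 1 ^ 2 + x 2 ^ 2) * (w 0 ^ 2 + w 1 ^ 2 + w 2 ^ 2) = 0 := by
  have h10 : ∀ k, s 1 0 k = s 0 1 k := fun k => hs 1 0 k
  have h20 : ∀ k, s 2 0 k = s 0 2 k := fun k => hs 2 0 k
  have h21 : ∀ k, s 2 1 k = s 1 2 k := fun k => hs 2 1 k
  have r10 := r1 0
  have r11 := r1 1
  have r12 := r1 2
  have d10 := d1 0
  have d11 := d1 1
  have d12 := d1 2
  have r200 := r2 0 0
  have r201 := r2 0 1
  have r202 := r2 0 2
  have r211 := r2 1 1
  have r212 := r2 1 2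
  have r222 := r2 2 2
  simp only [h10, h20, h21, Fin.sum_univ_three] at *
  have key : (x 1 * a 2 0 - x 2 * a 1 0) ^ 2 + (x 2 * a 0 0 - x 0 * a 2 0) ^ 2
        + (x 0 * a 1 0 - x 1 * a 0 0) ^ 2
        + w 0 * ((x 1 ^ 2 + x 2 ^ 2) * s 0 0 0 + (x 0 ^ 2 + x 2 ^ 2) * s 1 1 0
          + (x 0 ^ 2 + x 1 ^ 2) * s 2 2 0 - 2 * x 0 * x 1 * s 0 1 0 - 2 * x 1 * x 2 * s 1 2 0
          - 2 * x 0 * x 2 * s 0 2 0 - 2 * (x 0 * a 0 0 + x 1 * a 1 0 + x 2 * a 2 0))
      + ((x 1 * a 2 1 - x 2 * a 1 1) ^ 2 + (x 2 * a 0 1 - x 0 * a 2 1) ^ 2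
        + (x 0 * a 1 1 - x 1 * a 0 1) ^ 2
        + w 1 * ((x 1 ^ 2 + x 2 ^ 2) * s 0 0 1 + (x 0 ^ 2 + x 2 ^ 2) * s 1 1 1
          + (x 0 ^ 2 + x 1 ^ 2) * s 2 2 1 - 2 * x 0 * x 1 * s 0 1 1 - 2 * x 1 * x 2 * s 1 2 1
          - 2 * x 0 * x 2 * s 0 2 1 - 2 * (x 0 * a 0 1 + x 1 * a 1 1 + x 2 * a 2 1)))
      + ((x 1 * a 2 2 - x 2 * a 1 2) ^ 2 + (x 2 * a 0 2 - x 0 * a 2 2) ^ 2
        + (x 0 * a 1 2 - x 1 * a 0 2) ^ 2
        + w 2 * ((x 1 ^ 2 + x 2 ^ 2) * s 0 0 2 + (x 0 ^ 2 + x 2 ^ 2) * s 1 1 2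
          + (x 0 ^ 2 + x 1 ^ 2) * s 2 2 2 - 2 * x 0 * x 1 * s 0 1 2 - 2 * x 1 * x 2 * s 1 2 2
          - 2 * x 0 * x 2 * s 0 2 2 - 2 * (x 0 * a 0 2 + x 1 * a 1 2 + x 2 * a 2 2)))
      = ((x 1 * a 2 0 - x 2 * a 1 0) ^ 2 + (x 1 * a 2 1 - x 2 * a 1 1 + w 2) ^ 2
          + (x 1 * a 2 2 - x 2 * a 1 2 - w 1) ^ 2)
        + ((x 2 * a 0 0 - x 0 * a 2 0 - w 2) ^ 2 + (x 2 * a 0 1 - x 0 * a 2 1) ^ 2
          + (x 2 * a 0 2 - x 0 * a 2 2 + w 0) ^ 2)
        + ((x 0 * a 1 0 - x 1 * a 0 0 + w 1) ^ 2 + (x 0 * a 1 1 - x 1 * a 0 1 - w 0) ^ 2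
          + (x 0 * a 1 2 - x 1 * a 0 2) ^ 2) := by
    linear_combination (2 * (a 0 0 + a 1 1 + a 2 2)
        - (x 0 * (s 0 0 0 + s 0 1 1 + s 0 2 2) + x 1 * (s 0 1 0 + s 1 1 1 + s 1 2 2)
          + x 2 * (s 0 2 0 + s 1 2 1 + s 2 2 2))
        + (x 0 * (s 0 0 0 + s 1 1 0 + s 2 2 0) + x 1 * (s 0 0 1 + s 1 1 1 + s 2 2 1)
          + x 2 * (s 0 0 2 + s 1 1 2 + s 2 2 2))) * r0
      - 2 * w 0 * r10 - 2 * w 1 * r11 - 2 * w 2 * r12
      + (w 1 * x 2 - w 2 * x 1) * e0 + (w 2 * x 0 - w 0 * x 2) * e1 + (w 0 * x 1 - w 1 * x 0) * e2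
      + (x 0 ^ 2 + x 1 ^ 2 + x 2 ^ 2) * (w 0 * d10 + w 1 * d11 + w 2 * d12)
      - (w 0 * x 0 * r200 + w 1 * x 1 * r211 + w 2 * x 2 * r222
        + (w 0 * x 1 + w 1 * x 0) * r201 + (w 0 * x 2 + w 2 * x 0) * r202
        + (w 1 * x 2 + w 2 * x 1) * r212)
  rw [key] at hle
  have p1 := sq_nonneg (x 1 * a 2 0 - x 2 * a 1 0)
  have p2 := sq_nonneg (x 1 * a 2 1 - x 2 * a 1 1 + w 2)
  have p3 := sq_nonneg (x 1 * a 2 2 - x 2 * a 1 2 - w 1)
  have p4 := sq_nonneg (x 2 * a 0 0 - x 0 * a 2 0 - w 2)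
  have p5 := sq_nonneg (x 2 * a 0 1 - x 0 * a 2 1)
  have p6 := sq_nonneg (x 2 * a 0 2 - x 0 * a 2 2 + w 0)
  have p7 := sq_nonneg (x 0 * a 1 0 - x 1 * a 0 0 + w 1)
  have p8 := sq_nonneg (x 0 * a 1 1 - x 1 * a 0 1 - w 0)
  have p9 := sq_nonneg (x 0 * a 1 2 - x 1 * a 0 2)
  have z1 : x 1 * a 2 0 - x 2 * a 1 0 = 0 := sq_zero_of (b := 0) (by linarith) le_rfl
  have z2 : x 1 * a 2 1 - x 2 * a 1 1 + w 2 = 0 := sq_zero_of (b := 0) (by linarith) le_rfl
  have z3 : x 1 * a 2 2 - x 2 * a 1 2 - w 1 = 0 := sq_zero_of (b := 0) (by linarith) le_rfl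
  have z4 : x 2 * a 0 0 - x 0 * a 2 0 - w 2 = 0 := sq_zero_of (b := 0) (by linarith) le_rfl
  have z5 : x 2 * a 0 1 - x 0 * a 2 1 = 0 := sq_zero_of (b := 0) (by linarith) le_rfl
  have z6 : x 2 * a 0 2 - x 0 * a 2 2 + w 0 = 0 := sq_zero_of (b := 0) (by linarith) le_rfl
  have z7 : x 0 * a 1 0 - x 1 * a 0 0 + w 1 = 0 := sq_zero_of (b := 0) (by linarith) le_rfl
  have z8 : x 0 * a 1 1 - x 1 * a 0 1 - w 0 = 0 := sq_zero_of (b := 0) (by linarith) le_rfl
  have z9 : x 0 * a 1 2 - x 1 * a 0 2 = 0 := sq_zero_of (b := 0) (by linarith) le_rfl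
  have c0 : x 1 * w 2 - x 2 * w 1 = 0 := by linear_combination (-x 0) * z1 - x 1 * z4 - x 2 * z7
  have c1 : x 2 * w 0 - x 0 * w 2 = 0 := by linear_combination (-x 0) * z2 - x 1 * z5 - x 2 * z8
  have c2 : x 0 * w 1 - x 1 * w 0 = 0 := by linear_combination (-x 0) * z3 - x 1 * z6 - x 2 * z9
  linear_combination (x 0 * w 0 + x 1 * w 1 + x 2 * w 2) * r0 + (x 1 * w 2 - x 2 * w 1) * c0
    + (x 2 * w 0 - x 0 * w 2) * c1 + (x 0 * w 1 - x 1 * w 0) * c2

/-- The algebra for planes. -/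
lemma alg_plane (b : Fin 3 → ℝ) (s : Fin 3 → Fin 3 → Fin 3 → ℝ)
    (hs : ∀ i j k, s i j k = s j i k)
    (r2 : ∀ l m, b 0 * s l m 0 + b 1 * s l m 1 + b 2 * s l m 2 = 0)
    (d1 : ∀ m, s m 0 0 + s m 1 1 + s m 2 2 = 0)
    (e1 : ∀ q, b 0 * (s q 1 2 - s q 2 1) + b 1 * (s q 2 0 - s q 0 2) + b 2 * (s q 0 1 - s q 1 0) = 0)
    (k : Fin 3) : (b 0 ^ 2 + b 1 ^ 2 + b 2 ^ 2) * (s 0 0 k + s 1 1 k + s 2 2 k)
      - ∑ i, ∑ j, b i * b j * s i j k = 0 := by
  have h10 : ∀ k, s 1 0 k = s 0 1 k := fun k => hs 1 0 k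
  have h20 : ∀ k, s 2 0 k = s 0 2 k := fun k => hs 2 0 k
  have h21 : ∀ k, s 2 1 k = s 1 2 k := fun k => hs 2 1 k
  have d10 := d1 0
  have d11 := d1 1
  have d12 := d1 2
  have e10 := e1 0
  have e11 := e1 1
  have e12 := e1 2
  have r200 := r2 0 0
  have r201 := r2 0 1
  have r202 := r2 0 2
  have r211 := r2 1 1
  have r212 := r2 1 2
  have r222 := r2 2 2
  simp only [h10, h20, h21, Fin.sum_univ_three] at *
  fin_cases k
  · show (b 0 ^ 2 + b 1 ^ 2 + b 2 ^ 2) * (s 0 0 0 + s 1 1 0 + s 2 2 0)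
      - (b 0 * b 0 * s 0 0 0 + b 0 * b 1 * s 0 1 0 + b 0 * b 2 * s 0 2 0
        + (b 1 * b 0 * s 0 1 0 + b 1 * b 1 * s 1 1 0 + b 1 * b 2 * s 1 2 0)
        + (b 2 * b 0 * s 0 2 0 + b 2 * b 1 * s 1 2 0 + b 2 * b 2 * s 2 2 0)) = 0
    linear_combination (b 0 ^ 2 + b 1 ^ 2 + b 2 ^ 2) * d10
      - b 0 * (b 0 * d10 + b 1 * d11 + b 2 * d12) - (b 2 * e11 - b 1 * e12)
      + b 0 * (r200 + r211 + r222) - (b 0 * r200 + b 1 * r201 + b 2 * r202)
  · show (b 0 ^ 2 + b 1 ^ 2 + b 2 ^ 2) * (s 0 0 1 + s 1 1 1 + s 2 2 1)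
      - (b 0 * b 0 * s 0 0 1 + b 0 * b 1 * s 0 1 1 + b 0 * b 2 * s 0 2 1
        + (b 1 * b 0 * s 0 1 1 + b 1 * b 1 * s 1 1 1 + b 1 * b 2 * s 1 2 1)
        + (b 2 * b 0 * s 0 2 1 + b 2 * b 1 * s 1 2 1 + b 2 * b 2 * s 2 2 1)) = 0
    linear_combination (b 0 ^ 2 + b 1 ^ 2 + b 2 ^ 2) * d11
      - b 1 * (b 0 * d10 + b 1 * d11 + b 2 * d12) - (b 0 * e12 - b 2 * e10)
      + b 1 * (r200 + r211 + r222) - (b 0 * r201 + b 1 * r211 + b 2 * r212)
  · show (b 0 ^ 2 + b 1 ^ 2 + b 2 ^ 2) * (s 0 0 2 + s 1 1 2 + s 2 2 2)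
      - (b 0 * b 0 * s 0 0 2 + b 0 * b 1 * s 0 1 2 + b 0 * b 2 * s 0 2 2
        + (b 1 * b 0 * s 0 1 2 + b 1 * b 1 * s 1 1 2 + b 1 * b 2 * s 1 2 2)
        + (b 2 * b 0 * s 0 2 2 + b 2 * b 1 * s 1 2 2 + b 2 * b 2 * s 2 2 2)) = 0
    linear_combination (b 0 ^ 2 + b 1 ^ 2 + b 2 ^ 2) * d12
      - b 2 * (b 0 * d10 + b 1 * d11 + b 2 * d12) - (b 1 * e10 - b 0 * e11)
      + b 2 * (r200 + r211 + r222) - (b 0 * r202 + b 1 * r212 + b 2 * r222)

/-! ### Rotations -/

/-- The derivative along a rotation. -/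
noncomputable def Lr (j k : Fin 3) (f : V → ℝ) (x : V) : ℝ := x j * pd k f x - x k * pd j f x

/-- The rotation in the plane of the coordinates `j`, `k`. -/
noncomputable def rotc (j k : Fin 3) (x : V) (s : ℝ) : V := fun m =>
  if m = j then Real.cos s * x j - Real.sin s * x k
  else if m = k then Real.sin s * x j + Real.cos s * x k else x m

lemma fd_eq (f : V → ℝ) (x v : V) : fderiv ℝ f x v = ∑ m, v m * pd m f x := by
  have hv : v = ∑ j, v j • (Pi.single j (1 : ℝ) : V) := by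
    funext i
    simp [Finset.sum_apply, Pi.single_apply]
  conv_lhs => rw [hv]
  rw [map_sum]
  refine Finset.sum_congr rfl fun j _ => ?_
  rw [map_smul, smul_eq_mul]
  rfl

lemma rotc_zero (j k : Fin 3) (x : V) : rotc j k x 0 = x := by
  funext m
  unfold rotc
  simp only [Real.cos_zero, Real.sin_zero]
  split_ifs with h1 h2
  · subst h1; ring
  · subst h2; ring
  · rfl

lemma rotc_cd (j k : Fin 3) (x : V) : ContDiff ℝ ∞ (rotc j k x) := by
  rw [contDiff_pi]
  intro m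
  unfold rotc
  split_ifs
  · fun_prop
  · fun_prop
  · fun_prop

lemma rotc_hd {j k : Fin 3} (hjk : j ≠ k) (x : V) (s : ℝ) :
    HasDerivAt (rotc j k x) (fun m => if m = j then -(rotc j k x s k)
      else if m = k then rotc j k x s j else 0) s := by
  rw [hasDerivAt_pi]
  intro m
  have hj : rotc j k x s j = Real.cos s * x j - Real.sin s * x k := by unfold rotc; simp
  have hk : rotc j k x s k = Real.sin s * x j + Real.cos s * x k := by
    unfold rotc
    simp [Ne.symm hjk]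
  rw [hj, hk]
  unfold rotc
  split_ifs with h1 h2
  · have h3 := ((Real.hasDerivAt_cos s).mul_const (x j)).sub ((Real.hasDerivAt_sin s).mul_const (x k))
    refine h3.congr_deriv ?_
    ring
  · have h3 := ((Real.hasDerivAt_sin s).mul_const (x j)).add ((Real.hasDerivAt_cos s).mul_const (x k))
    refine h3.congr_deriv ?_
    ring
  · exact hasDerivAt_const _ _

lemma rot_hd {j k : Fin 3} (hjk : j ≠ k) {f : V → ℝ} (hf : Differentiable ℝ f) (x : V) (s : ℝ) :
    HasDerivAt (fun s => f (rotc j k x s)) (Lr j k f (rotc j k x s)) s := by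
  have h1 := (hf (rotc j k x s)).hasFDerivAt.comp_hasDerivAt s (rotc_hd hjk x s)
  refine h1.congr_deriv ?_
  rw [fd_eq]
  unfold Lr
  have h2 : ∀ m, (if m = j then -(rotc j k x s k) else if m = k then rotc j k x s j else 0)
      * pd m f (rotc j k x s)
      = (if m = j then -(rotc j k x s k * pd j f (rotc j k x s)) else 0)
        + (if m = k then rotc j k x s j * pd k f (rotc j k x s) else 0) := by
    intro m
    by_cases h3 : m = j
    · subst h3
      simp [hjk]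
    · by_cases h4 : m = k
      · subst h4
        simp [h3]
      · simp [h3, h4]
  rw [Finset.sum_congr rfl fun m _ => h2 m, Finset.sum_add_distrib]
  simp
  ring

lemma rot_q2 {j k : Fin 3} (hjk : j ≠ k) (x : V) (s : ℝ) : q2 (rotc j k x s) = q2 x := by
  have hd : ∀ s, HasDerivAt (fun s => q2 (rotc j k x s)) 0 s := by
    intro s
    have h1 := rot_hd hjk ((q2_cd (n := 1)).differentiable (by norm_num)) x s
    refine h1.congr_deriv ?_
    unfold Lr
    rw [pd_q2, pd_q2]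
    ring
  have h2 := is_const_of_deriv_eq_zero (f := fun s => q2 (rotc j k x s))
    (fun s => (hd s).differentiableAt) (fun s => (hd s).deriv) s 0
  have h3 : q2 (rotc j k x s) = q2 (rotc j k x 0) := h2
  rw [h3, rotc_zero]

/-- The second derivative along a rotation at a maximum over a sphere. -/
lemma rot_max {j k : Fin 3} (hjk : j ≠ k) {f : V → ℝ} (hf : ContDiff ℝ ∞ f) {x : V}
    (hm : ∀ y, q2 y = q2 x → f y ≤ f x) : Lr j k (Lr j k f) x ≤ 0 := by
  have hL : ContDiff ℝ ∞ (Lr j k f) := by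
    unfold Lr
    exact ((cd_coord j).mul (sm_pd hf k)).sub ((cd_coord k).mul (sm_pd hf j))
  have h1 : deriv (fun s => f (rotc j k x s)) = fun s => Lr j k f (rotc j k x s) := by
    funext s
    exact (rot_hd hjk (hf.differentiable (by simp)) x s).deriv
  have h2 : deriv (fun s => Lr j k f (rotc j k x s)) 0 = Lr j k (Lr j k f) x := by
    rw [(rot_hd hjk (hL.differentiable (by simp)) x 0).deriv, rotc_zero]
  have h3 : ContDiff ℝ 2 (fun s => f (rotc j k x s)) :=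
    (hf.comp (rotc_cd j k x)).of_le (by norm_cast)
  have h4 : IsLocalMax (fun s => f (rotc j k x s)) 0 := by
    apply Filter.Eventually.of_forall
    intro s
    show f (rotc j k x s) ≤ f (rotc j k x 0)
    rw [rotc_zero]
    exact hm _ (rot_q2 hjk x s)
  have h5 := deriv2_nonpos h3 h4
  rw [h1, h2] at h5
  exact h5

lemma Lr2_eq {j k : Fin 3} (hjk : j ≠ k) {f : V → ℝ} (hf : ContDiff ℝ ∞ f) (x : V) :
    Lr j k (Lr j k f) x = x j * (x j * pd k (pd k f) x - pd j f x - x k * pd k (pd j f) x)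
      - x k * (pd k f x + x j * pd j (pd k f) x - x k * pd j (pd j f) x) := by
  have h1 : ∀ m, pd m (Lr j k f) x = (x j * pd m (pd k f) x + (Pi.single m 1 : V) j * pd k f x)
      - (x k * pd m (pd j f) x + (Pi.single m 1 : V) k * pd j f x) := by
    intro m
    have e : Lr j k f = fun y => (fun z : V => z j) y * pd k f y - (fun z : V => z k) y * pd j f y := rfl
    rw [e, pd_sub' ((cd_coord j).mul (sm_pd hf k)) ((cd_coord k).mul (sm_pd hf j))]
    have a1 := pd_mul' (cd_coord j) (sm_pd hf k) m x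
    have a2 := pd_mul' (cd_coord k) (sm_pd hf j) m x
    rw [pd_coord] at a1 a2
    show pd m (fun y : V => y j * pd k f y) x - pd m (fun y : V => y k * pd j f y) x = _
    rw [a1, a2]
  show x j * pd k (Lr j k f) x - x k * pd j (Lr j k f) x = _
  rw [h1, h1]
  simp [hjk, Ne.symm hjk]
  ring

section
variable {w : V → V}

lemma pd_nsq (hw : ∀ i, ContDiff ℝ ∞ (fun y => w y i)) (j : Fin 3) :
    pd j (nsq w) = fun x => ∑ m, 2 * (w x m * pd j (fun y => w y m) x) := by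
  funext x
  have e : nsq w = fun y => ∑ m, w y m * w y m := by
    funext y
    unfold nsq
    exact Finset.sum_congr rfl fun m _ => by ring
  rw [e, congrFun (pd_sum' Finset.univ (f := fun m y => w y m * w y m)
    (fun m => (hw m).mul (hw m)) j) x]
  refine Finset.sum_congr rfl fun m _ => ?_
  rw [pd_mul' (hw m) (hw m) j x]
  ring

lemma pd2_nsq (hw : ∀ i, ContDiff ℝ ∞ (fun y => w y i)) (i j : Fin 3) (x : V) :
    pd i (pd j (nsq w)) x = ∑ m, 2 * (w x m * pd i (pd j (fun y => w y m)) x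
      + pd i (fun y => w y m) x * pd j (fun y => w y m) x) := by
  rw [pd_nsq hw j]
  have h0 : ∀ m, ContDiff ℝ ∞ (fun x => 2 * (w x m * pd j (fun y => w y m) x)) := fun m =>
    contDiff_const.mul ((hw m).mul (sm_pd (hw m) j))
  rw [congrFun (pd_sum' Finset.univ (f := fun m x => 2 * (w x m * pd j (fun y => w y m) x)) h0 i) x]
  refine Finset.sum_congr rfl fun m _ => ?_
  have h1 : pd i (fun x => 2 * (w x m * pd j (fun y => w y m) x)) x
      = 2 * pd i (fun x => w x m * pd j (fun y => w y m) x) x := by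
    have h2 : DifferentiableAt ℝ (fun x => w x m * pd j (fun y => w y m) x) x :=
      ((hw m).mul (sm_pd (hw m) j)).differentiable (by simp) x
    have h3 := h2.hasFDerivAt.const_mul 2
    have h4 : fderiv ℝ (fun x => 2 * (w x m * pd j (fun y => w y m) x)) x = _ := h3.fderiv
    show fderiv ℝ (fun x => 2 * (w x m * pd j (fun y => w y m) x)) x (Pi.single i 1) = _
    rw [h4]
    rfl
  rw [h1, pd_mul' (hw m) (sm_pd (hw m) j) i x]

lemma nsq_sm (hw : ∀ i, ContDiff ℝ ∞ (fun y => w y i)) : ContDiff ℝ ∞ (nsq w) := by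
  unfold nsq
  exact ContDiff.sum fun i _ => (hw i).pow 2

/-- Derivatives of a vanishing function vanish. -/
lemma pd_of_zero {f : V → ℝ} (h : ∀ x, f x = 0) (j : Fin 3) (x : V) : pd j f x = 0 := by
  have : f = fun _ => 0 := funext h
  rw [this, pd_const']

lemma dv_pd (hw : ∀ i, ContDiff ℝ ∞ (fun y => w y i)) (hd : ∀ x, W221.NS.dv w x = 0) (m : Fin 3)
    (x : V) : pd m (pd 0 (fun y => w y 0)) x + pd m (pd 1 (fun y => w y 1)) x
      + pd m (pd 2 (fun y => w y 2)) x = 0 := by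
  have h := pd_of_zero hd m x
  have e : W221.NS.dv w = fun x => ∑ i, pd i (fun y => w y i) x := rfl
  rw [e, congrFun (pd_sum' Finset.univ (f := fun i => pd i (fun y => w y i))
    (fun i => sm_pd (hw i) i) m) x, Fin.sum_univ_three] at h
  exact h

/-- Fields which are tangential to the spheres, with tangential vorticity. -/
theorem liou_sphere (hw : ∀ i, ContDiff ℝ ∞ (fun y => w y i)) (hd : ∀ x, W221.NS.dv w x = 0)
    (h1 : ∀ x : V, ∑ i, x i * w x i = 0)
    (h2 : ∀ x : V, x 0 * Om 1 2 w x + x 1 * Om 2 0 w x + x 2 * Om 0 1 w x = 0) :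
    ∀ x, w x = 0 := by
  have hc := cd_coord
  -- the first derivatives
  have r1 : ∀ m x, w x m + (x 0 * pd m (fun y => w y 0) x + x 1 * pd m (fun y => w y 1) x
      + x 2 * pd m (fun y => w y 2) x) = 0 := by
    intro m x
    have h := pd_of_zero h1 m x
    rw [congrFun (pd_sum' Finset.univ (f := fun i (y : V) => y i * w y i)
      (fun i => (hc i).mul (hw i)) m) x] at h
    have h3 : ∀ i, pd m (fun y : V => y i * w y i) x
        = x i * pd m (fun y => w y i) x + (Pi.single m 1 : V) i * w x i := by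
      intro i
      have := pd_mul' (hc i) (hw i) m x
      rw [pd_coord] at this
      exact this
    simp only [h3] at h
    rw [Finset.sum_add_distrib] at h
    have h4 : ∑ i, (Pi.single m 1 : V) i * w x i = w x m := by
      simp [Pi.single_apply]
    rw [h4, Fin.sum_univ_three] at h
    linarith
  have r2 : ∀ l m x, pd l (fun y => w y m) x + pd m (fun y => w y l) x
      + (x 0 * pd l (pd m (fun y => w y 0)) x + x 1 * pd l (pd m (fun y => w y 1)) x
        + x 2 * pd l (pd m (fun y => w y 2)) x) = 0 := by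
    intro l m x
    have h0 : ∀ x : V, w x m + ∑ k, x k * pd m (fun y => w y k) x = 0 := by
      intro x
      rw [Fin.sum_univ_three]
      exact r1 m x
    have h := pd_of_zero h0 l x
    have hs : ∀ k, ContDiff ℝ ∞ (fun x : V => x k * pd m (fun y => w y k) x) := fun k =>
      (hc k).mul (sm_pd (hw k) m)
    rw [pd_add' (hw m) (ContDiff.sum fun k _ => hs k)] at h
    simp only at h
    rw [congrFun (pd_sum' Finset.univ (f := fun k (x : V) => x k * pd m (fun y => w y k) x) hs l) x]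
      at h
    have h3 : ∀ k, pd l (fun x : V => x k * pd m (fun y => w y k) x) x
        = x k * pd l (pd m (fun y => w y k)) x + (Pi.single l 1 : V) k * pd m (fun y => w y k) x := by
      intro k
      have := pd_mul' (hc k) (sm_pd (hw k) m) l x
      rw [pd_coord] at this
      exact this
    simp only [h3] at h
    rw [Finset.sum_add_distrib] at h
    have h4 : ∑ k, (Pi.single l 1 : V) k * pd m (fun y => w y k) x = pd m (fun y => w y l) x := by
      simp [Pi.single_apply]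
    rw [h4, Fin.sum_univ_three] at h
    linarith
  have e : ∀ m x, (if m = 0 then Om 1 2 w x else if m = 1 then Om 2 0 w x else Om 0 1 w x)
      + (x 0 * (pd m (pd 1 (fun y => w y 2)) x - pd m (pd 2 (fun y => w y 1)) x)
        + x 1 * (pd m (pd 2 (fun y => w y 0)) x - pd m (pd 0 (fun y => w y 2)) x)
        + x 2 * (pd m (pd 0 (fun y => w y 1)) x - pd m (pd 1 (fun y => w y 0)) x)) = 0 := by
    intro m x
    have h := pd_of_zero h2 m x
    have o12 := om_sm hw 1 2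
    have o20 := om_sm hw 2 0
    have o01 := om_sm hw 0 1
    rw [pd_add' (((hc 0).mul o12).add ((hc 1).mul o20)) ((hc 2).mul o01)] at h
    simp only at h
    rw [pd_add' ((hc 0).mul o12) ((hc 1).mul o20)] at h
    simp only at h
    have a1 := pd_mul' (hc 0) o12 m x
    have a2 := pd_mul' (hc 1) o20 m x
    have a3 := pd_mul' (hc 2) o01 m x
    rw [pd_coord] at a1 a2 a3
    rw [a1, a2, a3] at h
    have b : ∀ i j, pd m (Om i j w) x = pd m (pd i (fun y => w y j)) x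
        - pd m (pd j (fun y => w y i)) x := by
      intro i j
      have : Om i j w = fun y => pd i (fun y => w y j) y - pd j (fun y => w y i) y := rfl
      rw [this, pd_sub' (sm_pd (hw j) i) (sm_pd (hw i) j)]
    rw [b, b, b] at h
    fin_cases m
    · simp at h ⊢
      linarith
    · simp at h ⊢
      linarith
    · simp at h ⊢
      linarith
  have hs : ∀ i j k x, pd i (pd j (fun y => w y k)) x = pd j (pd i (fun y => w y k)) x :=
    fun i j k x => congrFun (pd_comm (hw k) i j) x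
  have hF := nsq_sm hw
  -- away from the origin
  have main : ∀ x₀ : V, 0 < q2 x₀ → nsq w x₀ = 0 := by
    intro x₀ hx₀
    have hcomp : IsCompact {y : V | q2 y = q2 x₀} := by
      apply Metric.isCompact_of_isClosed_isBounded (isClosed_eq q2_cont continuous_const)
      rw [Metric.isBounded_iff_subset_closedBall 0]
      refine ⟨√(q2 x₀), fun y hy => ?_⟩
      rw [mem_closedBall, dist_zero_right]
      apply Real.le_sqrt_of_sq_le
      have hy' : q2 y = q2 x₀ := hy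
      rw [← hy']
      exact norm_sq_le_q2 y
    obtain ⟨x, hx, hmax⟩ := hcomp.exists_isMaxOn ⟨x₀, rfl⟩ hF.continuous.continuousOn
    have hx' : q2 x = q2 x₀ := hx
    have hm : ∀ y, q2 y = q2 x → nsq w y ≤ nsq w x := fun y hy =>
      hmax (show y ∈ {y : V | q2 y = q2 x₀} from hy.trans hx')
    have m0 := rot_max (j := 1) (k := 2) (by decide) hF hm
    have m1 := rot_max (j := 2) (k := 0) (by decide) hF hm
    have m2 := rot_max (j := 0) (k := 1) (by decide) hF hm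
    rw [Lr2_eq (by decide) hF] at m0 m1 m2
    have p1 : ∀ j, pd j (nsq w) x = ∑ m, 2 * (w x m * pd j (fun y => w y m) x) := fun j =>
      congrFun (pd_nsq hw j) x
    rw [p1, p1, pd2_nsq hw, pd2_nsq hw, pd2_nsq hw, pd2_nsq hw] at m0 m1 m2
    have key := alg_sphere x (fun k => w x k) (fun i j => pd i (fun y => w y j) x)
      (fun i j k => pd i (pd j (fun y => w y k)) x) (fun i j k => hs i j k x)
      (by have := h1 x
          rw [Fin.sum_univ_three] at this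
          exact this) (fun m => r1 m x) (fun l m => r2 l m x)
      (by have := hd x
          unfold W221.NS.dv at this
          rw [Fin.sum_univ_three] at this
          exact this) (fun m => dv_pd hw hd m x)
      (by have := e 0 x
          simp [Om] at this
          linarith)
      (by have := e 1 x
          simp [Om] at this
          linarith)
      (by have := e 2 x
          simp [Om] at this
          linarith)
      (by
        simp only [Fin.sum_univ_three] at m0 m1 m2 ⊢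
        simp only [hs 1 0 _ x, hs 2 0 _ x, hs 2 1 _ x] at m0 m1 m2 ⊢
        nlinarith)
    have hq : q2 x = x 0 ^ 2 + x 1 ^ 2 + x 2 ^ 2 := by
      unfold q2
      rw [Fin.sum_univ_three]
    have hn : nsq w x = w x 0 ^ 2 + w x 1 ^ 2 + w x 2 ^ 2 := by
      unfold nsq
      rw [Fin.sum_univ_three]
    rw [← hq] at key
    have h3 : nsq w x = 0 := by
      rw [hn]
      rcases mul_eq_zero.1 key with h | h
      · rw [hx'] at h
        exact absurd h hx₀.ne'
      · exact h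
    have h4 := hm x₀ hx'.symm
    have h5 : 0 ≤ nsq w x₀ := Finset.sum_nonneg fun _ _ => sq_nonneg _
    linarith
  have hz : ∀ x, nsq w x = 0 → w x = 0 := by
    intro x hx
    funext i
    have h3 : w x i ^ 2 ≤ nsq w x :=
      Finset.single_le_sum (f := fun i => w x i ^ 2) (fun _ _ => sq_nonneg _) (Finset.mem_univ i)
    rw [hx] at h3
    exact pow_eq_zero_iff (two_ne_zero) |>.1 (le_antisymm h3 (sq_nonneg _))
  intro x
  apply hz
  by_cases hx : 0 < q2 x
  · exact main x hx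
  · -- the origin
    have hx0 : x = 0 := by
      funext i
      have h3 := sq_le_q2 x i
      exact pow_eq_zero_iff (two_ne_zero) |>.1 (le_antisymm (by linarith) (sq_nonneg _))
    rw [hx0]
    have h4 : Tendsto (fun s : ℝ => nsq w (s • (Pi.single 0 1 : V))) (𝓝[>] 0) (𝓝 (nsq w 0)) := by
      have h5 : Continuous fun s : ℝ => nsq w (s • (Pi.single 0 1 : V)) :=
        hF.continuous.comp (by fun_prop)
      have h6 := h5.tendsto 0
      rw [zero_smul] at h6
      exact h6.mono_left nhdsWithin_le_nhds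
    have h5 : ∀ᶠ s : ℝ in 𝓝[>] 0, nsq w (s • (Pi.single 0 1 : V)) = 0 := by
      filter_upwards [self_mem_nhdsWithin] with s hs
      apply main
      have hs' : 0 < s := hs
      have h6 := sq_le_q2 (s • (Pi.single 0 1 : V)) 0
      simp at h6
      have : 0 < s ^ 2 := by positivity
      linarith
    exact (tendsto_nhds_unique h4 ((tendsto_congr' h5).2 tendsto_const_nhds))

end

end Pool.Agent.H305.TI
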