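import Pool.Agent.H305.TI.Lio

/-!
Static Liouville theorem: divergence free fields which are tangential, with tangential vorticity,
to a family of planes.
-/

set_option autoImplicit false

open MeasureTheory Set Metric Filter Topology
open scoped ContDiff

namespace Pool.Agent.H305.TI

open H459R3.NS W221.NS Pool.Agent.V1183.PM
open Pool.Agent.TH305.DR (Om bb SS SS_zero SS_succ SS_one SS_nonneg SV ST ST_nonneg SV_nonneg om_sm
  pd_sum' pd_sub' pd_add' pd_neg' pd_const')
open Pool.Agent.W583.MD (sm_pd cs_pd pd_mul')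
open Pool.Agent.W22.ME.TD (pd_comm)

lemma pd_cmul {f : V → ℝ} (hf : ContDiff ℝ ∞ f) (c : ℝ) (j : Fin 3) (x : V) :
    pd j (fun y => c * f y) x = c * pd j f x := by
  have h2 := ((hf.differentiable (by simp)) x).hasFDerivAt.const_mul c
  have h4 : fderiv ℝ (fun x => c * f x) x = _ := h2.fderiv
  show fderiv ℝ (fun x => c * f x) x (Pi.single j 1) = _
  rw [h4]
  rfl

lemma pd_cmul' {f : V → ℝ} (hf : ContDiff ℝ ∞ f) (c : ℝ) (j : Fin 3) :
    pd j (fun y => c * f y) = fun x => c * pd j f x := funext fun x => pd_cmul hf c j x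

/-- The second derivative along a line at a local maximum. -/
lemma line_max {f : V → ℝ} (hf : ContDiff ℝ ∞ f) (x d : V)
    (hm : IsLocalMax (fun s : ℝ => f (x + s • d)) 0) :
    ∑ l, ∑ m, d m * (d l * pd l (pd m f) x) ≤ 0 := by
  have hl : ∀ (g : V → ℝ), ContDiff ℝ ∞ g → ∀ s : ℝ, HasDerivAt (fun s : ℝ => g (x + s • d))
      (∑ m, d m * pd m g (x + s • d)) s := by
    intro g hg s
    have h1 : HasDerivAt (fun s : ℝ => x + s • d) d s := by
      have := ((hasDerivAt_id s).smul_const d).const_add x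
      simpa using this
    have h2 := ((hg.differentiable (by simp)) (x + s • d)).hasFDerivAt.comp_hasDerivAt s h1
    rw [fd_eq] at h2
    exact h2
  have h1 : deriv (fun s : ℝ => f (x + s • d)) = fun s => ∑ m, d m * pd m f (x + s • d) := by
    funext s
    exact (hl f hf s).deriv
  have hg : ContDiff ℝ ∞ (fun y => ∑ m, d m * pd m f y) :=
    ContDiff.sum fun m _ => contDiff_const.mul (sm_pd hf m)
  have h2 := (hl _ hg 0).deriv
  have h3 : ContDiff ℝ 2 (fun s : ℝ => f (x + s • d)) := by
    have : ContDiff ℝ ∞ (fun s : ℝ => x + s • d) := by fun_prop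
    exact (hf.comp this).of_le (by norm_cast)
  have h5 := deriv2_nonpos h3 hm
  rw [h1, h2, zero_smul, add_zero] at h5
  refine le_trans (le_of_eq ?_) h5
  refine Finset.sum_congr rfl fun l _ => ?_
  rw [congrFun (pd_sum' Finset.univ (f := fun m y => d m * pd m f y)
    (fun m => contDiff_const.mul (sm_pd hf m)) l) x, Finset.mul_sum]
  refine Finset.sum_congr rfl fun m _ => ?_
  rw [pd_cmul (sm_pd hf m)]
  ring

/-- Functions which are harmonic on the planes orthogonal to `b` and decay. -/
lemma plane_zero {f : V → ℝ} (hf : ContDiff ℝ ∞ f) {b : V} (hb : b ≠ 0) {M : ℝ}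
    (hM : ∀ x, |f x| * ‖x‖ ≤ M)
    (hh : ∀ x, (b 0 ^ 2 + b 1 ^ 2 + b 2 ^ 2) * (pd 0 (pd 0 f) x + pd 1 (pd 1 f) x + pd 2 (pd 2 f) x)
      - ∑ i, ∑ j, b i * b j * pd i (pd j f) x = 0) (x₀ : V) : f x₀ ≤ 0 := by
  by_contra hcon
  rw [not_le] at hcon
  have hM0 : 0 ≤ M := (mul_nonneg (abs_nonneg _) (norm_nonneg _)).trans (hM 0)
  obtain ⟨β, hβ⟩ : ∃ β, β = b 0 ^ 2 + b 1 ^ 2 + b 2 ^ 2 := ⟨_, rfl⟩
  have hβ0 : 0 < β := by
    by_contra hc
    rw [not_lt] at hc
    apply hb
    funext i
    have p0 := sq_nonneg (b 0)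
    have p1 := sq_nonneg (b 1)
    have p2 := sq_nonneg (b 2)
    have hz : b i ^ 2 ≤ 0 := by
      fin_cases i
      · show b 0 ^ 2 ≤ 0
        linarith
      · show b 1 ^ 2 ≤ 0
        linarith
      · show b 2 ^ 2 ≤ 0
        linarith
    exact pow_eq_zero_iff (two_ne_zero) |>.1 (le_antisymm hz (sq_nonneg _))
  -- the radius
  obtain ⟨R, hR⟩ : ∃ R, R = 2 * (‖x₀‖ + 4 * M / f x₀ + 1) := ⟨_, rfl⟩
  have hR0 : 0 < R := by rw [hR]; positivity
  obtain ⟨ε, hε⟩ : ∃ ε, ε = f x₀ / (4 * R ^ 2) := ⟨_, rfl⟩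
  have hε0 : 0 < ε := by rw [hε]; positivity
  obtain ⟨G, hG⟩ : ∃ G : V → ℝ, G = fun y => f y + ε * q2 (y - x₀) := ⟨_, rfl⟩
  have hq : ContDiff ℝ ∞ (fun y : V => q2 (y - x₀)) := q2_cd.comp (by fun_prop)
  have hGs : ContDiff ℝ ∞ G := by
    rw [hG]
    exact hf.add (contDiff_const.mul hq)
  obtain ⟨D, hD⟩ : ∃ D : Set V, D = {y | ∑ i, b i * (y i - x₀ i) = 0} ∩ {y | q2 (y - x₀) ≤ R ^ 2} :=
    ⟨_, rfl⟩
  have hqc : Continuous fun y : V => q2 (y - x₀) := hq.continuous
  have hDc : IsCompact D := by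
    apply Metric.isCompact_of_isClosed_isBounded
    · rw [hD]
      apply IsClosed.inter (isClosed_eq (by fun_prop) continuous_const)
      exact isClosed_le hqc continuous_const
    · rw [Metric.isBounded_iff_subset_closedBall x₀]
      refine ⟨R, fun y hy => ?_⟩
      rw [hD] at hy
      rw [mem_closedBall, dist_eq_norm]
      have h1 : ‖y - x₀‖ ^ 2 ≤ R ^ 2 := (norm_sq_le_q2 _).trans hy.2
      exact abs_le_of_sq_le_sq' h1 hR0.le |>.2
  have hx₀ : x₀ ∈ D := by
    rw [hD]
    refine ⟨?_, ?_⟩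
    · show ∑ i, b i * (x₀ i - x₀ i) = 0
      simp
    · show q2 (x₀ - x₀) ≤ R ^ 2
      rw [sub_self, q2_zero]
      positivity
  obtain ⟨y, hy, hmax⟩ := hDc.exists_isMaxOn ⟨x₀, hx₀⟩ hGs.continuous.continuousOn
  have hG0 : G x₀ = f x₀ := by
    rw [hG]
    simp [q2_zero]
  have hle : f x₀ ≤ G y := by
    rw [← hG0]
    exact hmax hx₀
  rw [hD] at hy
  obtain ⟨hy1, hy2⟩ := hy
  have hy1 : ∑ i, b i * (y i - x₀ i) = 0 := hy1
  have hy2 : q2 (y - x₀) ≤ R ^ 2 := hy2
  rcases eq_or_lt_of_le hy2 with h | h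
  · -- on the boundary
    have h1 : G y = f y + ε * R ^ 2 := by
      rw [hG]
      show f y + ε * q2 (y - x₀) = _
      rw [h]
    have h2 : ε * R ^ 2 = f x₀ / 4 := by
      rw [hε]
      field_simp
    have h3 : R / 2 ≤ ‖y - x₀‖ := by
      have h4 := q2_le_norm (y - x₀)
      rw [h] at h4
      have h5 : (R / 2) ^ 2 ≤ ‖y - x₀‖ ^ 2 := by nlinarith
      exact abs_le_of_sq_le_sq' h5 (norm_nonneg _) |>.2
    have h4 : ‖y - x₀‖ ≤ ‖y‖ + ‖x₀‖ := norm_sub_le _ _
    have h5 : 4 * M / f x₀ + 1 ≤ ‖y‖ := by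
      have : R / 2 = ‖x₀‖ + 4 * M / f x₀ + 1 := by rw [hR]; ring
      linarith
    have h6 := hM y
    have h7 : |f y| ≤ f x₀ / 4 := by
      by_contra hc
      rw [not_le] at hc
      have h8 : f x₀ / 4 * (4 * M / f x₀ + 1) < |f y| * ‖y‖ := by
        have h9 : 0 < 4 * M / f x₀ + 1 := by positivity
        calc f x₀ / 4 * (4 * M / f x₀ + 1) < |f y| * (4 * M / f x₀ + 1) :=
              mul_lt_mul_of_pos_right hc h9
          _ ≤ |f y| * ‖y‖ := mul_le_mul_of_nonneg_left h5 (abs_nonneg _)
      have h9 : f x₀ / 4 * (4 * M / f x₀ + 1) = M + f x₀ / 4 := by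
        field_simp
      linarith
    have h8 := le_abs_self (f y)
    linarith
  · -- in the interior
    have hder : ∀ j : Fin 3, ∑ l, ∑ m, (β * (Pi.single j 1 : V) m - b j * b m)
        * ((β * (Pi.single j 1 : V) l - b j * b l) * pd l (pd m G) y) ≤ 0 := by
      intro j
      obtain ⟨d, hd⟩ : ∃ d : V, d = fun m => β * (Pi.single j 1 : V) m - b j * b m := ⟨_, rfl⟩
      have hbd : ∑ i, b i * d i = 0 := by
        rw [hd]
        simp only [Fin.sum_univ_three]
        fin_cases j
        · simp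
          rw [hβ]
          ring
        · simp
          rw [hβ]
          ring
        · simp
          rw [hβ]
          ring
      have hloc : IsLocalMax (fun s : ℝ => G (y + s • d)) 0 := by
        have h1 : ∀ᶠ s : ℝ in 𝓝 0, q2 (y + s • d - x₀) < R ^ 2 := by
          have hc : Continuous fun s : ℝ => q2 (y + s • d - x₀) := q2_cont.comp (by fun_prop)
          have h2 : q2 (y + (0 : ℝ) • d - x₀) < R ^ 2 := by
            rw [zero_smul, add_zero]
            exact h
          exact hc.continuousAt.eventually (gt_mem_nhds h2)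
        filter_upwards [h1] with s hs
        show G (y + s • d) ≤ G (y + (0 : ℝ) • d)
        rw [zero_smul, add_zero]
        apply hmax
        rw [hD]
        refine ⟨?_, hs.le⟩
        show ∑ i, b i * ((y + s • d) i - x₀ i) = 0
        have e : ∀ i, b i * ((y + s • d) i - x₀ i) = b i * (y i - x₀ i) + s * (b i * d i) := by
          intro i
          simp only [Pi.add_apply, Pi.smul_apply, smul_eq_mul]
          ring
        simp only [e]
        rw [Finset.sum_add_distrib, ← Finset.mul_sum, hy1, hbd]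
        ring
      have h1 := line_max hGs y d hloc
      rw [hd] at h1
      exact h1
    have hpd : ∀ l m, pd l (pd m G) y = pd l (pd m f) y + ε * (2 * (Pi.single l 1 : V) m) := by
      intro l m
      have e1 : pd m G = fun z => pd m f z + ε * (2 * (z m - x₀ m)) := by
        funext z
        rw [hG, pd_add' hf (contDiff_const.mul hq)]
        simp only
        rw [pd_cmul hq]
        have e2 : (fun y : V => q2 (y - x₀)) = fun y => q2 (-x₀ + y) := by
          funext y
          congr 1
          abel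
        rw [e2, pd_shift, pd_q2]
        simp only [Pi.add_apply, Pi.neg_apply]
        ring
      rw [e1, pd_add' (sm_pd hf m) (contDiff_const.mul (contDiff_const.mul ((cd_coord m).sub
        contDiff_const)))]
      simp only
      rw [pd_cmul (contDiff_const.mul ((cd_coord m).sub contDiff_const)),
        pd_cmul ((cd_coord m).sub contDiff_const), pd_sub' (cd_coord m) contDiff_const]
      simp only
      rw [pd_coord, pd_const']
      ring
    have k0 := hder 0
    have k1 := hder 1
    have k2 := hder 2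
    have hh' := hh y
    rw [← hβ] at hh'
    have hs : ∀ l m, pd l (pd m f) y = pd m (pd l f) y := fun l m => congrFun (pd_comm hf l m) y
    simp only [hpd, Fin.sum_univ_three] at k0 k1 k2 hh'
    simp at k0 k1 k2
    rw [hs 1 0, hs 2 0, hs 2 1] at k0 k1 k2 hh'
    have e3 : 0 < ε * (4 * β ^ 2) := by positivity
    have hh2 := congrArg (fun z => β * z) hh'
    simp only [mul_zero] at hh2
    rw [hβ] at k0 k1 k2 hh2 e3
    linarith

/-- Fields which are tangential to the planes orthogonal to `b`, with tangential vorticity. -/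
theorem liou_plane {w : V → V} {M : ℝ} {b : V} (hw : ∀ i, ContDiff ℝ ∞ (fun y => w y i))
    (hd : ∀ x, W221.NS.dv w x = 0) (hM : ∀ x, ‖w x‖ * ‖x‖ ≤ M) (hb : b ≠ 0)
    (h1 : ∀ x : V, ∑ i, b i * w x i = 0)
    (h2 : ∀ x : V, b 0 * Om 1 2 w x + b 1 * Om 2 0 w x + b 2 * Om 0 1 w x = 0) :
    ∀ x, w x = 0 := by
  have hs : ∀ i j k x, pd i (pd j (fun y => w y k)) x = pd j (pd i (fun y => w y k)) x :=
    fun i j k x => congrFun (pd_comm (hw k) i j) x
  have r1 : ∀ m x, b 0 * pd m (fun y => w y 0) x + b 1 * pd m (fun y => w y 1) x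
      + b 2 * pd m (fun y => w y 2) x = 0 := by
    intro m x
    have h := pd_of_zero h1 m x
    rw [congrFun (pd_sum' Finset.univ (f := fun i (y : V) => b i * w y i)
      (fun i => contDiff_const.mul (hw i)) m) x] at h
    simp only [pd_cmul (hw _)] at h
    rw [Fin.sum_univ_three] at h
    exact h
  have r2 : ∀ l m x, b 0 * pd l (pd m (fun y => w y 0)) x + b 1 * pd l (pd m (fun y => w y 1)) x
      + b 2 * pd l (pd m (fun y => w y 2)) x = 0 := by
    intro l m x
    have h0 : ∀ x : V, ∑ k, b k * pd m (fun y => w y k) x = 0 := by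
      intro x
      rw [Fin.sum_univ_three]
      exact r1 m x
    have h := pd_of_zero h0 l x
    rw [congrFun (pd_sum' Finset.univ (f := fun k (x : V) => b k * pd m (fun y => w y k) x)
      (fun k => contDiff_const.mul (sm_pd (hw k) m)) l) x] at h
    simp only [pd_cmul (sm_pd (hw _) m)] at h
    rw [Fin.sum_univ_three] at h
    exact h
  have e : ∀ m x, b 0 * (pd m (pd 1 (fun y => w y 2)) x - pd m (pd 2 (fun y => w y 1)) x)
        + b 1 * (pd m (pd 2 (fun y => w y 0)) x - pd m (pd 0 (fun y => w y 2)) x)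
        + b 2 * (pd m (pd 0 (fun y => w y 1)) x - pd m (pd 1 (fun y => w y 0)) x) = 0 := by
    intro m x
    have h := pd_of_zero h2 m x
    have o12 := om_sm hw 1 2
    have o20 := om_sm hw 2 0
    have o01 := om_sm hw 0 1
    rw [pd_add' ((contDiff_const.mul o12).add (contDiff_const.mul o20)) (contDiff_const.mul o01)] at h
    simp only at h
    rw [pd_add' (contDiff_const.mul o12) (contDiff_const.mul o20)] at h
    simp only at h
    rw [pd_cmul o12, pd_cmul o20, pd_cmul o01] at h
    have c : ∀ i j, pd m (Om i j w) x = pd m (pd i (fun y => w y j)) x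
        - pd m (pd j (fun y => w y i)) x := by
      intro i j
      have : Om i j w = fun y => pd i (fun y => w y j) y - pd j (fun y => w y i) y := rfl
      rw [this, pd_sub' (sm_pd (hw j) i) (sm_pd (hw i) j)]
    rw [c, c, c] at h
    exact h
  have hh : ∀ k x, (b 0 ^ 2 + b 1 ^ 2 + b 2 ^ 2) * (pd 0 (pd 0 (fun y => w y k)) x
      + pd 1 (pd 1 (fun y => w y k)) x + pd 2 (pd 2 (fun y => w y k)) x)
      - ∑ i, ∑ j, b i * b j * pd i (pd j (fun y => w y k)) x = 0 := fun k x =>
    alg_plane b (fun i j k => pd i (pd j (fun y => w y k)) x) (fun i j k => hs i j k x)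
      (fun l m => r2 l m x) (fun m => dv_pd hw hd m x) (fun q => e q x) k
  intro x
  funext k
  have hMk : ∀ x, |w x k| * ‖x‖ ≤ M := fun x =>
    (mul_le_mul_of_nonneg_right (norm_le_pi_norm (w x) k) (norm_nonneg _)).trans (hM x)
  have k1 := plane_zero (hw k) hb hMk (hh k) x
  have k2 := plane_zero (f := fun y => - w y k) (hw k).neg hb (fun x => by rw [abs_neg]; exact hMk x)
    (fun x => by
      have h := hh k x
      have hp : ∀ j, pd j (fun y => - w y k) = fun x => - pd j (fun y => w y k) x := fun j =>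
        pd_neg' _ j
      have hp2 : ∀ i j, pd i (pd j (fun y => - w y k)) x = - pd i (pd j (fun y => w y k)) x := by
        intro i j
        rw [hp j, pd_neg']
      simp only [hp2]
      simp only [Fin.sum_univ_three] at h ⊢
      linarith) x
  show w x k = 0
  linarith

end Pool.Agent.H305.TI
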