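import Pool.Agent.H305.TI.MonoBox

/-!
Singularities of type I: no directional derivative of a component of the velocity has a sign.
-/

set_option autoImplicit false

open MeasureTheory Set Metric Filter Topology
open scoped ContDiff ENNReal

namespace Pool.Agent.H305.TI

open H459R3.NS W221.NS Pool.Agent.V1183.PM
open Pool.Agent.TH305.DR (Om Cut exists_cut)
open Pool.Agent.Results.MP_6bf1e5_an.PressureMonotone (TypeI Reg tg reg_of)

/-- The theorem in terms of long regions. -/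
theorem entry_pos {ν M : ℝ} (hν : 0 < ν) (hM : 0 < M) : ∃ ε : ℝ, 0 < ε ∧ ε ≤ 1 ∧
    ∀ (T ρ : ℝ) (x₀ : V) (u : ℝ → V → V) (p : ℝ → V → ℝ), TypeI ν M T ρ x₀ u p → ¬ Reg T x₀ u →
      ∀ r : ℝ, 0 < r → r ≤ ε * ρ → r ^ 2 ≤ ε * (ν * T) →
        ∀ (f : V) (e : ℝ → V), ∑ i, f i ^ 2 = 1 → (∀ t, ∑ i, e t i ^ 2 = 1) →
          ENNReal.ofReal (ε * r ^ 3) < ∫⁻ t in Ioo (T - r ^ 2 / (ε * ν)) (T - ε * r ^ 2 / ν),
            ∫⁻ x in {x : V | ∑ i, (x i - x₀ i) ^ 2 < (r / ε) ^ 2},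
              ENNReal.ofReal (-(ent (e t) f (u t) x)) := by
  by_contra hcon
  push Not at hcon
  have hpos : ∀ n : ℕ, (0 : ℝ) < 1 / (n + 1) := fun n => by positivity
  have hle1 : ∀ n : ℕ, (1 : ℝ) / (n + 1) ≤ 1 := fun n => by
    rw [div_le_one (by positivity)]
    have : (0 : ℝ) ≤ n := Nat.cast_nonneg n
    linarith
  choose T ρ x₀ u p hTI hsg r hr hrρ hrT f e hf he hint using fun n : ℕ => hcon _ (hpos n) (hle1 n)
  have hr2 : ∀ n : ℕ, ((n : ℝ) + 1) * r n ≤ ρ n := by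
    intro n
    have := hrρ n
    rw [div_mul_eq_mul_div, one_mul, le_div_iff₀ (by positivity)] at this
    linarith
  have hrT2 : ∀ n : ℕ, ((n : ℝ) + 1) * r n ^ 2 ≤ ν * T n := by
    intro n
    have := hrT n
    rw [div_mul_eq_mul_div, one_mul, le_div_iff₀ (by positivity)] at this
    linarith
  have hρ0 : ∀ n, 0 < ρ n := by
    intro n
    have h1 := hr n
    have h2 : 0 < ((n : ℝ) + 1) * r n := by positivity
    linarith [hr2 n]
  have hcut := fun n => exists_cut (show 0 < ρ n / 2 by linarith [hρ0 n])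
      (show ρ n / 2 < 3 * ρ n / 4 by linarith [hρ0 n])
  choose N χ _ hc using hcut
  have hRs : Rs ν M T ρ r x₀ u p χ N := ⟨hν, hM, hTI, hr, hr2, hrT2, hsg, hc⟩
  have hsq := hRs.sq
  obtain ⟨M', hM'⟩ : ∃ M', M' = ν⁻¹ * (1 + √ν) * M := ⟨_, rfl⟩
  rw [← hM'] at hsq
  have hM'0 : 0 < M' := by rw [hM']; positivity
  have hU : ((hyperfilter ℕ : Ultrafilter ℕ) : Filter ℕ) ≤ atTop := Nat.hyperfilter_le_atTop
  obtain ⟨U, hUd⟩ : ∃ U : Ultrafilter ℕ, U = hyperfilter ℕ := ⟨_, rfl⟩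
  rw [← hUd] at hU
  have hanc := hsq.anc hM'0 hU
  obtain ⟨q, K, z, hq, hq1, hK, hz, hnd⟩ := Sq.nd hM'0 hU
  have hND := hnd hsq (fun n => hRs.sing n)
  -- the limit of the directions
  have hmem : ∀ n, f n ∈ closedBall (0 : V) 1 := by
    intro n
    rw [mem_closedBall, dist_zero_right, pi_norm_le_iff_of_nonneg zero_le_one]
    intro i
    exact abs_le_one_of_sq (hf n) i
  obtain ⟨f₀, -, hf₀⟩ := ul_compact (U := U) (isCompact_closedBall (0 : V) 1)
    (Eventually.of_forall hmem)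
  have hfi : ∀ i, Tendsto (fun n => f n i) U (𝓝 (f₀ i)) := fun i =>
    ((continuous_apply i).tendsto _).comp hf₀
  have hne : f₀ ≠ 0 := by
    intro h0
    have h1 : Tendsto (fun n => ∑ i, f n i ^ 2) U (𝓝 (∑ i, f₀ i ^ 2)) :=
      tendsto_finsetSum _ fun i _ => (hfi i).pow 2
    simp only [hf] at h1
    have h2 := tendsto_nhds_unique h1 tendsto_const_nhds
    rw [h0] at h2
    simp at h2
  have hcomp : ∀ t < 0, ∀ x, ∑ i, f₀ i * vlim U (tmR ν T r) (ru ν r x₀ u χ) t x i = 0 := by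
    intro t₀ ht₀
    by_contra hbad
    have hneg : ∀ e : V, ∑ i, e i ^ 2 = 1 → ∃ x, ent e f₀ (vlim U (tmR ν T r) (ru ν r x₀ u χ) t₀) x < 0 := by
      intro e he
      by_contra hno
      push Not at hno
      have he0 : e ≠ 0 := by
        rintro rfl
        simp at he
      exact hbad (hanc.slice he0 ht₀ hno)
    obtain ⟨δ, κ, R, hδ, hκ, hκ1, hκ2, hR, hbox⟩ := hsq.entry_box hM'0 hU hf hfi ht₀ hneg
    -- a large index
    obtain ⟨A, hA⟩ : ∃ A : ℝ, A = |t₀| + 3 * R + 10 + 2 / |t₀| + 1 / (δ * (2 * κ) ^ 3 * (2 * κ)) :=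
      ⟨_, rfl⟩
    have ht₀' : 0 < |t₀| := abs_pos.2 ht₀.ne
    have hc0 : 0 < δ * (2 * κ) ^ 3 * (2 * κ) := by positivity
    have hA1 : |t₀| + 3 * R + 10 ≤ A := by
      rw [hA]
      have : 0 ≤ 2 / |t₀| := by positivity
      have : 0 ≤ 1 / (δ * (2 * κ) ^ 3 * (2 * κ)) := by positivity
      linarith
    have hA2 : 2 / |t₀| < A := by
      rw [hA]
      have : 0 ≤ 1 / (δ * (2 * κ) ^ 3 * (2 * κ)) := by positivity
      linarith
    have hA3 : 1 / (δ * (2 * κ) ^ 3 * (2 * κ)) < A := by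
      rw [hA]
      have : 0 ≤ 2 / |t₀| := by positivity
      linarith
    obtain ⟨n, hn1, hn2, hn3, hn4⟩ := ((hbox κ hκ le_rfl).and (hU (hRs.ev A (R + 2)))).exists
    have hrn := hr n
    have hr2n : 0 < r n ^ 2 := by positivity
    -- the box in the original variables
    have hG : ∀ τ ∈ Icc (T n + r n ^ 2 * t₀ / ν - κ * r n ^ 2 / ν)
        (T n + r n ^ 2 * t₀ / ν + κ * r n ^ 2 / ν),
          (T n - r n ^ 2 / (1 / (n + 1) * ν) < τ ∧ τ < T n - 1 / (n + 1) * r n ^ 2 / ν) ∧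
          ∃ z₀ : V, ∀ x ∈ ball z₀ (r n * κ), ent (e n τ) (f n) (u n τ) x ≤ -(δ * ν / r n ^ 2) ∧
              ∑ i, (x i - x₀ n i) ^ 2 < (r n / (1 / (n + 1))) ^ 2 := by
      intro τ hτ
      have habs : |t₀| = -t₀ := abs_of_neg ht₀
      obtain ⟨t, ht, -, -, hτe, -⟩ := hRs.pt n (y₀ := 0) (x := x₀ n) hτ (by
        rw [smul_zero, add_zero]
        exact mem_ball_self (by positivity))
      have ht1 : t < 0 := by linarith [ht.2]
      have ht2 : -A ≤ t := by linarith [ht.1]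
      have ht3 : -((n : ℝ) + 1) < t := by linarith [ht.1]
      have ht4 : t < -(1 / ((n : ℝ) + 1)) := by
        have h1 : 1 / ((n : ℝ) + 1) < |t₀| / 2 := by
          rw [div_lt_iff₀ (by positivity)]
          rw [div_lt_iff₀ ht₀'] at hA2
          nlinarith
        linarith [ht.2]
      refine ⟨⟨?_, ?_⟩, ?_⟩
      · have e3 : r n ^ 2 / (1 / ((n : ℝ) + 1) * ν) = r n ^ 2 / ν * (n + 1) := by
          field_simp
        have e4 : r n ^ 2 * t / ν = r n ^ 2 / ν * t := by ring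
        rw [hτe, e3, e4]
        have : 0 < r n ^ 2 / ν := by positivity
        nlinarith
      · have e3 : 1 / ((n : ℝ) + 1) * r n ^ 2 / ν = r n ^ 2 / ν * (1 / ((n : ℝ) + 1)) := by ring
        have e4 : r n ^ 2 * t / ν = r n ^ 2 / ν * t := by ring
        rw [hτe, e3, e4]
        have : 0 < r n ^ 2 / ν := by positivity
        nlinarith
      obtain ⟨y₀, hy₀, hbx⟩ := hn1 t ht (e n τ) (he n τ)
      refine ⟨x₀ n + r n • y₀, fun x hx => ?_⟩
      obtain ⟨t', ht', y, hy, hτe', hxe⟩ := hRs.pt n hτ hx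
      have htt : t' = t := by
        have h1 : T n + r n ^ 2 * t' / ν = T n + r n ^ 2 * t / ν := by rw [← hτe', ← hτe]
        have h2 : r n ^ 2 * t' / ν = r n ^ 2 * t / ν := by linarith
        rw [div_left_inj' hν.ne'] at h2
        exact mul_left_cancel₀ hr2n.ne' h2
      subst htt
      have hy1 : ‖y‖ < R + 1 := by
        rw [mem_ball, dist_eq_norm] at hy
        calc ‖y‖ = ‖(y - y₀) + y₀‖ := by congr 1; abel
          _ ≤ ‖y - y₀‖ + ‖y₀‖ := norm_add_le _ _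
          _ < _ := by linarith
      have hy2 : y ∈ ball (0 : V) (R + 2) := by
        rw [mem_ball, dist_zero_right]
        linarith
      have hgr := fun i j => hRs.grad (hn3 y hy2) (hn4 t' ht2 ht1) i j
      have hent : ent (e n τ) (f n) (ru ν r x₀ u χ n (tmR ν T r n + t')) y
          = r n ^ 2 / ν * ent (e n τ) (f n) (u n τ) x := by
        unfold ent
        simp only [hgr]
        rw [← hτe, ← hxe]
        simp only [Finset.mul_sum]
        refine Finset.sum_congr rfl fun j _ => Finset.sum_congr rfl fun i _ => ?_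
        ring
      have h1 := hbx y hy
      rw [hent] at h1
      refine ⟨?_, ?_⟩
      · have e1 : r n ^ 2 / ν * ent (e n τ) (f n) (u n τ) x
            = (ent (e n τ) (f n) (u n τ) x * r n ^ 2) / ν := by ring
        rw [e1, div_le_iff₀ hν] at h1
        have e2 : -(δ * ν / r n ^ 2) = (-δ * ν) / r n ^ 2 := by ring
        rw [e2, le_div_iff₀ hr2n]
        exact h1
      · have e5 : ∀ i, (x i - x₀ n i) ^ 2 = r n ^ 2 * y i ^ 2 := by
          intro i
          rw [hxe]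
          simp only [Pi.add_apply, Pi.smul_apply, smul_eq_mul]
          ring
        simp only [e5]
        rw [← Finset.mul_sum]
        have e6 : (r n / (1 / ((n : ℝ) + 1))) ^ 2 = r n ^ 2 * ((n : ℝ) + 1) ^ 2 := by
          field_simp
        rw [e6]
        apply mul_lt_mul_of_pos_left _ hr2n
        have h2 : ∑ i, y i ^ 2 ≤ 3 * ‖y‖ ^ 2 := q2_le_norm y
        have h3 : 3 * ‖y‖ + 7 ≤ (n : ℝ) + 1 := by linarith
        have h4 := norm_nonneg y
        nlinarith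
    have hlow := low_box' (G := fun τ x => ent (e n τ) (f n) (u n τ) x)
      (I := Ioo (T n - r n ^ 2 / (1 / (n + 1) * ν)) (T n - 1 / (n + 1) * r n ^ 2 / ν))
      (B := {x : V | ∑ i, (x i - x₀ n i) ^ 2 < (r n / (1 / (n + 1))) ^ 2})
      (t₀ := T n + r n ^ 2 * t₀ / ν) (a := κ * r n ^ 2 / ν) (ρ := r n * κ)
      (δ := δ * ν / r n ^ 2) (by positivity)
      (fun τ hτ => (hG τ hτ).1)
      (fun τ hτ => by
        obtain ⟨z₀, hz₀⟩ := (hG τ hτ).2
        exact ⟨z₀, fun x hx => (hz₀ x hx).2, fun x hx => (hz₀ x hx).1⟩) (by positivity)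
    have h1 := hlow.trans (hint n)
    rw [ENNReal.ofReal_le_ofReal_iff (by positivity)] at h1
    have e1 : δ * ν / r n ^ 2 * (2 * (r n * κ)) ^ 3 * (2 * (κ * r n ^ 2 / ν))
        = (δ * (2 * κ) ^ 3 * (2 * κ)) * r n ^ 3 := by
      field_simp
    rw [e1] at h1
    have h2 : δ * (2 * κ) ^ 3 * (2 * κ) ≤ 1 / ((n : ℝ) + 1) :=
      le_of_mul_le_mul_right h1 (by positivity)
    rw [le_div_iff₀ (by positivity)] at h2
    rw [div_lt_iff₀ hc0] at hA3
    nlinarith
  have hzero := hanc.component hne hcomp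
  -- contradiction
  obtain ⟨t, ht, x, hx, hzx⟩ := hND 1 one_pos
  have ht0 : t < 0 := by
    have := ht.2
    linarith
  have h1 : Pool.Agent.TH305.DR.ST 0 (vlim U (tmR ν T r) (ru ν r x₀ u χ) t) x = 0 := by
    rw [st0_eq]
    apply Finset.sum_eq_zero
    intro pp _
    have h2 : ∀ i j y, pd i (fun y => vlim U (tmR ν T r) (ru ν r x₀ u χ) t y j) y = 0 := by
      intro i j y
      apply pd_of_zero
      intro y
      rw [hzero t ht0 y]
      rfl
    unfold Om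
    rw [h2, h2]
    norm_num
  rw [h1] at hzx
  linarith

/-- The theorem for all scales. -/
theorem entry_all {ν M : ℝ} (hν : 0 < ν) (hM : 0 < M) : ∃ ε : ℝ, 0 < ε ∧
    ∀ (T ρ : ℝ) (x₀ : V) (u : ℝ → V → V) (p : ℝ → V → ℝ), TypeI ν M T ρ x₀ u p → ¬ Reg T x₀ u →
      ∀ r : ℝ, 0 < r → r ≤ ρ → r ^ 2 ≤ ν * T →
        ∀ (f : V) (e : ℝ → V), ∑ i, f i ^ 2 = 1 → (∀ t, ∑ i, e t i ^ 2 = 1) →
          ENNReal.ofReal (ε * r ^ 3) < ∫⁻ t in Ioo (T - r ^ 2 / ν) (T - ε * r ^ 2 / ν),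
            ∫⁻ x in {x : V | ∑ i, (x i - x₀ i) ^ 2 < r ^ 2},
              ENNReal.ofReal (-(ent (e t) f (u t) x)) := by
  obtain ⟨ε, hε, hε1, h⟩ := entry_pos hν hM
  refine ⟨ε ^ 4, by positivity, fun T ρ x₀ u p hTI hsg r hr hrρ hrT f e hf he => ?_⟩
  have h2 : 0 < r ^ 2 := by positivity
  have e1 : ε ^ 2 ≤ ε := by nlinarith
  have e3 : ε ^ 4 ≤ ε ^ 3 := by
    have : 0 < ε ^ 3 := by positivity
    nlinarith
  have h1 := h T ρ x₀ u p hTI hsg (ε * r) (by positivity) (mul_le_mul_of_nonneg_left hrρ hε.le)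
    (by
      have a1 : (ε * r) ^ 2 = ε ^ 2 * r ^ 2 := by ring
      rw [a1]
      calc ε ^ 2 * r ^ 2 ≤ ε * r ^ 2 := mul_le_mul_of_nonneg_right e1 h2.le
        _ ≤ ε * (ν * T) := mul_le_mul_of_nonneg_left hrT hε.le) f e hf he
  have e4 : ε * (ε * r) ^ 3 = ε ^ 4 * r ^ 3 := by ring
  have e5 : ε * r / ε = r := by field_simp
  rw [e4, e5] at h1
  refine h1.trans_le (lintegral_mono_set ?_)
  have k1 : (ε * r) ^ 2 / (ε * ν) ≤ r ^ 2 / ν := by
    have : (ε * r) ^ 2 / (ε * ν) = ε * (r ^ 2 / ν) := by field_simp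
    rw [this]
    have : 0 < r ^ 2 / ν := by positivity
    nlinarith
  have k2 : ε ^ 4 * r ^ 2 / ν ≤ ε * (ε * r) ^ 2 / ν := by
    have : ε * (ε * r) ^ 2 / ν = ε ^ 3 * r ^ 2 / ν := by ring
    rw [this]
    gcongr
  intro t ht
  exact ⟨by linarith [ht.1], by linarith [ht.2]⟩

end Pool.Agent.H305.TI
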