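import Pool.Agent.H305.TI.Neg

/-!
If at one time a component of the limit is not monotone in any direction, then the same holds
with uniform bounds for the sequence.
-/

set_option autoImplicit false

open MeasureTheory Set Metric Filter Topology
open scoped ContDiff ENNReal

namespace Pool.Agent.H305.TI

open H459R3.NS W221.NS Pool.Agent.V1183.PM

/-- `e · ∇ (f · w)`. -/
noncomputable def ent (e f : V) (w : V → V) (x : V) : ℝ :=
  ∑ j, e j * ∑ i, f i * pd j (fun y => w y i) x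

lemma abs_le_one_of_sq {e : V} (h : ∑ i, e i ^ 2 = 1) (i : Fin 3) : |e i| ≤ 1 := by
  have h1 : e i ^ 2 ≤ 1 := by
    rw [← h]
    exact Finset.single_le_sum (f := fun i => e i ^ 2) (fun _ _ => sq_nonneg _) (Finset.mem_univ i)
  rw [← sq_abs] at h1
  nlinarith [abs_nonneg (e i)]

/-- Lower bound of the integral of the negative part. -/
lemma low_box' {G : ℝ → V → ℝ} {I : Set ℝ} {B : Set V} {t₀ a ρ δ : ℝ}
    (hρ : 0 < ρ) (hI : Icc (t₀ - a) (t₀ + a) ⊆ I)
    (hG : ∀ t ∈ Icc (t₀ - a) (t₀ + a), ∃ x₀ : V, ball x₀ ρ ⊆ B ∧ ∀ x ∈ ball x₀ ρ, G t x ≤ -δ)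
    (hδ : 0 ≤ δ) :
    ENNReal.ofReal (δ * (2 * ρ) ^ 3 * (2 * a)) ≤ ∫⁻ t in I, ∫⁻ x in B, ENNReal.ofReal (-(G t x)) := by
  have h1 : ∀ t ∈ Icc (t₀ - a) (t₀ + a), ENNReal.ofReal (δ * (2 * ρ) ^ 3)
      ≤ ∫⁻ x in B, ENNReal.ofReal (-(G t x)) := by
    intro t ht
    obtain ⟨x₀, hB, hx₀⟩ := hG t ht
    refine le_trans ?_ (lintegral_mono_set hB)
    have h2 : ∫⁻ _x in ball x₀ ρ, ENNReal.ofReal δ ≤ ∫⁻ x in ball x₀ ρ, ENNReal.ofReal (-(G t x)) := by
      apply setLIntegral_mono' measurableSet_ball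
      intro x hx
      apply ENNReal.ofReal_le_ofReal
      linarith [hx₀ x hx]
    refine le_trans (le_of_eq ?_) h2
    rw [setLIntegral_const, Real.volume_pi_ball _ hρ, ← ENNReal.ofReal_mul hδ]
    simp
  have h2 : ∫⁻ _t in Icc (t₀ - a) (t₀ + a), ENNReal.ofReal (δ * (2 * ρ) ^ 3)
      ≤ ∫⁻ t in Icc (t₀ - a) (t₀ + a), ∫⁻ x in B, ENNReal.ofReal (-(G t x)) :=
    setLIntegral_mono' measurableSet_Icc h1
  refine le_trans (le_of_eq ?_) (h2.trans (lintegral_mono_set hI))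
  rw [setLIntegral_const, Real.volume_Icc, ← ENNReal.ofReal_mul (by positivity)]
  congr 1
  ring

lemma sphere_compact : IsCompact {e : V | ∑ i, e i ^ 2 = 1} := by
  apply IsCompact.of_isClosed_subset (isCompact_closedBall (0 : V) 1)
  · exact isClosed_eq (by fun_prop) continuous_const
  · intro e he
    rw [mem_closedBall, dist_zero_right, pi_norm_le_iff_of_nonneg zero_le_one]
    intro i
    exact abs_le_one_of_sq he i

section
variable {M : ℝ} {U : Ultrafilter ℕ} {T L : ℕ → ℝ} {u : ℕ → ℝ → V → V} {p : ℕ → ℝ → V → ℝ}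

/-- The box property for a set of directions. -/
def EB (U : Ultrafilter ℕ) (T : ℕ → ℝ) (u : ℕ → ℝ → V → V) (f : ℕ → V) (t₀ : ℝ) (S : Set V) : Prop :=
  ∃ δ κ R : ℝ, 0 < δ ∧ 0 < κ ∧ κ ≤ 1 ∧ κ ≤ -t₀ / 2 ∧ 0 ≤ R ∧ ∀ η : ℝ, 0 < η → η ≤ κ →
    ∀ᶠ n in (U : Filter ℕ), ∀ t ∈ Icc (t₀ - η) (t₀ + η), ∀ e ∈ S, ∃ y : V, ‖y‖ ≤ R ∧
      ∀ x ∈ ball y η, ent e (f n) (u n (T n + t)) x ≤ -δ

lemma Sq.entry_box (hM : 0 < M) (hU : (U : Filter ℕ) ≤ atTop) (h : Sq M T L u p) {f : ℕ → V} {f₀ : V}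
    (hf : ∀ n, ∑ i, f n i ^ 2 = 1) (hfi : ∀ i, Tendsto (fun n => f n i) U (𝓝 (f₀ i)))
    {t₀ : ℝ} (ht₀ : t₀ < 0)
    (hneg : ∀ e : V, ∑ i, e i ^ 2 = 1 → ∃ x, ent e f₀ (vlim U T u t₀) x < 0) :
    EB U T u f t₀ {e : V | ∑ i, e i ^ 2 = 1} := by
  refine sphere_compact.induction_on (p := EB U T u f t₀) ?_ ?_ ?_ ?_
  · refine ⟨1, min 1 (-t₀ / 2), 0, one_pos, lt_min one_pos (by linarith), min_le_left _ _,
      min_le_right _ _, le_rfl, fun η _ _ => Eventually.of_forall fun n t _ e he => ?_⟩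
    exact absurd he (notMem_empty e)
  · rintro s t hst ⟨δ, κ, R, h1, h2, h3, h4, h5, h6⟩
    refine ⟨δ, κ, R, h1, h2, h3, h4, h5, fun η q1 q2 => ?_⟩
    filter_upwards [h6 η q1 q2] with n hn τ hτ e he
    exact hn τ hτ e (hst he)
  · rintro s t ⟨δ, κ, R, h1, h2, h3, h4, h5, h6⟩ ⟨δ', κ', R', h1', h2', h3', h4', h5', h6'⟩
    refine ⟨min δ δ', min κ κ', max R R', lt_min h1 h1', lt_min h2 h2', (min_le_left _ _).trans h3,
      (min_le_left _ _).trans h4, h5.trans (le_max_left _ _), fun η q1 q2 => ?_⟩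
    filter_upwards [h6 η q1 (q2.trans (min_le_left _ _)), h6' η q1 (q2.trans (min_le_right _ _))]
      with n hn hn' τ hτ e he
    rcases he with he | he
    · obtain ⟨y, hy, hy2⟩ := hn τ hτ e he
      exact ⟨y, hy.trans (le_max_left _ _), fun x hx => (hy2 x hx).trans
        (neg_le_neg (min_le_left _ _))⟩
    · obtain ⟨y, hy, hy2⟩ := hn' τ hτ e he
      exact ⟨y, hy.trans (le_max_right _ _), fun x hx => (hy2 x hx).trans
        (neg_le_neg (min_le_right _ _))⟩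
  · intro e he
    obtain ⟨y, hy⟩ := hneg e he
    -- the functions `f · ∂ⱼ u`
    have hD : ∀ j, LLB U (fun n t x => ∑ i, f n i * pd j (fun y => u n (T n + t) y i) x) := fun j =>
      LLB.sum fun i => (LLB.seq (B := 1) (Eventually.of_forall fun n =>
        abs_le_one_of_sq (hf n) i)).mul (h.llb hM hU [j] i)
    have hF : LLB U (fun n t x => ent e (f n) (u n (T n + t)) x) := by
      unfold ent
      exact LLB.sum fun j => (LLB.const (e j)).mul (hD j)
    have hlim : (ul U fun n => ent e (f n) (u n (T n + t₀)) y) = ent e f₀ (vlim U T u t₀) y := by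
      apply ul_eq
      unfold ent
      exact tendsto_finsetSum _ fun j _ => tendsto_const_nhds.mul (tendsto_finsetSum _ fun i _ =>
        (hfi i).mul (h.pd_lim hM hU ht₀ i j y))
    obtain ⟨δ, κ, hδ, hκ, hκ1, hκ2, hbox⟩ := hF.neg_box ht₀ (by rw [hlim]; exact hy)
    have hD2 := fun j => hD j (2 * t₀) (t₀ / 2) (‖y‖ + 1) (by linarith)
    choose B C hB hC hDn using hD2
    obtain ⟨b, hb⟩ : ∃ b, b = B 0 + B 1 + B 2 + 1 := ⟨_, rfl⟩
    have hb0 : 0 < b := by
      have := hB 0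
      have := hB 1
      have := hB 2
      linarith
    refine ⟨ball e (δ / (2 * b)), mem_nhdsWithin_of_mem_nhds (ball_mem_nhds _ (by positivity)),
      δ / 2, κ, ‖y‖, by positivity, hκ, hκ1, hκ2, norm_nonneg _, fun η q1 q2 => ?_⟩
    filter_upwards [hbox η q1 q2, hDn 0, hDn 1, hDn 2] with n hn d0 d1 d2 t ht e' he'
    refine ⟨y, le_rfl, fun x hx => ?_⟩
    have h1 := hn t ht x hx
    have ht' : t ∈ Icc (2 * t₀) (t₀ / 2) := ⟨by linarith [ht.1], by linarith [ht.2]⟩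
    have hx' : x ∈ ball (0 : V) (‖y‖ + 1) := by
      rw [mem_ball, dist_eq_norm] at hx
      rw [mem_ball, dist_zero_right]
      calc ‖x‖ = ‖(x - y) + y‖ := by congr 1; abel
        _ ≤ ‖x - y‖ + ‖y‖ := norm_add_le _ _
        _ < _ := by linarith
    have b0 := (d0 t ht' x hx').1
    have b1 := (d1 t ht' x hx').1
    have b2 := (d2 t ht' x hx').1
    rw [mem_ball, dist_eq_norm] at he'
    have c0 := (norm_le_pi_norm (e' - e) 0).trans he'.le
    have c1 := (norm_le_pi_norm (e' - e) 1).trans he'.le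
    have c2 := (norm_le_pi_norm (e' - e) 2).trans he'.le
    simp only [Pi.sub_apply, Real.norm_eq_abs] at c0 c1 c2
    have hdiff : |ent e' (f n) (u n (T n + t)) x - ent e (f n) (u n (T n + t)) x| ≤ δ / 2 := by
      have e1 : ent e' (f n) (u n (T n + t)) x - ent e (f n) (u n (T n + t)) x
          = ∑ j, (e' j - e j) * ∑ i, f n i * pd j (fun y => u n (T n + t) y i) x := by
        unfold ent
        rw [← Finset.sum_sub_distrib]
        exact Finset.sum_congr rfl fun j _ => by ring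
      rw [e1]
      refine (Finset.abs_sum_le_sum_abs _ _).trans ?_
      have hq : 0 ≤ δ / (2 * b) := by positivity
      rw [Fin.sum_univ_three, abs_mul, abs_mul, abs_mul]
      have m0 := mul_le_mul c0 b0 (abs_nonneg _) hq
      have m1 := mul_le_mul c1 b1 (abs_nonneg _) hq
      have m2 := mul_le_mul c2 b2 (abs_nonneg _) hq
      have e2 : δ / (2 * b) * b = δ / 2 := by field_simp
      have e3 : δ / (2 * b) * B 0 + δ / (2 * b) * B 1 + δ / (2 * b) * B 2 ≤ δ / 2 := by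
        rw [← e2, ← mul_add, ← mul_add]
        apply mul_le_mul_of_nonneg_left _ hq
        linarith
      linarith
    have := (le_abs_self _).trans hdiff
    linarith

end

end Pool.Agent.H305.TI
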