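import Pool.Agent.H305.TI.Anc

/-!
The limit of a sequence of singular solutions is not trivial at any scale.
-/

set_option autoImplicit false

open MeasureTheory Set Metric Filter Topology
open scoped ContDiff

namespace Pool.Agent.H305.TI

open H459R3.NS W221.NS Pool.Agent.V1183.PM
open Pool.Agent.TH305.DR (Om bb SS SS_zero SS_succ SS_one SS_nonneg SV ST ST_nonneg SV_nonneg om_sm)

lemma ul_compact {X : Type*} [TopologicalSpace X] {U : Ultrafilter ℕ} {K : Set X} (hK : IsCompact K)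
    {x : ℕ → X} (h : ∀ᶠ n in (U : Filter ℕ), x n ∈ K) : ∃ a ∈ K, Tendsto x U (𝓝 a) := by
  rw [isCompact_iff_ultrafilter_le_nhds] at hK
  have h1 : ((U.map x : Ultrafilter X) : Filter X) ≤ 𝓟 K := by
    rw [le_principal_iff]
    exact h
  obtain ⟨a, ha, ha2⟩ := hK _ h1
  exact ⟨a, ha, ha2⟩

section
variable {U : Ultrafilter ℕ} {F : ℕ → ℝ → V → ℝ}

/-- Convergence along moving points. -/
lemma LLB.tendsto_seq (hF : LLB U F) {t : ℕ → ℝ} {x : ℕ → V} {t₀ : ℝ} {x₀ : V} (ht₀ : t₀ < 0)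
    (ht : Tendsto t U (𝓝 t₀)) (hx : Tendsto x U (𝓝 x₀)) :
    Tendsto (fun n => F n (t n) (x n)) U (𝓝 (ul U fun n => F n t₀ x₀)) := by
  obtain ⟨B, C, hB, hC, h⟩ := hF (2 * t₀) (t₀ / 2) (‖x₀‖ + 1) (by linarith)
  have h1 := hF.tendsto ht₀ x₀
  have hx0 : x₀ ∈ ball (0 : V) (‖x₀‖ + 1) := by rw [mem_ball, dist_zero_right]; linarith
  have h2 : Tendsto (fun n => F n (t n) (x n) - F n t₀ x₀) U (𝓝 0) := by
    rw [tendsto_zero_iff_abs_tendsto_zero]
    have h3 : Tendsto (fun n => C * (|t n - t₀| + ‖x n - x₀‖)) U (𝓝 0) := by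
      have a1 : Tendsto (fun n => |t n - t₀|) U (𝓝 0) := by
        have := (ht.sub_const t₀).abs
        simpa using this
      have a2 : Tendsto (fun n => ‖x n - x₀‖) U (𝓝 0) := by
        have := (hx.sub_const x₀).norm
        simpa using this
      have := (a1.add a2).const_mul C
      simpa using this
    refine squeeze_zero' (Eventually.of_forall fun n => abs_nonneg _) ?_ h3
    have e1 : ∀ᶠ n in (U : Filter ℕ), t n ∈ Icc (2 * t₀) (t₀ / 2) :=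
      ht (Icc_mem_nhds (by linarith) (by linarith))
    have e2 : ∀ᶠ n in (U : Filter ℕ), x n ∈ ball (0 : V) (‖x₀‖ + 1) :=
      hx (isOpen_ball.mem_nhds hx0)
    filter_upwards [h, e1, e2] with n hn g1 g2
    exact (hn _ g1 _ g2).2 t₀ ⟨by linarith, by linarith⟩ x₀ hx0
  have h3 := h2.add h1
  simpa using h3

end

/-- Nondegeneracy at all scales. -/
def ND (q K z : ℝ) (v : ℝ → V → V) : Prop :=
  ∀ lam : ℝ, 0 < lam → ∃ t ∈ Icc (-lam ^ 2) (-(q * lam ^ 2)), ∃ x : V, ‖x‖ ≤ K * lam ∧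
    z ≤ lam ^ 4 * Pool.Agent.TH305.DR.ST 0 (v t) x

section
variable {M : ℝ} {T L : ℕ → ℝ} {u : ℕ → ℝ → V → V} {p : ℕ → ℝ → V → ℝ} {U : Ultrafilter ℕ}

lemma Sq.ST_llb (hM : 0 < M) (hU : (U : Filter ℕ) ≤ atTop) (h : Sq M T L u p) :
    LLB U (fun n t => Pool.Agent.TH305.DR.ST 0 (u n (T n + t))) := by
  have hO : ∀ i j, LLB U (fun n t => Om i j (u n (T n + t))) := fun i j =>
    (h.llb hM hU [i] j).sub (h.llb hM hU [j] i)
  have h2 : LLB U (fun n t x => ∑ i, ∑ j, Om i j (u n (T n + t)) x * Om i j (u n (T n + t)) x) :=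
    LLB.sum fun i => LLB.sum fun j => (hO i j).mul (hO i j)
  have e : (fun n t => Pool.Agent.TH305.DR.ST 0 (u n (T n + t)))
      = fun (n : ℕ) (t : ℝ) (x : V) => ∑ i, ∑ j, Om i j (u n (T n + t)) x * Om i j (u n (T n + t)) x := by
    funext n t x
    rw [st0_eq, Fintype.sum_prod_type]
    exact Finset.sum_congr rfl fun i _ => Finset.sum_congr rfl fun j _ => by ring
  rw [e]
  exact h2

lemma Sq.om_lim (hM : 0 < M) (hU : (U : Filter ℕ) ≤ atTop) (h : Sq M T L u p) {t : ℝ} (ht : t < 0)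
    (i j : Fin 3) (x : V) :
    Tendsto (fun n => Om i j (u n (T n + t)) x) U (𝓝 (Om i j (vlim U T u t) x)) :=
  (h.pd_lim hM hU ht j i x).sub (h.pd_lim hM hU ht i j x)

lemma Sq.ST_lim (hM : 0 < M) (hU : (U : Filter ℕ) ≤ atTop) (h : Sq M T L u p) {t : ℝ} (ht : t < 0)
    (x : V) : Tendsto (fun n => Pool.Agent.TH305.DR.ST 0 (u n (T n + t)) x) U
      (𝓝 (Pool.Agent.TH305.DR.ST 0 (vlim U T u t) x)) := by
  simp only [st0_eq]
  exact tendsto_finsetSum _ fun q _ => (h.om_lim hM hU ht q.1 q.2 x).pow 2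

/-- The limit of singular solutions is not degenerate. -/
theorem Sq.nd (hM : 0 < M) (hU : (U : Filter ℕ) ≤ atTop) : ∃ q K z : ℝ, 0 < q ∧ q ≤ 1 / 2 ∧ 1 ≤ K ∧
    0 < z ∧ ∀ {T L : ℕ → ℝ} {u : ℕ → ℝ → V → V} {p : ℕ → ℝ → V → ℝ}, Sq M T L u p →
      (∀ n, Sing (T n) (u n) 0) → ND q K z (vlim U T u) := by
  obtain ⟨q, K, z, hq, hq1, hK, hz, hreg⟩ := reg hM
  refine ⟨q, K, z, hq, hq1, hK, hz, ?_⟩
  intro T L u p h hs lam hlam
  have hlam2 : 0 < lam ^ 2 := by positivity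
  have hex : ∀ n, ∃ tx : ℝ × V, (2 * lam ^ 2 ≤ T n → (K + 3) * lam < L n →
      tx.1 ∈ Icc (-lam ^ 2) (-(q * lam ^ 2)) ∧ tx.2 ∈ closedBall (0 : V) (K * lam) ∧
        z ≤ lam ^ 4 * Pool.Agent.TH305.DR.ST 0 (u n (T n + tx.1)) tx.2) := by
    intro n
    by_cases hc : 2 * lam ^ 2 ≤ T n ∧ (K + 3) * lam < L n
    · obtain ⟨c1, c2⟩ := hc
      have hTG := TG.sc hlam (h.tg n)
      have h1 : 2 ≤ T n / lam ^ 2 := by rwa [le_div_iff₀ hlam2]
      have h2 : K + 3 < L n / lam := by rwa [lt_div_iff₀ hlam]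
      have h3 : ¬ (∀ t ∈ Icc (T n / lam ^ 2 - 1) (T n / lam ^ 2 - q), ∀ x : V, ‖x‖ ≤ K →
          Pool.Agent.TH305.DR.ST 0 (scu lam (u n) t) x ≤ z) := fun hcon =>
        hreg _ _ _ _ hTG h1 h2 hcon (sing_sc hlam (hs n))
      push Not at h3
      obtain ⟨s, hs1, y, hy, hzy⟩ := h3
      have hsI : s ∈ Ioo 0 (T n / lam ^ 2) := ⟨by linarith [hs1.1], by linarith [hs1.2]⟩
      rw [ST_scu hlam (h.tg n) hsI] at hzy
      have e1 : T n + (lam ^ 2 * s - T n) = lam ^ 2 * s := by ring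
      refine ⟨(lam ^ 2 * s - T n, lam • y), fun _ _ => ⟨⟨?_, ?_⟩, ?_, ?_⟩⟩
      · have := mul_le_mul_of_nonneg_left hs1.1 hlam2.le
        rw [mul_sub, mul_div_cancel₀ _ hlam2.ne'] at this
        show -lam ^ 2 ≤ lam ^ 2 * s - T n
        linarith
      · have := mul_le_mul_of_nonneg_left hs1.2 hlam2.le
        rw [mul_sub, mul_div_cancel₀ _ hlam2.ne'] at this
        show lam ^ 2 * s - T n ≤ -(q * lam ^ 2)
        linarith
      · show lam • y ∈ closedBall (0 : V) (K * lam)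
        rw [mem_closedBall, dist_zero_right, norm_smul, Real.norm_of_nonneg hlam.le]
        nlinarith
      · show z ≤ lam ^ 4 * Pool.Agent.TH305.DR.ST 0 (u n (T n + (lam ^ 2 * s - T n))) (lam • y)
        rw [e1]
        exact hzy.le
    · refine ⟨(0, 0), fun c1 c2 => absurd ⟨c1, c2⟩ hc⟩
  choose tx htx using hex
  have hev : ∀ᶠ n in (U : Filter ℕ), tx n ∈ Icc (-lam ^ 2) (-(q * lam ^ 2)) ×ˢ
      closedBall (0 : V) (K * lam) ∧
        z ≤ lam ^ 4 * Pool.Agent.TH305.DR.ST 0 (u n (T n + (tx n).1)) (tx n).2 := by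
    filter_upwards [hU (h.T_top.eventually_ge_atTop (2 * lam ^ 2)),
      hU (h.L_top.eventually_gt_atTop ((K + 3) * lam))] with n h1 h2
    obtain ⟨g1, g2, g3⟩ := htx n h1 h2
    exact ⟨⟨g1, g2⟩, g3⟩
  obtain ⟨⟨t₀, x₀⟩, ⟨ht₀, hx₀⟩, hlim⟩ := ul_compact
    (isCompact_Icc.prod (isCompact_closedBall (0 : V) (K * lam))) (hev.mono fun n hn => hn.1)
  have ht₀ : t₀ ∈ Icc (-lam ^ 2) (-(q * lam ^ 2)) := ht₀
  have hx₀ : x₀ ∈ closedBall (0 : V) (K * lam) := hx₀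
  have ht₀n : t₀ < 0 := by
    have : 0 < q * lam ^ 2 := by positivity
    linarith [ht₀.2]
  have l1 : Tendsto (fun n => (tx n).1) U (𝓝 t₀) := (continuous_fst.tendsto _).comp hlim
  have l2 : Tendsto (fun n => (tx n).2) U (𝓝 x₀) := (continuous_snd.tendsto _).comp hlim
  have l3 := (h.ST_llb (U := U) hM hU).tendsto_seq ht₀n l1 l2
  rw [ul_eq (h.ST_lim hM hU ht₀n x₀)] at l3
  refine ⟨t₀, ht₀, x₀, by rw [mem_closedBall, dist_zero_right] at hx₀; exact hx₀, ?_⟩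
  exact ge_of_tendsto (l3.const_mul (lam ^ 4)) (hev.mono fun n hn => hn.2)

end

end Pool.Agent.H305.TI
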