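import Pool.Agent.H305.TI.DerN
import Pool.Graph.R_pool_sql_team_seeded_843ab51a.V1183.PM.Scal

/-!
The gradient estimate for the Poisson equation by comparison on a half cube.
-/

set_option autoImplicit false

open MeasureTheory Set Metric Filter Topology
open scoped ContDiff

namespace Pool.Agent.H305.TI

open H459R3.NS W221.NS Pool.Agent.V1183.PM

/-- The reflection. -/
def rfl3 (j : Fin 3) (x : V) : V := x - (2 * x j) • (Pi.single j 1 : V)

lemma rfl3_apply (j i : Fin 3) (x : V) : rfl3 j x i = if i = j then - x i else x i := by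
  unfold rfl3
  simp only [Pi.sub_apply, Pi.smul_apply, smul_eq_mul, Pi.single_apply]
  split_ifs with h
  · subst h; ring
  · ring

lemma rfl3_fd (j : Fin 3) (x : V) : HasFDerivAt (rfl3 j)
    (ContinuousLinearMap.id ℝ V - (2 : ℝ) • (ContinuousLinearMap.proj (R := ℝ) (φ := fun _ : Fin 3 => ℝ) j).smulRight
      (Pi.single j 1 : V)) x := by
  have h1 : HasFDerivAt (fun y : V => y j) (ContinuousLinearMap.proj (R := ℝ) (φ := fun _ : Fin 3 => ℝ) j) x :=
    (ContinuousLinearMap.proj (R := ℝ) (φ := fun _ : Fin 3 => ℝ) j).hasFDerivAt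
  have h2 : HasFDerivAt (fun y : V => (2 * y j) • (Pi.single j 1 : V))
      (((2 : ℝ) • ContinuousLinearMap.proj (R := ℝ) (φ := fun _ : Fin 3 => ℝ) j).smulRight
        (Pi.single j 1 : V)) x := by
    have h3 : HasFDerivAt (fun y : V => 2 * y j)
      ((2 : ℝ) • ContinuousLinearMap.proj (R := ℝ) (φ := fun _ : Fin 3 => ℝ) j) x := h1.const_mul 2
    exact h3.smul_const (Pi.single j 1 : V)
  have h4 := (hasFDerivAt_id (𝕜 := ℝ) x).sub h2
  refine h4.congr_fderiv ?_
  ext v
  simp
  ring

lemma rfl3_cd {n : WithTop ℕ∞} (j : Fin 3) : ContDiff ℝ n (rfl3 j) := by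
  unfold rfl3
  have : ContDiff ℝ n (fun x : V => x j) := contDiff_apply ℝ ℝ j
  exact contDiff_id.sub ((contDiff_const.mul this).smul contDiff_const)

lemma pd_rfl {f : V → ℝ} (hf : Differentiable ℝ f) (j i : Fin 3) (x : V) :
    pd i (fun y => f (rfl3 j y)) x = (if i = j then -1 else 1) * pd i f (rfl3 j x) := by
  unfold pd
  have h1 : HasFDerivAt (fun y => f (rfl3 j y)) _ x :=
    (hf (rfl3 j x)).hasFDerivAt.comp x (rfl3_fd j x)
  rw [h1.fderiv]
  simp only [ContinuousLinearMap.comp_apply, _root_.sub_apply,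
    ContinuousLinearMap.id_apply, _root_.smul_apply,
    ContinuousLinearMap.smulRight_apply, ContinuousLinearMap.proj_apply]
  rw [map_sub, map_smul, map_smul]
  split_ifs with h
  · subst h
    simp
    ring
  · simp [Ne.symm h]

lemma lap_rfl {f : V → ℝ} (hf : ContDiff ℝ 2 f) (j : Fin 3) (x : V) :
    lap (fun y => f (rfl3 j y)) x = lap f (rfl3 j x) := by
  unfold lap
  refine Finset.sum_congr rfl fun i _ => ?_
  have h1 : pd i (fun y => f (rfl3 j y))
      = fun y => (if i = j then -1 else 1) * pd i f (rfl3 j y) := by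
    funext y
    exact pd_rfl (hf.differentiable (by norm_num)) j i y
  rw [h1]
  have h2 : Differentiable ℝ (pd i f) := (pd_cd hf i).differentiable (by norm_num)
  have h3 : pd i (fun y => (if i = j then (-1 : ℝ) else 1) * pd i f (rfl3 j y)) x
      = (if i = j then -1 else 1) * pd i (fun y => pd i f (rfl3 j y)) x := by
    unfold pd
    have h4 : Differentiable ℝ (fun y => fderiv ℝ f (rfl3 j y) (Pi.single i 1)) :=
      h2.comp ((rfl3_cd (n := 1) j).differentiable (by norm_num))
    rw [fderiv_const_mul (h4 x)]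
    rfl
  rw [h3, pd_rfl h2]
  split_ifs <;> ring

lemma q2_cd {n : WithTop ℕ∞} : ContDiff ℝ n q2 := by
  unfold q2
  exact ContDiff.sum fun i _ => (contDiff_apply ℝ ℝ i).pow 2

lemma hfd_sq (k : Fin 3) (x : V) : HasFDerivAt (fun y : V => y k ^ 2)
    ((2 * x k) • ContinuousLinearMap.proj (R := ℝ) (φ := fun _ : Fin 3 => ℝ) k) x := by
  have h1 : HasFDerivAt (fun y : V => y k) (ContinuousLinearMap.proj (R := ℝ) (φ := fun _ : Fin 3 => ℝ) k) x :=
    (ContinuousLinearMap.proj (R := ℝ) (φ := fun _ : Fin 3 => ℝ) k).hasFDerivAt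
  have h2 := h1.mul h1
  have e : (fun y : V => y k ^ 2) = (fun y : V => y k) * fun y : V => y k := by
    funext y
    simp [pow_two]
  rw [e]
  refine h2.congr_fderiv ?_
  ext v
  simp
  ring

lemma pd_q2 (i : Fin 3) (x : V) : pd i q2 x = 2 * x i := by
  unfold pd
  have h : HasFDerivAt q2 (∑ k, (2 * x k) • ContinuousLinearMap.proj (R := ℝ) (φ := fun _ : Fin 3 => ℝ) k) x := by
    unfold q2
    refine HasFDerivAt.fun_sum fun k _ => ?_
    exact hfd_sq k x
  rw [h.fderiv]
  simp [Pi.single_apply]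

lemma pd_lin (c : ℝ) (k i : Fin 3) (x : V) :
    pd i (fun y : V => c * y k) x = c * (Pi.single i 1 : V) k := by
  unfold pd
  have h1 : HasFDerivAt (fun y : V => c * y k)
      (c • ContinuousLinearMap.proj (R := ℝ) (φ := fun _ : Fin 3 => ℝ) k) x :=
    (ContinuousLinearMap.proj (R := ℝ) (φ := fun _ : Fin 3 => ℝ) k).hasFDerivAt.const_mul c
  rw [h1.fderiv]
  rfl

/-- The comparison function. -/
noncomputable def psiB (S N d : ℝ) (j : Fin 3) (x : V) : ℝ :=
  S / d ^ 2 * (q2 x + 3 * (d * x j - x j ^ 2)) + N / 2 * (d * x j - x j ^ 2)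

lemma psiB_cd {n : WithTop ℕ∞} (S N d : ℝ) (j : Fin 3) : ContDiff ℝ n (psiB S N d j) := by
  unfold psiB
  have h : ContDiff ℝ n (fun x : V => x j) := contDiff_apply ℝ ℝ j
  have h2 : ContDiff ℝ n (fun x : V => d * x j - x j ^ 2) := (contDiff_const.mul h).sub (h.pow 2)
  exact (contDiff_const.mul (q2_cd.add (contDiff_const.mul h2))).add (contDiff_const.mul h2)

lemma psiB_pd (S N d : ℝ) (j i : Fin 3) (x : V) : pd i (psiB S N d j) x
    = S / d ^ 2 * (2 * x i) + (3 * (S / d ^ 2) + N / 2) * ((d - 2 * x j) * (Pi.single i 1 : V) j) := by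
  have hq : HasFDerivAt q2 (fderiv ℝ q2 x) x := ((q2_cd (n := 1)).differentiable (by norm_num) x).hasFDerivAt
  have h1 : HasFDerivAt (fun y : V => y j) (ContinuousLinearMap.proj (R := ℝ) (φ := fun _ : Fin 3 => ℝ) j) x :=
      (ContinuousLinearMap.proj (R := ℝ) (φ := fun _ : Fin 3 => ℝ) j).hasFDerivAt
  have h2 := (h1.const_mul d).sub (hfd_sq j x)
  have h3 : HasFDerivAt (psiB S N d j) _ x :=
    ((hq.add (h2.const_mul 3)).const_mul (S / d ^ 2)).add (h2.const_mul (N / 2))
  have hq2 : fderiv ℝ q2 x (Pi.single i 1) = 2 * x i := pd_q2 i x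
  unfold pd
  rw [h3.fderiv]
  simp [hq2]
  ring

lemma psiB_lap (S N d : ℝ) (j : Fin 3) (x : V) : lap (psiB S N d j) x = - N := by
  unfold lap
  have h1 : ∀ i, pd i (pd i (psiB S N d j)) x
      = S / d ^ 2 * 2 - (3 * (S / d ^ 2) + N / 2) * (2 * (Pi.single i 1 : V) j * (Pi.single i 1 : V) j) := by
    intro i
    have h2 : pd i (psiB S N d j) = fun x : V => S / d ^ 2 * (2 * x i)
        + (3 * (S / d ^ 2) + N / 2) * ((d - 2 * x j) * (Pi.single i 1 : V) j) := by
      funext y
      exact psiB_pd S N d j i y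
    rw [h2]
    unfold pd
    have a1 : HasFDerivAt (fun y : V => y i) (ContinuousLinearMap.proj (R := ℝ) (φ := fun _ : Fin 3 => ℝ) i) x :=
      (ContinuousLinearMap.proj (R := ℝ) (φ := fun _ : Fin 3 => ℝ) i).hasFDerivAt
    have a2 : HasFDerivAt (fun y : V => y j) (ContinuousLinearMap.proj (R := ℝ) (φ := fun _ : Fin 3 => ℝ) j) x :=
      (ContinuousLinearMap.proj (R := ℝ) (φ := fun _ : Fin 3 => ℝ) j).hasFDerivAt
    have a3 := ((a1.const_mul 2).const_mul (S / d ^ 2)).add
      ((((a2.const_mul 2).const_sub d).mul_const ((Pi.single i 1 : V) j)).const_mul (3 * (S / d ^ 2) + N / 2))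
    have a4 : HasFDerivAt (fun x : V => S / d ^ 2 * (2 * x i)
        + (3 * (S / d ^ 2) + N / 2) * ((d - 2 * x j) * (Pi.single i 1 : V) j)) _ x := a3
    rw [a4.fderiv]
    simp
    ring
  simp only [h1]
  fin_cases j <;> simp [Pi.single_apply] <;> ring

/-- One-sided estimate of the derivative at the centre of a cube. -/
lemma grad_aux {f : V → ℝ} (hf : ContDiff ℝ 2 f) {d S N N' : ℝ} (hd : 0 < d) (hS0 : 0 ≤ S)
    (hS : ∀ x : V, ‖x‖ ≤ d → |f x| ≤ S) (hN : ∀ x : V, ‖x‖ ≤ d → |lap f x| ≤ N) (hNN : N < N')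
    (j : Fin 3) : pd j f 0 ≤ 3 * S / d + d / 2 * N' := by
  have hN0 : 0 ≤ N := (abs_nonneg _).trans (hN 0 (by rw [norm_zero]; exact hd.le))
  have hN'0 : 0 < N' := by linarith
  obtain ⟨G, hG⟩ : ∃ G : V → ℝ, G = fun x => 1 / 2 * (f x - f (rfl3 j x)) - psiB S N' d j x := ⟨_, rfl⟩
  have hr : ∀ x : V, ‖x‖ ≤ d → ‖rfl3 j x‖ ≤ d := by
    intro x hx
    rw [pi_norm_le_iff_of_nonneg hd.le]
    intro i
    rw [rfl3_apply]
    have := norm_le_pi_norm x i
    split_ifs
    · rw [norm_neg]; linarith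
    · linarith
  have hfr : ContDiff ℝ 2 (fun y => f (rfl3 j y)) := hf.comp (rfl3_cd j)
  have hGc : ContDiff ℝ 2 G := by
    rw [hG]
    exact (contDiff_const.mul (hf.sub hfr)).sub (psiB_cd S N' d j)
  obtain ⟨Q, hQ⟩ : ∃ Q : Set V, Q = closedBall (0 : V) d ∩ {x | 0 ≤ x j} := ⟨_, rfl⟩
  have hQc : IsCompact Q := by
    rw [hQ]
    exact (isCompact_closedBall _ _).inter_right (isClosed_le continuous_const (continuous_apply j))
  have hQ0 : (0 : V) ∈ Q := by
    rw [hQ]
    refine ⟨mem_closedBall_self hd.le, ?_⟩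
    show (0 : ℝ) ≤ (0 : V) j
    simp
  obtain ⟨z, hz, hmax⟩ := hQc.exists_isMaxOn ⟨0, hQ0⟩ hGc.continuous.continuousOn
  have hbnd : G z ≤ 0 := by
    by_contra hcon
    rw [not_le] at hcon
    rw [hQ] at hz
    obtain ⟨hz1, hz2⟩ := hz
    rw [mem_closedBall, dist_zero_right] at hz1
    have hz2' : 0 ≤ z j := hz2
    have hzi : ∀ i, |z i| ≤ d := fun i => (norm_le_pi_norm z i).trans hz1
    have hzd : z j ≤ d := (le_abs_self _).trans (hzi j)
    have hφ : 1 / 2 * (f z - f (rfl3 j z)) ≤ S := by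
      have h1 := abs_le.1 (hS z hz1)
      have h2 := abs_le.1 (hS _ (hr z hz1))
      linarith [h1.2, h2.1]
    have hd2 : 0 < d ^ 2 := by positivity
    have hjj : 0 ≤ d * z j - z j ^ 2 := by nlinarith
    have hψ : S / d ^ 2 * (q2 z + 3 * (d * z j - z j ^ 2)) ≤ psiB S N' d j z := by
      unfold psiB
      have := mul_nonneg (by positivity : 0 ≤ N' / 2) hjj
      linarith
    -- not on the face
    have hzj : z j ≠ 0 := by
      intro h0
      have h1 : rfl3 j z = z := by
        funext i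
        rw [rfl3_apply]
        split_ifs with h
        · subst h; rw [h0]; simp
        · rfl
      have h2 : G z = - psiB S N' d j z := by
        rw [hG]
        show 1 / 2 * (f z - f (rfl3 j z)) - psiB S N' d j z = _
        rw [h1]
        ring
      have h3 : 0 ≤ S / d ^ 2 * (q2 z + 3 * (d * z j - z j ^ 2)) := by
        have := q2_nonneg z
        positivity
      linarith
    have hlt : ∀ i, |z i| < d := by
      intro i
      rcases eq_or_lt_of_le (hzi i) with h | h
      · exfalso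
        have h5 : d ^ 2 ≤ q2 z + 3 * (d * z j - z j ^ 2) := by
          have h6 := sq_le_q2 z i
          have h7 : z i ^ 2 = d ^ 2 := by rw [← sq_abs, h]
          by_cases hij : i = j
          · subst hij
            nlinarith
          · have h8 : z i ^ 2 + z j ^ 2 ≤ q2 z := by
              unfold q2
              have := Finset.sum_le_sum_of_subset_of_nonneg (s := {i, j}) (t := Finset.univ)
                (f := fun i => z i ^ 2) (Finset.subset_univ _) (fun _ _ _ => sq_nonneg _)
              rw [Finset.sum_pair hij] at this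
              exact this
            nlinarith
        have h6 : S ≤ S / d ^ 2 * (q2 z + 3 * (d * z j - z j ^ 2)) := by
          calc S = S / d ^ 2 * d ^ 2 := by field_simp
            _ ≤ _ := mul_le_mul_of_nonneg_left h5 (by positivity)
        have h7 : G z = 1 / 2 * (f z - f (rfl3 j z)) - psiB S N' d j z := by rw [hG]
        linarith
      · exact h
    have hopen : IsOpen (ball (0 : V) d ∩ {x : V | 0 < x j}) :=
      isOpen_ball.inter (isOpen_lt continuous_const (continuous_apply j))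
    have hzin : z ∈ ball (0 : V) d ∩ {x : V | 0 < x j} := by
      refine ⟨?_, lt_of_le_of_ne hz2' (Ne.symm hzj)⟩
      rw [mem_ball, dist_zero_right, pi_norm_lt_iff hd]
      exact hlt
    have hloc : IsLocalMax G z := by
      filter_upwards [hopen.mem_nhds hzin] with y hy
      apply hmax
      rw [hQ]
      have hy2 : 0 < y j := hy.2
      exact ⟨ball_subset_closedBall hy.1, hy2.le⟩
    have h1 := (max_pt hGc hloc).2
    have h2 : lap G z = 1 / 2 * (lap f z - lap f (rfl3 j z)) + N' := by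
      rw [hG]
      rw [lap_sub2 (f := fun x => 1 / 2 * (f x - f (rfl3 j x))) (contDiff_const.mul (hf.sub hfr))
        (psiB_cd S N' d j), psiB_lap]
      have h3 : lap (fun x => 1 / 2 * (f x - f (rfl3 j x))) z
          = 1 / 2 * lap (fun x => f x - f (rfl3 j x)) z := by
        have := lap_sc (f := fun x => f x - f (rfl3 j x)) (1 / 2) 1 (x := z) (hf.sub hfr)
        simpa using this
      rw [h3, lap_sub2 hf hfr, lap_rfl hf]
      ring
    have h3 := abs_le.1 (hN z hz1)
    have h4 := abs_le.1 (hN _ (hr z hz1))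
    linarith [h3.1, h4.2]
  -- the derivative
  have hG0 : ∀ s ∈ Icc 0 d, G (s • (Pi.single j 1 : V)) ≤ 0 := by
    intro s hs
    refine (hmax ?_).trans hbnd
    rw [hQ]
    refine ⟨?_, ?_⟩
    · rw [mem_closedBall, dist_zero_right, norm_smul, Real.norm_of_nonneg hs.1]
      have : ‖(Pi.single j 1 : V)‖ ≤ 1 := by
        rw [pi_norm_le_iff_of_nonneg zero_le_one]
        intro i
        rw [Pi.single_apply]
        split_ifs <;> simp
      nlinarith [hs.1, hs.2]
    · show 0 ≤ (s • (Pi.single j 1 : V)) j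
      simp [hs.1]
  have hder : HasDerivAt (fun s : ℝ => G (s • (Pi.single j 1 : V))) (pd j G 0) 0 := by
    have h1 : HasDerivAt (fun s : ℝ => s • (Pi.single j 1 : V)) (Pi.single j 1) 0 := by
      simpa using (hasDerivAt_id (0 : ℝ)).smul_const (Pi.single j 1 : V)
    have h2 : HasFDerivAt G (fderiv ℝ G 0) ((0 : ℝ) • (Pi.single j 1 : V)) := by
      rw [zero_smul]
      exact (hGc.differentiable (by norm_num) 0).hasFDerivAt
    exact h2.comp_hasDerivAt 0 h1
  have hG00 : G 0 = 0 := by
    rw [hG]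
    have h1 : rfl3 j (0 : V) = 0 := by
      funext i
      rw [rfl3_apply]
      simp
    show 1 / 2 * (f 0 - f (rfl3 j 0)) - psiB S N' d j 0 = 0
    rw [h1]
    unfold psiB q2
    simp
  have hle : pd j G 0 ≤ 0 := by
    have hsl := hder.hasDerivWithinAt (s := Ioi 0)
    rw [hasDerivWithinAt_iff_tendsto_slope' (by simp)] at hsl
    apply le_of_tendsto hsl
    filter_upwards [Ioo_mem_nhdsGT hd] with s hs
    rw [slope_def_field, zero_smul, hG00, sub_zero, sub_zero]
    exact div_nonpos_of_nonpos_of_nonneg (hG0 s ⟨hs.1.le, hs.2.le⟩) hs.1.le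
  have hval : pd j G 0 = pd j f 0 - (3 * (S / d ^ 2) + N' / 2) * d := by
    have h1 : pd j G 0 = pd j (fun x => 1 / 2 * (f x - f (rfl3 j x))) 0 - pd j (psiB S N' d j) 0 := by
      rw [hG]
      exact pd_sub2 (f := fun x => 1 / 2 * (f x - f (rfl3 j x))) (contDiff_const.mul (hf.sub hfr))
        (psiB_cd S N' d j) j 0
    have h2 : pd j (fun x => 1 / 2 * (f x - f (rfl3 j x))) 0
        = 1 / 2 * pd j (fun x => f x - f (rfl3 j x)) 0 := by
      unfold pd
      rw [fderiv_const_mul ((hf.sub hfr).differentiable (by norm_num) 0)]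
      rfl
    have h3 : rfl3 j (0 : V) = 0 := by
      funext i
      rw [rfl3_apply]
      simp
    rw [h1, h2, pd_sub2 hf hfr, pd_rfl (hf.differentiable (by norm_num)), h3, psiB_pd]
    simp
    ring
  rw [hval] at hle
  have e : (3 * (S / d ^ 2) + N' / 2) * d = 3 * S / d + d / 2 * N' := by
    field_simp
  linarith

/-- The gradient estimate. -/
theorem grad_bd {f : V → ℝ} (hf : ContDiff ℝ 2 f) {d S N : ℝ} (hd : 0 < d) {a : V}
    (hS : ∀ x : V, ‖x - a‖ ≤ d → |f x| ≤ S) (hN : ∀ x : V, ‖x - a‖ ≤ d → |lap f x| ≤ N)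
    (j : Fin 3) : |pd j f a| ≤ 3 * S / d + d / 2 * N := by
  have hS0 : 0 ≤ S := (abs_nonneg _).trans (hS a (by rw [sub_self, norm_zero]; exact hd.le))
  obtain ⟨g, hg⟩ : ∃ g : V → ℝ, g = fun y => f (a + y) := ⟨_, rfl⟩
  have hgc : ContDiff ℝ 2 g := by
    rw [hg]
    exact hf.comp (contDiff_const.add contDiff_id)
  have hpd : ∀ (F : V → ℝ) (i : Fin 3) (y : V), pd i (fun y => F (a + y)) y = pd i F (a + y) := by
    intro F i y
    unfold pd
    rw [fderiv_comp_add_left]
  have hlap : ∀ y, lap g y = lap f (a + y) := by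
    intro y
    unfold lap
    refine Finset.sum_congr rfl fun i _ => ?_
    have h1 : pd i g = fun y => pd i f (a + y) := by
      funext z
      rw [hg]
      exact hpd f i z
    rw [h1]
    exact hpd (pd i f) i y
  have hg0 : pd j g 0 = pd j f a := by
    rw [hg, hpd, add_zero]
  have hS' : ∀ x : V, ‖x‖ ≤ d → |g x| ≤ S := by
    intro x hx
    rw [hg]
    exact hS (a + x) (by rwa [add_sub_cancel_left])
  have hN' : ∀ x : V, ‖x‖ ≤ d → |lap g x| ≤ N := by
    intro x hx
    rw [hlap]
    exact hN (a + x) (by rwa [add_sub_cancel_left])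
  rw [← hg0, abs_le]
  constructor
  · have h1 : pd j (fun y => - g y) 0 = - pd j g 0 := by
      rw [Pool.Agent.TH305.DR.pd_neg']
    have h2 : ∀ x, lap (fun y => - g y) x = - lap g x := by
      intro x
      unfold lap
      rw [← Finset.sum_neg_distrib]
      refine Finset.sum_congr rfl fun i _ => ?_
      rw [Pool.Agent.TH305.DR.pd_neg' g i, Pool.Agent.TH305.DR.pd_neg' (pd i g) i]
    have h3 : - pd j g 0 ≤ 3 * S / d + d / 2 * N := by
      rw [← h1]
      apply le_of_forall_pos_le_add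
      intro ε hε
      have h4 := grad_aux (f := fun y => - g y) hgc.neg (N := N) (N' := N + ε * (2 / d)) hd hS0
        (fun x hx => by rw [abs_neg]; exact hS' x hx) (fun x hx => by rw [h2, abs_neg]; exact hN' x hx)
        (by have : 0 < ε * (2 / d) := by positivity
            linarith) j
      refine h4.trans (le_of_eq ?_)
      field_simp
      ring
    linarith
  · apply le_of_forall_pos_le_add
    intro ε hε
    have h4 := grad_aux hgc (N := N) (N' := N + ε * (2 / d)) hd hS0 hS' hN'
      (by have : 0 < ε * (2 / d) := by positivity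
          linarith) j
    refine h4.trans (le_of_eq ?_)
    field_simp
    ring

end Pool.Agent.H305.TI
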