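import Pool.Agent.H305.TI.Unif

/-!
Scale invariant bounds of the derivatives of the pressure and of the derivative in time.
-/

set_option autoImplicit false

open MeasureTheory Set Metric Filter Topology
open scoped ContDiff

namespace Pool.Agent.H305.TI

open H459R3.NS W221.NS Pool.Agent.V1183.PM
open Pool.Agent.TH305.DR (Om bb SS SS_zero SS_succ SS_one SS_nonneg SV ST ST_nonneg SV_nonneg om_sm
  bb_sm pd_congr_open pd_const' pd_sum' SS_scale SS_congr_open pd_sub' pd_add' pd_neg' SS_le_succ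
  SS_sum3 SS_mul SS_add SS_sub SS_neg)
open Pool.Agent.W583.MD (sm_pd cs_pd pd_mul')
open Pool.Agent.W22.ME.TD (pd_comm)

lemma lap_sm {f : V → ℝ} (hf : ContDiff ℝ ∞ f) : ContDiff ℝ ∞ (lap f) := by
  unfold lap
  exact ContDiff.sum fun i _ => sm_pd (sm_pd hf i) i

lemma lap_pd {f : V → ℝ} (hf : ContDiff ℝ ∞ f) (i : Fin 3) : lap (pd i f) = pd i (lap f) := by
  funext x
  unfold lap
  have h := congrFun (pd_sum' Finset.univ (f := fun j => pd j (pd j f))
    (fun j => sm_pd (sm_pd hf j) j) i) x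
  rw [h]
  refine Finset.sum_congr rfl fun j _ => ?_
  rw [pd_comm (sm_pd hf j) i j, pd_comm hf i j]

/-- The gradient estimate for derivatives of all orders. -/
lemma SS_grad (n : ℕ) : ∀ {f : V → ℝ}, ContDiff ℝ ∞ f → ∀ {d S N : ℝ} {x : V}, 0 < d → 0 ≤ S →
    0 ≤ N → (∀ y, ‖y - x‖ ≤ d → SS n f y ≤ S ^ 2) → (∀ y, ‖y - x‖ ≤ d → SS n (lap f) y ≤ N ^ 2) →
      SS (n + 1) f x ≤ 3 ^ (n + 1) * (3 * S / d + d / 2 * N) ^ 2 := by
  induction n with
  | zero =>
    intro f hf d S N x hd hS hN h1 h2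
    have h3 : ∀ j, pd j f x ^ 2 ≤ (3 * S / d + d / 2 * N) ^ 2 := by
      intro j
      have h4 := grad_bd (hf.of_le (by norm_cast)) hd
        (fun y hy => abs_le_of_sq_le_sq (h1 y hy) hS) (fun y hy => abs_le_of_sq_le_sq (h2 y hy) hN) j
      rw [← sq_abs (pd j f x)]
      exact pow_le_pow_left₀ (abs_nonneg _) h4 2
    rw [SS_one, Fin.sum_univ_three]
    have := h3 0
    have := h3 1
    have := h3 2
    norm_num
    linarith
  | succ n ih =>
    intro f hf d S N x hd hS hN h1 h2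
    rw [SS_succ]
    have h3 : ∀ i, SS (n + 1) (pd i f) x ≤ 3 ^ (n + 1) * (3 * S / d + d / 2 * N) ^ 2 := by
      intro i
      refine ih (sm_pd hf i) hd hS hN (fun y hy => (SS_le_succ n f y i).trans (h1 y hy))
        (fun y hy => ?_)
      rw [lap_pd hf i]
      exact (SS_le_succ n (lap f) y i).trans (h2 y hy)
    rw [Fin.sum_univ_three]
    have e : (3 : ℝ) ^ (n + 1 + 1) = 3 * 3 ^ (n + 1) := by ring
    rw [e]
    have := h3 0
    have := h3 1
    have := h3 2
    linarith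

/-- Bounds of the derivatives of the velocity, including the order zero. -/
theorem derV {M : ℝ} (hM : 0 < M) (NN : ℕ) : ∃ D : ℝ, 0 < D ∧ ∀ (T L : ℝ) (u : ℝ → V → V)
    (p : ℝ → V → ℝ), TG M T L u p → ∀ t x, t < T → 2 * (T - t) ≤ T → 24 * √(T - t) ≤ L →
      ‖x‖ ≤ L / 2 → ∀ n ≤ NN, ∀ i, (T - t) ^ (n + 1) * SS n (fun y => u t y i) x ≤ D := by
  obtain ⟨D, hD, h⟩ := derU hM NN
  refine ⟨D + M ^ 2, by positivity, ?_⟩
  intro T L u p hTG t x htT ht2 hL hx n hn i
  have hθ : 0 < T - t := by linarith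
  rcases Nat.eq_zero_or_pos n with h0 | h0
  · subst h0
    rw [SS_zero, zero_add, pow_one]
    have hx2 : x ∈ ball (0 : V) L := by
      rw [mem_ball, dist_zero_right]
      have : 0 < √(T - t) := Real.sqrt_pos.2 hθ
      linarith
    have h1 := (hTG.u_bd (t := t) (x := x) ⟨by linarith, htT⟩ hx2 (q := √(T - t))
      (Real.sqrt_pos.2 hθ) (by rw [Real.sq_sqrt hθ.le]; linarith)).1
    have h2 : |u t x i| ≤ M / √(T - t) := (norm_le_pi_norm (u t x) i).trans h1
    have h3 : (u t x i) ^ 2 ≤ M ^ 2 / (T - t) := by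
      have h4 := pow_le_pow_left₀ (abs_nonneg _) h2 2
      rw [sq_abs, div_pow, Real.sq_sqrt hθ.le] at h4
      exact h4
    calc (T - t) * (u t x i) ^ 2 ≤ (T - t) * (M ^ 2 / (T - t)) :=
          mul_le_mul_of_nonneg_left h3 hθ.le
      _ = M ^ 2 := by field_simp
      _ ≤ _ := by linarith
  · obtain ⟨m, hm⟩ : ∃ m, n = m + 1 := ⟨n - 1, by omega⟩
    subst hm
    have h1 := (h T L u p hTG t x htT ht2 hL hx m (by omega)).2
    have h2 : SS (m + 1) (fun y => u t y i) x ≤ SV (m + 1) (u t) x :=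
      Finset.single_le_sum (f := fun i => SS (m + 1) (fun y => u t y i) x)
        (fun _ _ => SS_nonneg _ _ _) (Finset.mem_univ i)
    have h3 : (T - t) ^ (m + 1 + 1) * SS (m + 1) (fun y => u t y i) x
        ≤ (T - t) ^ (m + 2) * SV (m + 1) (u t) x :=
      mul_le_mul_of_nonneg_left h2 (by positivity)
    have : 0 ≤ M ^ 2 := by positivity
    linarith

/-- A product of scale invariant quantities. -/
lemma SS_prod {f g : V → ℝ} (hf : ContDiff ℝ ∞ f) (hg : ContDiff ℝ ∞ g) {θ D : ℝ} (hθ : 0 < θ)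
    (hD : 0 ≤ D) {a b n : ℕ} {x : V}
    (h1 : ∀ m ≤ n, θ ^ (m + a) * SS m f x ≤ D) (h2 : ∀ m ≤ n, θ ^ (m + b) * SS m g x ≤ D) :
    θ ^ (n + a + b) * SS n (fun y => f y * g y) x ≤ 4 ^ n * ((n + 1) * D ^ 2) := by
  have h3 := SS_mul n hf hg x
  have h4 : θ ^ (n + a + b) * ∑ m ∈ Finset.range (n + 1), SS m f x * SS (n - m) g x
      ≤ (n + 1) * D ^ 2 := by
    rw [Finset.mul_sum]
    have h5 : ∀ m ∈ Finset.range (n + 1), θ ^ (n + a + b) * (SS m f x * SS (n - m) g x) ≤ D ^ 2 := by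
      intro m hm
      have hmn : m ≤ n := Nat.lt_succ_iff.1 (Finset.mem_range.1 hm)
      have e : θ ^ (n + a + b) = θ ^ (m + a) * θ ^ (n - m + b) := by
        rw [← pow_add]
        congr 1
        omega
      rw [e]
      calc θ ^ (m + a) * θ ^ (n - m + b) * (SS m f x * SS (n - m) g x)
          = (θ ^ (m + a) * SS m f x) * (θ ^ (n - m + b) * SS (n - m) g x) := by ring
        _ ≤ D * D := mul_le_mul (h1 m hmn) (h2 _ (by omega))
            (mul_nonneg (by positivity) (SS_nonneg _ _ _)) hD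
        _ = D ^ 2 := by ring
    refine (Finset.sum_le_card_nsmul _ _ _ h5).trans (le_of_eq ?_)
    simp
  calc θ ^ (n + a + b) * SS n (fun y => f y * g y) x
      ≤ θ ^ (n + a + b) * (4 ^ n * ∑ m ∈ Finset.range (n + 1), SS m f x * SS (n - m) g x) :=
        mul_le_mul_of_nonneg_left h3 (by positivity)
    _ = 4 ^ n * (θ ^ (n + a + b) * ∑ m ∈ Finset.range (n + 1), SS m f x * SS (n - m) g x) := by ring
    _ ≤ _ := mul_le_mul_of_nonneg_left h4 (by positivity)

/-- Bounds of the derivatives of the pressure. -/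
theorem derP {M : ℝ} (hM : 0 < M) (NN : ℕ) : ∃ D : ℝ, 0 < D ∧ ∀ (T L : ℝ) (u : ℝ → V → V)
    (p : ℝ → V → ℝ), TG M T L u p → ∀ t x, t < T → 2 * (T - t) ≤ T → 24 * √(T - t) ≤ L →
      ‖x‖ + NN * √(T - t) ≤ L / 2 → ∀ n ≤ NN, (T - t) ^ (n + 2) * SS n (p t) x ≤ D := by
  induction NN with
  | zero =>
    refine ⟨M ^ 4, by positivity, ?_⟩
    intro T L u p hTG t x htT ht2 hL hx n hn
    have hn0 : n = 0 := by omega
    subst hn0
    have hθ : 0 < T - t := by linarith
    have hx2 : x ∈ ball (0 : V) L := by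
      rw [mem_ball, dist_zero_right]
      have : 0 < √(T - t) := Real.sqrt_pos.2 hθ
      simp at hx
      linarith
    have h1 := (hTG.u_bd (t := t) (x := x) ⟨by linarith, htT⟩ hx2 (q := √(T - t))
      (Real.sqrt_pos.2 hθ) (by rw [Real.sq_sqrt hθ.le]; linarith)).2.2
    rw [div_pow, Real.sq_sqrt hθ.le] at h1
    rw [SS_zero, zero_add]
    have h2 := pow_le_pow_left₀ (abs_nonneg _) h1 2
    rw [sq_abs] at h2
    calc (T - t) ^ 2 * p t x ^ 2 ≤ (T - t) ^ 2 * (M ^ 2 / (T - t)) ^ 2 :=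
          mul_le_mul_of_nonneg_left h2 (by positivity)
      _ = M ^ 4 := by
          field_simp
  | succ NN ih =>
    obtain ⟨D, hD, h⟩ := ih
    obtain ⟨E, hE, hV⟩ := derV hM (NN + 1)
    -- the Laplacian of the pressure
    obtain ⟨C, hC⟩ : ∃ C : ℝ, C = 16 * (9 * (4 ^ NN * ((NN + 1) * E ^ 2))) := ⟨_, rfl⟩
    have hC0 : 0 ≤ C := by rw [hC]; positivity
    refine ⟨D + 3 ^ (NN + 1) * (3 * √D + 1 / 2 * √C) ^ 2, by positivity, ?_⟩
    intro T L u p hTG t x htT ht2 hL hx n hn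
    obtain ⟨θ, hθe⟩ : ∃ θ, θ = T - t := ⟨_, rfl⟩
    rw [← hθe] at ht2 hL hx ⊢
    have hθ : 0 < θ := by linarith
    have hs : 0 < √θ := Real.sqrt_pos.2 hθ
    have hs2 : √θ ^ 2 = θ := Real.sq_sqrt hθ.le
    push_cast at hx
    have hpos2 : 0 ≤ 3 ^ (NN + 1) * (3 * √D + 1 / 2 * √C) ^ 2 := by positivity
    rcases Nat.lt_or_ge n (NN + 1) with hn1 | hn1
    · have h1 := h T L u p hTG t x htT (by rw [← hθe]; exact ht2) (by rw [← hθe]; exact hL)
        (by rw [← hθe]; linarith) n (by omega)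
      rw [← hθe] at h1
      linarith
    have hn2 : n = NN + 1 := by omega
    subst hn2
    have hx0 : ‖x‖ ≤ L / 2 := by
      have : 0 ≤ (NN : ℝ) * √θ := by positivity
      linarith
    have ht0 : t ∈ Ioo 0 T := ⟨by linarith, htT⟩
    have hps : ContDiff ℝ ∞ (p t) := hTG.jp.slice ht0
    have hus := hTG.sl ht0
    have hL0 : 0 < L := by linarith
    have hlapb : ∀ y, ‖y - x‖ ≤ √θ → SS NN (lap (p t)) y ≤ (√(C / θ ^ (NN + 4))) ^ 2 := by
      intro y hy
      have hyn : ‖y‖ ≤ ‖x‖ + √θ := by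
        calc ‖y‖ = ‖(y - x) + x‖ := by congr 1; abel
          _ ≤ ‖y - x‖ + ‖x‖ := norm_add_le _ _
          _ ≤ _ := by linarith
      have hy2 : ‖y‖ ≤ L / 2 := by
        have : 0 ≤ (NN : ℝ) * √θ := by positivity
        linarith
      have hyL : y ∈ ball (0 : V) L := by
        rw [mem_ball, dist_zero_right]
        linarith
      rw [Real.sq_sqrt (by positivity), le_div_iff₀ (by positivity), mul_comm]
      have e1 : SS NN (lap (p t)) y = SS NN (fun y => ∑ i, ∑ j, pd i (fun w => u t w j) y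
          * pd j (fun w => u t w i) y) y := by
        rw [← SS_neg]
        refine SS_congr_open NN isOpen_ball (fun z hz => ?_) hyL
        rw [hTG.lapP ht0 hz]
        ring
      rw [e1]
      have hdd : ∀ i j, ContDiff ℝ ∞ (fun y => pd i (fun w => u t w j) y
          * pd j (fun w => u t w i) y) := fun i j => (sm_pd (hus j) i).mul (sm_pd (hus i) j)
      have h1 : SS NN (fun y => ∑ i, ∑ j, pd i (fun w => u t w j) y * pd j (fun w => u t w i) y) y
          ≤ 4 * ∑ i, (4 * ∑ j, SS NN (fun y => pd i (fun w => u t w j) y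
            * pd j (fun w => u t w i) y) y) := by
        refine (SS_sum3 NN (f := fun i y => ∑ j, pd i (fun w => u t w j) y
          * pd j (fun w => u t w i) y) (fun i => ContDiff.sum fun j _ => hdd i j) y).trans ?_
        apply mul_le_mul_of_nonneg_left _ (by norm_num)
        exact Finset.sum_le_sum fun i _ => SS_sum3 NN (f := fun j y => pd i (fun w => u t w j) y
            * pd j (fun w => u t w i) y) (fun j => hdd i j) y
      have h2 : ∀ i j, θ ^ (NN + 2 + 2) * SS NN (fun y => pd i (fun w => u t w j) y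
            * pd j (fun w => u t w i) y) y ≤ 4 ^ NN * ((NN + 1) * E ^ 2) := by
        intro i j
        have h3 : ∀ i j, ∀ m ≤ NN, θ ^ (m + 2) * SS m (pd i (fun w => u t w j)) y ≤ E := by
          intro i j m hm
          have h4 := hV T L u p hTG t y htT (by rw [← hθe]; exact ht2) (by rw [← hθe]; exact hL) hy2
            (m + 1) (by omega) j
          rw [← hθe] at h4
          have h5 := SS_le_succ m (fun w => u t w j) y i
          calc θ ^ (m + 2) * SS m (pd i (fun w => u t w j)) y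
              ≤ θ ^ (m + 2) * SS (m + 1) (fun w => u t w j) y :=
                mul_le_mul_of_nonneg_left h5 (by positivity)
            _ ≤ E := h4
        exact SS_prod (sm_pd (hus j) i) (sm_pd (hus i) j) hθ hE.le (h3 i j) (h3 j i)
      have h6 : θ ^ (NN + 4) * (4 * ∑ i, (4 * ∑ j, SS NN (fun y => pd i (fun w => u t w j) y
            * pd j (fun w => u t w i) y) y)) ≤ C := by
        have e2 : θ ^ (NN + 4) * (4 * ∑ i, (4 * ∑ j, SS NN (fun y => pd i (fun w => u t w j) y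
            * pd j (fun w => u t w i) y) y))
            = 16 * ∑ i, ∑ j, θ ^ (NN + 2 + 2) * SS NN (fun y => pd i (fun w => u t w j) y
            * pd j (fun w => u t w i) y) y := by
          simp only [Finset.mul_sum]
          refine Finset.sum_congr rfl fun i _ => Finset.sum_congr rfl fun j _ => ?_
          have : θ ^ (NN + 4) = θ ^ (NN + 2 + 2) := by congr 1
          rw [this]
          ring
        rw [e2, hC]
        apply mul_le_mul_of_nonneg_left _ (by norm_num)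
        have h7 : ∑ i : Fin 3, ∑ j : Fin 3, θ ^ (NN + 2 + 2) * SS NN (fun y => pd i (fun w => u t w j) y
            * pd j (fun w => u t w i) y) y ≤ ∑ i : Fin 3, ∑ j : Fin 3, 4 ^ NN * ((NN + 1) * E ^ 2) :=
          Finset.sum_le_sum fun i _ => Finset.sum_le_sum fun j _ => h2 i j
        refine h7.trans (le_of_eq ?_)
        simp
        ring
      exact (mul_le_mul_of_nonneg_left h1 (by positivity)).trans h6
    have hpb : ∀ y, ‖y - x‖ ≤ √θ → SS NN (p t) y ≤ (√(D / θ ^ (NN + 2))) ^ 2 := by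
      intro y hy
      have hyn : ‖y‖ ≤ ‖x‖ + √θ := by
        calc ‖y‖ = ‖(y - x) + x‖ := by congr 1; abel
          _ ≤ ‖y - x‖ + ‖x‖ := norm_add_le _ _
          _ ≤ _ := by linarith
      rw [Real.sq_sqrt (by positivity), le_div_iff₀ (by positivity), mul_comm]
      have h1 := h T L u p hTG t y htT (by rw [← hθe]; exact ht2) (by rw [← hθe]; exact hL)
        (by rw [← hθe]; linarith) NN le_rfl
      rw [← hθe] at h1
      exact h1
    have hg := SS_grad NN hps hs (Real.sqrt_nonneg _) (Real.sqrt_nonneg _) hpb hlapb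
    have e3 : 3 * √(D / θ ^ (NN + 2)) / √θ + √θ / 2 * √(C / θ ^ (NN + 4))
        = (3 * √D + 1 / 2 * √C) / √(θ ^ (NN + 3)) := by
      have s1 : √(θ ^ (NN + 3)) = √(θ ^ (NN + 2)) * √θ := by
        rw [← Real.sqrt_mul (by positivity)]
        congr 1
      have s2 : √(θ ^ (NN + 4)) = √(θ ^ (NN + 2)) * θ := by
        have : θ ^ (NN + 4) = θ ^ (NN + 2) * θ ^ 2 := by ring
        rw [this, Real.sqrt_mul (by positivity), Real.sqrt_sq hθ.le]
      rw [Real.sqrt_div hD.le, Real.sqrt_div hC0, s1, s2]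
      have s3 : 0 < √(θ ^ (NN + 2)) := Real.sqrt_pos.2 (by positivity)
      have s4 : θ = √θ * √θ := by rw [← pow_two, hs2]
      rw [div_add' _ _ _ hs.ne', div_eq_div_iff (by positivity) (by positivity)]
      field_simp
      rw [hs2]
      ring
    rw [e3, div_pow, Real.sq_sqrt (by positivity)] at hg
    have e4 : θ ^ (NN + 1 + 2) * SS (NN + 1) (p t) x
        ≤ 3 ^ (NN + 1) * (3 * √D + 1 / 2 * √C) ^ 2 := by
      calc θ ^ (NN + 1 + 2) * SS (NN + 1) (p t) x
          ≤ θ ^ (NN + 3) * (3 ^ (NN + 1) * ((3 * √D + 1 / 2 * √C) ^ 2 / θ ^ (NN + 3))) :=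
            mul_le_mul_of_nonneg_left hg (by positivity)
        _ = _ := by field_simp
    linarith

lemma SS_lap_le (n : ℕ) {f : V → ℝ} (hf : ContDiff ℝ ∞ f) (x : V) :
    SS n (lap f) x ≤ 4 * SS (n + 2) f x := by
  have h1 : SS n (lap f) x ≤ 4 * ∑ i, SS n (pd i (pd i f)) x :=
    SS_sum3 n (f := fun i => pd i (pd i f)) (fun i => sm_pd (sm_pd hf i) i) x
  refine h1.trans ?_
  apply mul_le_mul_of_nonneg_left _ (by norm_num)
  rw [SS_succ]
  exact Finset.sum_le_sum fun i _ => SS_le_succ n (pd i f) x i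

/-- Bounds of the derivatives of the derivative in time. -/
theorem derT {M : ℝ} (hM : 0 < M) (NN : ℕ) : ∃ D : ℝ, 0 < D ∧ ∀ (T L : ℝ) (u : ℝ → V → V)
    (p : ℝ → V → ℝ), TG M T L u p → ∀ t x, t < T → 2 * (T - t) ≤ T → 24 * √(T - t) ≤ L →
      ‖x‖ + (NN + 1) * √(T - t) ≤ L / 2 → ∀ n ≤ NN, ∀ i,
        (T - t) ^ (n + 3) * SS n (fun y => deriv (fun s => u s y i) t) x ≤ D := by
  obtain ⟨D, hD, hP⟩ := derP hM (NN + 1)
  obtain ⟨E, hE, hV⟩ := derV hM (NN + 2)
  refine ⟨16 * E + 32 * (3 * (4 ^ NN * ((NN + 1) * E ^ 2))) + 4 * D, by positivity, ?_⟩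
  intro T L u p hTG t x htT ht2 hL hx n hn i
  obtain ⟨θ, hθe⟩ : ∃ θ, θ = T - t := ⟨_, rfl⟩
  have hx' : ‖x‖ + ((NN + 1 : ℕ) : ℝ) * √(T - t) ≤ L / 2 := by
    push_cast
    exact hx
  have hs0 : 0 ≤ ((NN : ℝ) + 1) * √(T - t) := by positivity
  have hP' := hP T L u p hTG t x htT ht2 hL hx'
  have hx0 : ‖x‖ ≤ L / 2 := by linarith
  have hV' := hV T L u p hTG t x htT ht2 hL hx0
  rw [← hθe] at ht2 hL hx hP' hV' ⊢
  have hθ : 0 < θ := by linarith
  have hL0 : 0 < L := by
    have : 0 < √θ := Real.sqrt_pos.2 hθ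
    linarith
  have ht0 : t ∈ Ioo 0 T := ⟨by linarith, htT⟩
  have hxL : x ∈ ball (0 : V) L := by
    rw [mem_ball, dist_zero_right]
    linarith
  have hps : ContDiff ℝ ∞ (p t) := hTG.jp.slice ht0
  have hus := hTG.sl ht0
  have e1 : SS n (fun y => deriv (fun s => u s y i) t) x
      = SS n (fun y => (lap (fun w => u t w i) y - ∑ j, u t y j * pd j (fun w => u t w i) y)
        - pd i (p t) y) x := by
    refine SS_congr_open n isOpen_ball (fun z hz => ?_) hxL
    have := hTG.mom t ht0 z hz i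
    unfold adv at this
    linarith
  have c1 : ContDiff ℝ ∞ (lap (fun w => u t w i)) := lap_sm (hus i)
  have c2 : ∀ j, ContDiff ℝ ∞ (fun y => u t y j * pd j (fun w => u t w i) y) := fun j =>
    (hus j).mul (sm_pd (hus i) j)
  have c2' : ContDiff ℝ ∞ (fun y => ∑ j, u t y j * pd j (fun w => u t w i) y) :=
    ContDiff.sum fun j _ => c2 j
  have b1 := SS_sub n (c1.sub c2') (sm_pd hps i) x
  have b2 := SS_sub n c1 c2' x
  have b3 := SS_lap_le n (hus i) x
  have b4 := SS_sum3 n c2 x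
  have b5 := SS_le_succ n (p t) x i
  have d1 : θ ^ (n + 3) * SS (n + 2) (fun w => u t w i) x ≤ E := hV' (n + 2) (by omega) i
  have d2 : θ ^ (n + 3) * SS (n + 1) (p t) x ≤ D := hP' (n + 1) (by omega)
  have d3 : ∀ j, θ ^ (n + 3) * SS n (fun y => u t y j * pd j (fun w => u t w i) y) x
      ≤ 4 ^ NN * ((NN + 1) * E ^ 2) := by
    intro j
    have h1 := SS_prod (hus j) (sm_pd (hus i) j) hθ hE.le (a := 1) (b := 2) (n := n) (x := x)
      (fun m hm => hV' m (by omega) j) (fun m hm => by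
        have h4 := hV' (m + 1) (by omega) i
        have h5 := SS_le_succ m (fun w => u t w i) x j
        calc θ ^ (m + 2) * SS m (pd j (fun w => u t w i)) x
            ≤ θ ^ (m + 2) * SS (m + 1) (fun w => u t w i) x :=
              mul_le_mul_of_nonneg_left h5 (by positivity)
          _ ≤ E := h4)
    have e : θ ^ (n + 3) = θ ^ (n + 1 + 2) := by congr 1
    rw [e]
    refine h1.trans ?_
    have h2 : (4 : ℝ) ^ n ≤ 4 ^ NN := pow_le_pow_right₀ (by norm_num) hn
    have h3 : (n : ℝ) ≤ NN := by exact_mod_cast hn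
    gcongr
  have hp0 : 0 ≤ θ ^ (n + 3) := by positivity
  have f1 := mul_le_mul_of_nonneg_left b1 hp0
  have f2 := mul_le_mul_of_nonneg_left b2 hp0
  have f3 := mul_le_mul_of_nonneg_left b3 hp0
  have f4 := mul_le_mul_of_nonneg_left b4 hp0
  have f5 := mul_le_mul_of_nonneg_left b5 hp0
  have f6 : θ ^ (n + 3) * (4 * ∑ j, SS n (fun y => u t y j * pd j (fun w => u t w i) y) x)
      ≤ 4 * (3 * (4 ^ NN * ((NN + 1) * E ^ 2))) := by
    have : θ ^ (n + 3) * (4 * ∑ j, SS n (fun y => u t y j * pd j (fun w => u t w i) y) x)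
        = 4 * ∑ j, θ ^ (n + 3) * SS n (fun y => u t y j * pd j (fun w => u t w i) y) x := by
      rw [Finset.mul_sum, Finset.mul_sum, Finset.mul_sum]
      exact Finset.sum_congr rfl fun j _ => by ring
    rw [this, Fin.sum_univ_three]
    linarith [d3 0, d3 1, d3 2]
  have hE2 : 0 ≤ 4 ^ NN * (((NN : ℝ) + 1) * E ^ 2) := by positivity
  rw [e1]
  linarith

end Pool.Agent.H305.TI
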