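import Pool.Agent.H305.TI.Dyn2
import Pool.Graph.R_pool_sql_team_seeded_843ab51a.Results.MP_6bf1e5_an.PressureMonotone

/-!
Rescaled sequences of local solutions.
-/

set_option autoImplicit false

open MeasureTheory Set Metric Filter Topology
open scoped ContDiff ENNReal

namespace Pool.Agent.H305.TI

open H459R3.NS W221.NS Pool.Agent.V1183.PM
open Pool.Agent.TH305.DR (Om Cut exists_cut)
open Pool.Agent.Results.MP_6bf1e5_an.PressureMonotone (TypeI Reg tg reg_of)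

/-- Lower bound of the integral of the negative part. -/
lemma low_box {G : ℝ → V → ℝ} {I : Set ℝ} {B : Set V} {t₀ a ρ δ : ℝ} {x₀ : V}
    (hρ : 0 < ρ) (hI : Icc (t₀ - a) (t₀ + a) ⊆ I) (hB : ball x₀ ρ ⊆ B)
    (hG : ∀ t ∈ Icc (t₀ - a) (t₀ + a), ∀ x ∈ ball x₀ ρ, G t x ≤ -δ) (hδ : 0 ≤ δ) :
    ENNReal.ofReal (δ * (2 * ρ) ^ 3 * (2 * a)) ≤ ∫⁻ t in I, ∫⁻ x in B, ENNReal.ofReal (-(G t x)) := by
  have h1 : ∀ t ∈ Icc (t₀ - a) (t₀ + a), ENNReal.ofReal (δ * (2 * ρ) ^ 3)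
      ≤ ∫⁻ x in B, ENNReal.ofReal (-(G t x)) := by
    intro t ht
    refine le_trans ?_ (lintegral_mono_set hB)
    have h2 : ∫⁻ _x in ball x₀ ρ, ENNReal.ofReal δ ≤ ∫⁻ x in ball x₀ ρ, ENNReal.ofReal (-(G t x)) := by
      apply setLIntegral_mono' measurableSet_ball
      intro x hx
      apply ENNReal.ofReal_le_ofReal
      linarith [hG t ht x hx]
    refine le_trans (le_of_eq ?_) h2
    rw [setLIntegral_const, Real.volume_pi_ball _ hρ, ← ENNReal.ofReal_mul hδ]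
    simp
  have h2 : ∫⁻ _t in Icc (t₀ - a) (t₀ + a), ENNReal.ofReal (δ * (2 * ρ) ^ 3)
      ≤ ∫⁻ t in Icc (t₀ - a) (t₀ + a), ∫⁻ x in B, ENNReal.ofReal (-(G t x)) :=
    setLIntegral_mono' measurableSet_Icc h1
  refine le_trans (le_of_eq ?_) (h2.trans (lintegral_mono_set hI))
  rw [setLIntegral_const, Real.volume_Icc, ← ENNReal.ofReal_mul (by positivity)]
  congr 1
  ring

/-- Rescaled data. -/
structure Rs (ν M : ℝ) (T ρ r : ℕ → ℝ) (x₀ : ℕ → V) (u : ℕ → ℝ → V → V) (p : ℕ → ℝ → V → ℝ)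
    (χ : ℕ → V → ℝ) (N : ℕ → ℝ) : Prop where
  ν0 : 0 < ν
  M0 : 0 < M
  sol : ∀ n, TypeI ν M (T n) (ρ n) (x₀ n) (u n) (p n)
  r0 : ∀ n, 0 < r n
  rρ : ∀ n, (n + 1) * r n ≤ ρ n
  rT : ∀ n, (n + 1) * r n ^ 2 ≤ ν * T n
  sg : ∀ n, ¬ Reg (T n) (x₀ n) (u n)
  cut : ∀ n, Cut (ρ n / 2) (3 * ρ n / 4) (N n) (χ n)

/-- The rescaled velocity. -/
noncomputable def ru (ν : ℝ) (r : ℕ → ℝ) (x₀ : ℕ → V) (u : ℕ → ℝ → V → V) (χ : ℕ → V → ℝ) (n : ℕ) :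
    ℝ → V → V := scu (r n) (tru (χ n) ν (x₀ n) (u n))

/-- The rescaled pressure. -/
noncomputable def rp (ν : ℝ) (r : ℕ → ℝ) (x₀ : ℕ → V) (p : ℕ → ℝ → V → ℝ) (χ : ℕ → V → ℝ) (n : ℕ) :
    ℝ → V → ℝ := scf (r n ^ 2) (r n) (tr (χ n) (ν⁻¹ ^ 2) ν (x₀ n) (p n))

/-- The rescaled time. -/
noncomputable def tmR (ν : ℝ) (T r : ℕ → ℝ) (n : ℕ) : ℝ := ν * T n / r n ^ 2

section
variable {ν M : ℝ} {T ρ r : ℕ → ℝ} {x₀ : ℕ → V} {u : ℕ → ℝ → V → V} {p : ℕ → ℝ → V → ℝ}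
  {χ : ℕ → V → ℝ} {N : ℕ → ℝ}

lemma Rs.ρ0 (h : Rs ν M T ρ r x₀ u p χ N) (n : ℕ) : 0 < ρ n := by
  have h1 := h.rρ n
  have h2 := h.r0 n
  have : 0 < ((n : ℝ) + 1) * r n := by positivity
  linarith

lemma Rs.sq (h : Rs ν M T ρ r x₀ u p χ N) : Sq (ν⁻¹ * (1 + √ν) * M) (tmR ν T r)
    (fun n => ρ n / 2 / r n) (ru ν r x₀ u χ) (rp ν r x₀ p χ) where
  tg := fun n => TG.sc (h.r0 n) (tg h.ν0 (h.sol n) (h.ρ0 n) (h.cut n))
  T_top := by
    apply tendsto_atTop_mono (f := fun n : ℕ => (n : ℝ) + 1)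
    · intro n
      unfold tmR
      have := h.r0 n
      rw [le_div_iff₀ (by positivity)]
      exact h.rT n
    · exact tendsto_atTop_add_const_right _ _ tendsto_natCast_atTop_atTop
  L_top := by
    apply tendsto_atTop_mono (f := fun n : ℕ => ((n : ℝ) + 1) / 2)
    · intro n
      have := h.r0 n
      rw [le_div_iff₀ this]
      have := h.rρ n
      linarith
    · apply Tendsto.atTop_div_const (by norm_num)
      exact tendsto_atTop_add_const_right _ _ tendsto_natCast_atTop_atTop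

lemma Rs.sing (h : Rs ν M T ρ r x₀ u p χ N) (n : ℕ) : Sing (tmR ν T r n) (ru ν r x₀ u χ n) 0 := by
  apply sing_sc (h.r0 n)
  by_contra hcon
  exact h.sg n (reg_of h.ν0 (h.ρ0 n) (h.cut n) hcon)

/-- The time in the original variables. -/
lemma tmR_time (h : Rs ν M T ρ r x₀ u p χ N) (n : ℕ) (t : ℝ) :
    ν⁻¹ * (r n ^ 2 * (tmR ν T r n + t)) = T n + r n ^ 2 * t / ν := by
  have h1 := h.ν0
  have h2 := h.r0 n
  unfold tmR
  field_simp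

lemma Rs.val (h : Rs ν M T ρ r x₀ u p χ N) {n : ℕ} {y : V} (hy : y ∈ ball (0 : V) (ρ n / 2 / r n))
    (t : ℝ) (i : Fin 3) : ru ν r x₀ u χ n (tmR ν T r n + t) y i
      = r n / ν * u n (T n + r n ^ 2 * t / ν) (x₀ n + r n • y) i := by
  have h2 := h.r0 n
  have hy2 : r n • y ∈ ball (0 : V) (ρ n / 2) := sc_memL h2 hy
  unfold ru scu tru
  rw [tmR_time h, (h.cut n).one _ hy2]
  field_simp

lemma Rs.grad (h : Rs ν M T ρ r x₀ u p χ N) {n : ℕ} {y : V} (hy : y ∈ ball (0 : V) (ρ n / 2 / r n))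
    {t : ℝ} (ht : tmR ν T r n + t ∈ Ioo 0 (tmR ν T r n)) (i j : Fin 3) :
    pd j (fun z => ru ν r x₀ u χ n (tmR ν T r n + t) z i) y
      = r n ^ 2 / ν * pd j (fun z => u n (T n + r n ^ 2 * t / ν) z i) (x₀ n + r n • y) := by
  have h2 := h.r0 n
  have hy2 : r n • y ∈ ball (0 : V) (ρ n / 2) := sc_memL h2 hy
  have h3 := su_pd h2 (tg h.ν0 (h.sol n) (h.ρ0 n) (h.cut n)) ht y i j
  have h4 : pd j (fun z => tru (χ n) ν (x₀ n) (u n) (r n ^ 2 * (tmR ν T r n + t)) z i) (r n • y)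
      = ν⁻¹ * pd j (fun z => u n (ν⁻¹ * (r n ^ 2 * (tmR ν T r n + t))) z i) (x₀ n + r n • y) :=
    tr_pd (F := fun t x => u n t x i) (h.cut n).one hy2 j
  rw [tmR_time h] at h4
  unfold ru
  rw [h3, h4]
  ring

end

end Pool.Agent.H305.TI
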