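import Pool.Agent.H305.TI.Blow

/-!
An ancient solution which flows nowhere into a spherical shell around a sphere through the singular
point is not singular.
-/

set_option autoImplicit false

open MeasureTheory Set Metric Filter Topology
open scoped ContDiff

namespace Pool.Agent.H305.TI

open H459R3.NS W221.NS Pool.Agent.V1183.PM
open Pool.Agent.W583.MD (sm_pd cs_pd pd_mul')
open Pool.Agent.TH305.DR (Om SS SS_nonneg SS_scale ST pd_neg')

section
variable {M : ℝ} {v : ℝ → V → V}

lemma ST_zero_of {W : V → V} (h : ∀ x, W x = 0) (x : V) : ST 0 W x = 0 := by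
  rw [st0_eq]
  apply Finset.sum_eq_zero
  intro pp _
  have h2 : ∀ i j y, pd i (fun y => W y j) y = 0 := by
    intro i j y
    apply pd_of_zero
    intro y
    rw [h y]
    rfl
  unfold Om
  rw [h2, h2]
  norm_num

/-- The radial vorticity is bounded near the singular point. -/
lemma Anc.g_inner (h : Anc M v) {c : V} {a : ℝ} (ha : 0 < a)
    (hN : ∀ t ∈ Ico (-1 / 2 : ℝ) 0, ∀ x, q2 x < a → hN 1 c (v t) x = 0) :
    ∃ A : ℝ, 0 ≤ A ∧ ∀ t ∈ Ico (-1 / 2 : ℝ) 0, ∀ x, q2 x ≤ a / 2 → |gN 1 c (v t) x| ≤ A := by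
  obtain ⟨D, hD0, hD⟩ := h.g_bd
  have hder : ∀ t ∈ Ico (-1 / 2 : ℝ) 0, ∀ x, q2 x < a → HasDerivAt (fun s => gN 1 c (v s) x)
      (lap (gN 1 c (v t)) x - adv (v t) (gN 1 c (v t)) x) t := by
    intro t ht x hx
    have h1 := h.g_hd 1 c ht.2 x
    have h2 : ∀ j, pd j (Pool.Agent.H305.TI.hN 1 c (v t)) x = 0 := by
      intro j
      have h3 : Pool.Agent.H305.TI.hN 1 c (v t) =ᶠ[𝓝 x] fun _ => (0 : ℝ) := by
        filter_upwards [(q2_cont.continuousAt (x := x)).eventually (gt_mem_nhds hx)] with y hy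
        exact hN t ht y hy
      unfold pd
      rw [h3.fderiv_eq]
      simp
    rw [h2, h2, h2] at h1
    refine h1.congr_deriv ?_
    ring
  have hbd : ∀ t ∈ Ico (-1 / 2 : ℝ) 0, ∀ x, q2 x ≤ a → |gN 1 c (v t) x| * (-t) ≤ (√a + ‖c‖) * D := by
    intro t ht x hx
    have h1 := hD 1 c t ht.2 x
    have ht' : 0 < -t := by linarith [ht.2]
    have h2 : ‖x‖ ≤ √a := Real.le_sqrt_of_sq_le ((norm_sq_le_q2 x).trans hx)
    calc |gN 1 c (v t) x| * (-t) ≤ (|1| * ‖x‖ + ‖c‖) * (D / (-t)) * (-t) :=
          mul_le_mul_of_nonneg_right h1 ht'.le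
      _ = (‖x‖ + ‖c‖) * D := by
          rw [abs_one, one_mul, mul_assoc, div_mul_cancel₀ D ht'.ne']
      _ ≤ _ := mul_le_mul_of_nonneg_right (by linarith) hD0
  have hC : 0 ≤ (√a + ‖c‖) * D := by positivity
  obtain ⟨A1, hA1, k1⟩ := h.bd_inner ha hC (h.g_cont 1 c) (fun t ht => gN_sm (h.sm t ht)) hder
    (fun t ht x hx => by
      have := hbd t ht x hx
      have h2 : gN 1 c (v t) x * (-t) ≤ |gN 1 c (v t) x| * (-t) :=
        mul_le_mul_of_nonneg_right (le_abs_self _) (by linarith [ht.2])
      linarith)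
  obtain ⟨A2, hA2, k2⟩ := h.bd_inner ha hC (g := fun t x => - gN 1 c (v t) x) (h.g_cont 1 c).neg
    (fun t ht => (gN_sm (h.sm t ht)).neg) (fun t ht x hx => by
      have h1 := (hder t ht x hx).neg
      have hg := gN_sm (α := 1) (b := c) (h.sm t ht.2)
      have e1 : ∀ j, pd j (fun y => - gN 1 c (v t) y) = fun y => - pd j (gN 1 c (v t)) y := fun j =>
        pd_neg' _ j
      have e2 : lap (fun y => - gN 1 c (v t) y) x = - lap (gN 1 c (v t)) x := by
        unfold lap
        simp only [e1]
        rw [← Finset.sum_neg_distrib]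
        exact Finset.sum_congr rfl fun j _ => congrFun (pd_neg' _ j) x
      have e3 : adv (v t) (fun y => - gN 1 c (v t) y) x = - adv (v t) (gN 1 c (v t)) x := by
        unfold adv
        simp only [e1]
        rw [← Finset.sum_neg_distrib]
        exact Finset.sum_congr rfl fun j _ => by ring
      refine h1.congr_deriv ?_
      rw [e2, e3]
      ring)
    (fun t ht x hx => by
      have := hbd t ht x hx
      have h2 : - gN 1 c (v t) x * (-t) ≤ |gN 1 c (v t) x| * (-t) :=
        mul_le_mul_of_nonneg_right (neg_le_abs _) (by linarith [ht.2])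
      linarith)
  refine ⟨A1 + A2, by positivity, fun t ht x hx => ?_⟩
  have h1 := k1 t ht x hx
  have h2 := k2 t ht x hx
  exact abs_le.2 ⟨by linarith, by linarith⟩

/-- No tangential flow on spheres around any centre near the singular point. -/
theorem Anc.no_tangent (h : Anc M v) {q K z : ℝ} (hq : 0 < q) (hz : 0 < z) (hnd : ND q K z v)
    {c : V} {a : ℝ} (ha : 0 < a)
    (hN : ∀ t ∈ Ico (-1 / 2 : ℝ) 0, ∀ x, q2 x < a → hN 1 c (v t) x = 0) : False := by
  obtain ⟨A, hA0, hA⟩ := h.g_inner ha hN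
  obtain ⟨U, lam, t, W, hU, hlam0, hlamT, ht, hWsm, hWdv, hWbd, hWt, hWom, x₁, hx₁⟩ := h.blow hq hnd
  have hlamU : Tendsto lam U (𝓝 0) := hlamT.mono_left hU
  -- eventually in the region
  have hev : ∀ y : V, ∀ᶠ k in (U : Filter ℕ), t k ∈ Ico (-1 / 2 : ℝ) 0 ∧ q2 (lam k • y) < a / 2 := by
    intro y
    have h1 : ∀ᶠ k in (U : Filter ℕ), lam k ^ 2 < 1 / 2 := by
      have h2 : Tendsto (fun k => lam k ^ 2) U (𝓝 (0 ^ 2)) := hlamU.pow 2
      rw [zero_pow two_ne_zero] at h2
      exact h2.eventually (gt_mem_nhds (by norm_num))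
    have h3 : ∀ᶠ k in (U : Filter ℕ), q2 (lam k • y) < a / 2 := by
      have h4 : Tendsto (fun k => q2 (lam k • y)) U (𝓝 (q2 ((0 : ℝ) • y))) :=
        (q2_cont.tendsto _).comp (hlamU.smul_const y)
      rw [zero_smul] at h4
      have h5 : q2 (0 : V) = 0 := by
        unfold q2
        simp
      rw [h5] at h4
      exact h4.eventually (gt_mem_nhds (by positivity))
    filter_upwards [h1, h3] with k g1 g2
    refine ⟨⟨by linarith [(ht k).1], ?_⟩, g2⟩
    have := hlam0 k
    have h6 : 0 < q * lam k ^ 2 := by positivity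
    linarith [(ht k).2]
  have hW0 : ∀ x, W x = 0 := by
    by_cases hc : c = 0
    · subst hc
      apply liou_sphere hWsm hWdv
      · intro y
        have h1 : Tendsto (fun k => ∑ i, y i * (lam k * v (t k) (lam k • y) i)) U
            (𝓝 (∑ i, y i * W y i)) := tendsto_finsetSum _ fun i _ => (hWt i y).const_mul _
        refine tendsto_nhds_unique h1 ?_
        apply tendsto_const_nhds.congr'
        filter_upwards [hev y] with k hk
        have h2 := hN (t k) hk.1 (lam k • y) (by linarith [hk.2])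
        unfold Pool.Agent.H305.TI.hN Nf at h2
        simp only [Pi.smul_apply, smul_eq_mul, one_mul, Pi.zero_apply, sub_zero] at h2
        rw [← h2]
        exact Finset.sum_congr rfl fun i _ => by ring
      · intro y
        have h1 : Tendsto (fun k => y 0 * (lam k ^ 2 * Om 1 2 (v (t k)) (lam k • y))
            + y 1 * (lam k ^ 2 * Om 2 0 (v (t k)) (lam k • y))
            + y 2 * (lam k ^ 2 * Om 0 1 (v (t k)) (lam k • y))) U
            (𝓝 (y 0 * Om 1 2 W y + y 1 * Om 2 0 W y + y 2 * Om 0 1 W y)) :=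
          (((hWom 1 2 y).const_mul _).add ((hWom 2 0 y).const_mul _)).add ((hWom 0 1 y).const_mul _)
        refine tendsto_nhds_unique h1 ?_
        have h3 : Tendsto (fun k => lam k * A) U (𝓝 0) := by
          have := hlamU.mul_const A
          rwa [zero_mul] at this
        rw [tendsto_zero_iff_abs_tendsto_zero]
        refine squeeze_zero' (Eventually.of_forall fun k => abs_nonneg _) ?_ h3
        filter_upwards [hev y] with k hk
        have h2 := hA (t k) hk.1 (lam k • y) hk.2.le
        have e : y 0 * (lam k ^ 2 * Om 1 2 (v (t k)) (lam k • y))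
            + y 1 * (lam k ^ 2 * Om 2 0 (v (t k)) (lam k • y))
            + y 2 * (lam k ^ 2 * Om 0 1 (v (t k)) (lam k • y))
            = lam k * gN 1 0 (v (t k)) (lam k • y) := by
          unfold gN Nf
          simp only [Pi.smul_apply, smul_eq_mul, Pi.zero_apply]
          ring
        show |y 0 * (lam k ^ 2 * Om 1 2 (v (t k)) (lam k • y))
            + y 1 * (lam k ^ 2 * Om 2 0 (v (t k)) (lam k • y))
            + y 2 * (lam k ^ 2 * Om 0 1 (v (t k)) (lam k • y))| ≤ lam k * A
        rw [e, abs_mul, abs_of_pos (hlam0 k)]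
        exact mul_le_mul_of_nonneg_left h2 (hlam0 k).le
    · apply liou_plane (M := M) hWsm hWdv hWbd hc
      · intro y
        have h1 : Tendsto (fun k => ∑ i, c i * (lam k * v (t k) (lam k • y) i)) U
            (𝓝 (∑ i, c i * W y i)) := tendsto_finsetSum _ fun i _ => (hWt i y).const_mul _
        refine tendsto_nhds_unique h1 ?_
        have h3 : Tendsto (fun k => ∑ i, (lam k * y i) * (lam k * v (t k) (lam k • y) i)) U
            (𝓝 (∑ i, (0 * y i) * W y i)) := tendsto_finsetSum _ fun i _ =>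
          (hlamU.mul_const (y i)).mul (hWt i y)
        have h4 : ∑ i, (0 * y i) * W y i = 0 := by simp
        rw [h4] at h3
        refine h3.congr' ?_
        filter_upwards [hev y] with k hk
        have h2 := hN (t k) hk.1 (lam k • y) (by linarith [hk.2])
        unfold Pool.Agent.H305.TI.hN Nf at h2
        simp only [Pi.smul_apply, smul_eq_mul, one_mul] at h2
        rw [Fin.sum_univ_three] at h2 ⊢
        rw [Fin.sum_univ_three]
        linear_combination lam k * h2
      · intro y
        have h1 : Tendsto (fun k => c 0 * (lam k ^ 2 * Om 1 2 (v (t k)) (lam k • y))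
            + c 1 * (lam k ^ 2 * Om 2 0 (v (t k)) (lam k • y))
            + c 2 * (lam k ^ 2 * Om 0 1 (v (t k)) (lam k • y))) U
            (𝓝 (c 0 * Om 1 2 W y + c 1 * Om 2 0 W y + c 2 * Om 0 1 W y)) :=
          (((hWom 1 2 y).const_mul _).add ((hWom 2 0 y).const_mul _)).add ((hWom 0 1 y).const_mul _)
        refine tendsto_nhds_unique h1 ?_
        have h3 : Tendsto (fun k => (lam k * y 0) * (lam k ^ 2 * Om 1 2 (v (t k)) (lam k • y))
            + (lam k * y 1) * (lam k ^ 2 * Om 2 0 (v (t k)) (lam k • y))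
            + (lam k * y 2) * (lam k ^ 2 * Om 0 1 (v (t k)) (lam k • y))) U
            (𝓝 ((0 * y 0) * Om 1 2 W y + (0 * y 1) * Om 2 0 W y + (0 * y 2) * Om 0 1 W y)) :=
          (((hlamU.mul_const _).mul (hWom 1 2 y)).add ((hlamU.mul_const _).mul (hWom 2 0 y))).add
            ((hlamU.mul_const _).mul (hWom 0 1 y))
        have h4 : (0 * y 0) * Om 1 2 W y + (0 * y 1) * Om 2 0 W y + (0 * y 2) * Om 0 1 W y = 0 := by
          ring
        rw [h4] at h3
        have h5 : Tendsto (fun k => lam k ^ 2 * gN 1 c (v (t k)) (lam k • y)) U (𝓝 0) := by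
          have h6 : Tendsto (fun k => lam k ^ 2 * A) U (𝓝 0) := by
            have := (hlamU.pow 2).mul_const A
            rwa [zero_pow two_ne_zero, zero_mul] at this
          rw [tendsto_zero_iff_abs_tendsto_zero]
          refine squeeze_zero' (Eventually.of_forall fun k => abs_nonneg _) ?_ h6
          filter_upwards [hev y] with k hk
          have h2 := hA (t k) hk.1 (lam k • y) hk.2.le
          show |lam k ^ 2 * gN 1 c (v (t k)) (lam k • y)| ≤ lam k ^ 2 * A
          rw [abs_mul, abs_of_nonneg (sq_nonneg _)]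
          exact mul_le_mul_of_nonneg_left h2 (sq_nonneg _)
        have h6 := h3.sub h5
        rw [sub_zero] at h6
        refine h6.congr' (Eventually.of_forall fun k => ?_)
        unfold gN Nf
        simp only [Pi.smul_apply, smul_eq_mul]
        ring
  rw [ST_zero_of hW0] at hx₁
  linarith

/-- No outward (or inward) flow in a spherical shell. -/
theorem Anc.no_shell (h : Anc M v) {q K z : ℝ} (hq : 0 < q) (hz : 0 < z) (hnd : ND q K z v)
    {c : V} {d σ : ℝ} (hd : 0 < d) (hσ : σ ≠ 0)
    (hN : ∀ t ∈ Ioo (-1 : ℝ) 0, ∀ x, |√(q2 (x - c)) - √(q2 c)| < d → 0 ≤ σ * hN 1 c (v t) x) :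
    False := by
  -- the shell in terms of the square of the distance
  obtain ⟨a, ha⟩ : ∃ a : ℝ, ∀ s : ℝ, 0 ≤ s → (a < s ↔ √(q2 c) - d < √s) := by
    by_cases h1 : √(q2 c) - d < 0
    · refine ⟨-1, fun s hs => ⟨fun _ => h1.trans_le (Real.sqrt_nonneg _), fun _ => by linarith⟩⟩
    · push Not at h1
      exact ⟨(√(q2 c) - d) ^ 2, fun s hs => (Real.lt_sqrt h1).symm⟩
  have hb : ∀ s : ℝ, 0 ≤ s → (s < (√(q2 c) + d) ^ 2 ↔ √s < √(q2 c) + d) := fun s hs =>
    (Real.sqrt_lt' (by positivity)).symm
  have hzero : ∀ t ∈ Ioo (-1 : ℝ) 0, ∀ x, |√(q2 (x - c)) - √(q2 c)| < d →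
      Pool.Agent.H305.TI.hN 1 c (v t) x = 0 := by
    intro t ht x hx
    have hσN : ∀ y, Pool.Agent.H305.TI.hN 1 c (fun y i => σ * v t y i) y
        = σ * Pool.Agent.H305.TI.hN 1 c (v t) y := by
      intro y
      unfold Pool.Agent.H305.TI.hN
      rw [Finset.mul_sum]
      exact Finset.sum_congr rfl fun i _ => by ring
    have h1 := flux_zero (w := fun y i => σ * v t y i) (a := a) (b := (√(q2 c) + d) ^ 2) (c := c)
      (fun i => contDiff_const.mul (h.sm t ht.2 i))
      (fun y => by
        have h5 := h.dv t ht.2 y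
        unfold W221.NS.dv at h5 ⊢
        have h6 : ∀ i, pd i (fun y => σ * v t y i) y = σ * pd i (fun y => v t y i) y := fun i =>
          pd_cmul (h.sm t ht.2 i) σ i y
        simp only [h6]
        rw [← Finset.mul_sum, h5, mul_zero])
      (fun y h2 h3 => by
        rw [ha _ (q2_nonneg _)] at h2
        rw [hb _ (q2_nonneg _)] at h3
        rw [hσN]
        exact hN t ht y (abs_lt.2 ⟨by linarith, by linarith⟩))
    have h2 := abs_lt.1 hx
    have h4 : Pool.Agent.H305.TI.hN 1 c (fun y i => σ * v t y i) x = 0 := by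
      apply h1 x
      · rw [ha _ (q2_nonneg _)]
        linarith [h2.1]
      · rw [hb _ (q2_nonneg _)]
        linarith [h2.2]
    rw [hσN] at h4
    exact (mul_eq_zero.1 h4).resolve_left hσ
  -- a neighbourhood of the singular point
  have hcont : Continuous fun x : V => |√(q2 (x - c)) - √(q2 c)| := by
    have := q2_cont
    fun_prop
  have h0 : |√(q2 ((0 : V) - c)) - √(q2 c)| < d := by
    have : q2 ((0 : V) - c) = q2 c := by
      unfold q2
      simp
    rw [this, sub_self, abs_zero]
    exact hd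
  obtain ⟨r, hr, hball⟩ := Metric.mem_nhds_iff.1 (hcont.continuousAt.eventually (gt_mem_nhds h0))
  refine h.no_tangent hq hz hnd (c := c) (a := r ^ 2) (by positivity) fun t ht x hx => ?_
  apply hzero t ⟨by linarith [ht.1], ht.2⟩ x
  apply hball
  rw [mem_ball, dist_zero_right]
  exact lt_of_pow_lt_pow_left₀ 2 hr.le ((norm_sq_le_q2 x).trans_lt hx)

end

end Pool.Agent.H305.TI
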