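import Pool.Agent.H305.TI.Ult

/-!
Sequences of functions of time and space, locally uniformly Lipschitz, and their limits.
-/

set_option autoImplicit false

open MeasureTheory Set Metric Filter Topology
open scoped ContDiff

namespace Pool.Agent.H305.TI

open H459R3.NS W221.NS Pool.Agent.V1183.PM
open Pool.Agent.TH305.DR (Om bb SS SS_zero SS_succ SS_one SS_nonneg SV ST ST_nonneg SV_nonneg om_sm
  bb_sm pd_congr_open pd_const' pd_sum' SS_scale SS_congr_open pd_sub' pd_add' pd_neg' SS_le_succ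
  SS_sum3 SS_mul SS_add SS_sub SS_neg)
open Pool.Agent.W583.MD (sm_pd cs_pd pd_mul')

/-- Bounded and Lipschitz, uniformly in `n`. -/
def LB (U : Ultrafilter ℕ) (a b R : ℝ) (F : ℕ → ℝ → V → ℝ) : Prop :=
  ∃ B C : ℝ, 0 ≤ B ∧ 0 ≤ C ∧ ∀ᶠ n in (U : Filter ℕ), ∀ t ∈ Icc a b, ∀ x ∈ ball (0 : V) R,
    |F n t x| ≤ B ∧ ∀ s ∈ Icc a b, ∀ y ∈ ball (0 : V) R, |F n t x - F n s y| ≤ C * (|t - s| + ‖x - y‖)

/-- Bounded and Lipschitz on compact sets. -/
def LLB (U : Ultrafilter ℕ) (F : ℕ → ℝ → V → ℝ) : Prop := ∀ a b R : ℝ, b < 0 → LB U a b R F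

section
variable {U : Ultrafilter ℕ} {a b R : ℝ} {F G : ℕ → ℝ → V → ℝ}

lemma LB.add (hF : LB U a b R F) (hG : LB U a b R G) : LB U a b R (fun n t x => F n t x + G n t x) := by
  obtain ⟨B1, C1, h1, h2, h3⟩ := hF
  obtain ⟨B2, C2, g1, g2, g3⟩ := hG
  refine ⟨B1 + B2, C1 + C2, by positivity, by positivity, ?_⟩
  filter_upwards [h3, g3] with n hn gn t ht x hx
  obtain ⟨p1, p2⟩ := hn t ht x hx
  obtain ⟨q1, q2⟩ := gn t ht x hx
  refine ⟨(abs_add_le _ _).trans (add_le_add p1 q1), fun s hs y hy => ?_⟩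
  have e : F n t x + G n t x - (F n s y + G n s y) = (F n t x - F n s y) + (G n t x - G n s y) := by
    ring
  rw [e, add_mul]
  exact (abs_add_le _ _).trans (add_le_add (p2 s hs y hy) (q2 s hs y hy))

lemma LB.neg (hF : LB U a b R F) : LB U a b R (fun n t x => - F n t x) := by
  obtain ⟨B1, C1, h1, h2, h3⟩ := hF
  refine ⟨B1, C1, h1, h2, ?_⟩
  filter_upwards [h3] with n hn t ht x hx
  obtain ⟨p1, p2⟩ := hn t ht x hx
  refine ⟨by rw [abs_neg]; exact p1, fun s hs y hy => ?_⟩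
  have e : - F n t x - - F n s y = - (F n t x - F n s y) := by ring
  rw [e, abs_neg]
  exact p2 s hs y hy

lemma LB.mul (hF : LB U a b R F) (hG : LB U a b R G) : LB U a b R (fun n t x => F n t x * G n t x) := by
  obtain ⟨B1, C1, h1, h2, h3⟩ := hF
  obtain ⟨B2, C2, g1, g2, g3⟩ := hG
  refine ⟨B1 * B2, C1 * B2 + B1 * C2, by positivity, by positivity, ?_⟩
  filter_upwards [h3, g3] with n hn gn t ht x hx
  obtain ⟨p1, p2⟩ := hn t ht x hx
  obtain ⟨q1, q2⟩ := gn t ht x hx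
  refine ⟨?_, fun s hs y hy => ?_⟩
  · rw [abs_mul]
    exact mul_le_mul p1 q1 (abs_nonneg _) h1
  · have e : F n t x * G n t x - F n s y * G n s y
        = (F n t x - F n s y) * G n t x + F n s y * (G n t x - G n s y) := by ring
    rw [e]
    refine (abs_add_le _ _).trans ?_
    rw [abs_mul, abs_mul, add_mul]
    have hd : 0 ≤ |t - s| + ‖x - y‖ := by positivity
    have a1 : |F n t x - F n s y| * |G n t x| ≤ C1 * (|t - s| + ‖x - y‖) * B2 :=
      mul_le_mul (p2 s hs y hy) q1 (abs_nonneg _) (by positivity)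
    have a2 : |F n s y| * |G n t x - G n s y| ≤ B1 * (C2 * (|t - s| + ‖x - y‖)) :=
      mul_le_mul (hn s hs y hy).1 (q2 s hs y hy) (abs_nonneg _) h1
    linarith

lemma LB.const (c : ℝ) : LB U a b R (fun _ _ _ => c) := by
  refine ⟨|c|, 0, abs_nonneg _, le_rfl, Eventually.of_forall fun n t ht x hx => ⟨le_rfl, ?_⟩⟩
  intro s hs y hy
  simp

lemma LB.seq {c : ℕ → ℝ} {B : ℝ} (h : ∀ᶠ n in (U : Filter ℕ), |c n| ≤ B) :
    LB U a b R (fun n _ _ => c n) := by
  obtain ⟨n, hn⟩ := h.exists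
  refine ⟨B, 0, (abs_nonneg _).trans hn, le_rfl, ?_⟩
  filter_upwards [h] with n hn t ht x hx
  exact ⟨hn, fun s hs y hy => by simp⟩

lemma LB.coord (i : Fin 3) : LB U a b R (fun _ _ x => x i) := by
  refine ⟨|R|, 1, abs_nonneg _, zero_le_one, Eventually.of_forall fun n t ht x hx => ⟨?_, ?_⟩⟩
  · rw [mem_ball, dist_zero_right] at hx
    exact (norm_le_pi_norm x i).trans (hx.le.trans (le_abs_self R))
  · intro s hs y hy
    have := norm_le_pi_norm (x - y) i
    rw [Real.norm_eq_abs] at this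
    have h2 : 0 ≤ |t - s| := abs_nonneg _
    rw [one_mul]
    exact this.trans (by linarith)

lemma LLB.add (hF : LLB U F) (hG : LLB U G) : LLB U (fun n t x => F n t x + G n t x) :=
  fun a b R hb => (hF a b R hb).add (hG a b R hb)

lemma LLB.neg (hF : LLB U F) : LLB U (fun n t x => - F n t x) := fun a b R hb => (hF a b R hb).neg

lemma LLB.sub (hF : LLB U F) (hG : LLB U G) : LLB U (fun n t x => F n t x - G n t x) := by
  have := hF.add hG.neg
  simpa [sub_eq_add_neg] using this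

lemma LLB.mul (hF : LLB U F) (hG : LLB U G) : LLB U (fun n t x => F n t x * G n t x) :=
  fun a b R hb => (hF a b R hb).mul (hG a b R hb)

lemma LLB.const (c : ℝ) : LLB U (fun _ _ _ => c) := fun _ _ _ _ => LB.const c

lemma LLB.seq {c : ℕ → ℝ} {B : ℝ} (h : ∀ᶠ n in (U : Filter ℕ), |c n| ≤ B) :
    LLB U (fun n _ _ => c n) := fun _ _ _ _ => LB.seq h

lemma LLB.coord (i : Fin 3) : LLB U (fun _ _ x => x i) := fun _ _ _ _ => LB.coord i

lemma LLB.sum {F : Fin 3 → ℕ → ℝ → V → ℝ} (hF : ∀ i, LLB U (F i)) :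
    LLB U (fun n t x => ∑ i, F i n t x) := by
  have := ((hF 0).add (hF 1)).add (hF 2)
  simpa [Fin.sum_univ_three] using this

lemma LLB.tendsto (hF : LLB U F) {t : ℝ} (ht : t < 0) (x : V) :
    Tendsto (fun n => F n t x) U (𝓝 (ul U fun n => F n t x)) := by
  obtain ⟨B, C, -, -, h⟩ := hF t t (‖x‖ + 1) ht
  apply ul_tendsto (B := B)
  filter_upwards [h] with n hn
  refine (hn t ⟨le_rfl, le_rfl⟩ x ?_).1
  rw [mem_ball, dist_zero_right]
  linarith

lemma LLB.bdd (hF : LLB U F) {t : ℝ} (ht : t < 0) (x : V) :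
    ∃ B, ∀ᶠ n in (U : Filter ℕ), |F n t x| ≤ B := by
  obtain ⟨B, C, -, -, h⟩ := hF t t (‖x‖ + 1) ht
  refine ⟨B, ?_⟩
  filter_upwards [h] with n hn
  refine (hn t ⟨le_rfl, le_rfl⟩ x ?_).1
  rw [mem_ball, dist_zero_right]
  linarith

lemma LLB.lim_lip (hF : LLB U F) (hb : b < 0) : ∃ C : ℝ, 0 ≤ C ∧ ∀ t ∈ Icc a b,
    ∀ s ∈ Icc a b, ∀ x ∈ ball (0 : V) R, ∀ y ∈ ball (0 : V) R,
      |(ul U fun n => F n t x) - (ul U fun n => F n s y)| ≤ C * (|t - s| + ‖x - y‖) := by
  obtain ⟨B, C, hB, hC, h⟩ := hF a b R hb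
  refine ⟨C, hC, fun t ht s hs x hx y hy => ?_⟩
  have h1 := ((hF.tendsto (ht.2.trans_lt hb) x).sub (hF.tendsto (hs.2.trans_lt hb) y)).abs
  apply le_of_tendsto h1
  filter_upwards [h] with n hn
  exact (hn t ht x hx).2 s hs y hy

lemma LLB.cont (hF : LLB U F) :
    ContinuousOn (fun z : ℝ × V => ul U fun n => F n z.1 z.2) (Iio 0 ×ˢ univ) := by
  rintro ⟨t, x⟩ ⟨ht, -⟩
  have ht : t < 0 := ht
  apply ContinuousAt.continuousWithinAt
  obtain ⟨C, hC, h⟩ := hF.lim_lip (a := 2 * t) (b := t / 2) (R := ‖x‖ + 1) (by linarith)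
  have hx : x ∈ ball (0 : V) (‖x‖ + 1) := by
    rw [mem_ball, dist_zero_right]
    linarith
  rw [ContinuousAt, tendsto_iff_dist_tendsto_zero]
  have h1 : Tendsto (fun z : ℝ × V => C * (|z.1 - t| + ‖z.2 - x‖)) (𝓝 (t, x)) (𝓝 0) := by
    have : Continuous fun z : ℝ × V => C * (|z.1 - t| + ‖z.2 - x‖) := by fun_prop
    have h2 := this.tendsto (t, x)
    simpa using h2
  refine squeeze_zero' (Eventually.of_forall fun z => dist_nonneg) ?_ h1
  have h2 : ∀ᶠ z : ℝ × V in 𝓝 (t, x), z.1 ∈ Icc (2 * t) (t / 2) ∧ z.2 ∈ ball (0 : V) (‖x‖ + 1) := by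
    apply prod_mem_nhds (Icc_mem_nhds (by linarith) (by linarith)) (isOpen_ball.mem_nhds hx)
  filter_upwards [h2] with z hz
  rw [Real.dist_eq]
  exact h z.1 hz.1 t ⟨by linarith, by linarith⟩ z.2 hz.2 x hx

/-- The derivative in time of the limit. -/
lemma ul_hd {g g' : ℕ → ℝ → ℝ} {G : ℕ → ℝ} {t r C BG : ℝ} (hr : 0 < r) (hC : 0 ≤ C)
    (hg : ∀ s, |s - t| < r → ∃ B, ∀ᶠ n in (U : Filter ℕ), |g n s| ≤ B)
    (hG : ∀ᶠ n in (U : Filter ℕ), |G n| ≤ BG)
    (hd : ∀ᶠ n in (U : Filter ℕ), ∀ s, |s - t| < r → HasDerivAt (g n) (g' n s) s)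
    (hb : ∀ η : ℝ, 0 < η → ∀ᶠ n in (U : Filter ℕ), ∀ s, |s - t| < r →
      |g' n s - G n| ≤ C * |s - t| + η) :
    HasDerivAt (fun s => ul U fun n => g n s) (ul U G) t := by
  rw [hasDerivAt_iff_hasFDerivAt, hasFDerivAt_iff_isLittleO]
  have h1 : (fun s => (ul U fun n => g n s) - (ul U fun n => g n t)
      - (ContinuousLinearMap.toSpanSingleton ℝ (ul U G)) (s - t)) =O[𝓝 t] fun s => ‖s - t‖ ^ 2 := by
    apply Asymptotics.IsBigO.of_bound C
    filter_upwards [ball_mem_nhds t hr] with s hs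
    rw [mem_ball, Real.dist_eq] at hs
    rw [Real.norm_eq_abs, Real.norm_of_nonneg (by positivity), Real.norm_eq_abs]
    have hlin : (ContinuousLinearMap.toSpanSingleton ℝ (ul U G)) (s - t) = (s - t) * ul U G := by
      simp
    rw [hlin]
    have htt : |t - t| < r := by rw [sub_self, abs_zero]; exact hr
    obtain ⟨B1, hB1⟩ := hg s hs
    obtain ⟨B2, hB2⟩ := hg t htt
    have hlim := (((ul_tendsto hB1).sub (ul_tendsto hB2)).sub ((ul_tendsto hG).const_mul (s - t))).abs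
    apply le_of_forall_pos_le_add
    intro η hη
    have hη' : 0 < η / (|s - t| + 1) := by positivity
    have h2 : |(ul U fun n => g n s) - (ul U fun n => g n t) - (s - t) * ul U G|
        ≤ (C * |s - t| + η / (|s - t| + 1)) * |s - t| := by
      apply le_of_tendsto hlim
      filter_upwards [hd, hb _ hη'] with n hn1 hn2
      have h3 := (convex_uIcc t s).norm_image_sub_le_of_norm_hasDerivWithin_le (𝕜 := ℝ)
        (f := fun τ => g n τ - (τ - t) * G n) (f' := fun τ => g' n τ - G n)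
        (C := C * |s - t| + η / (|s - t| + 1)) (x := t) (y := s)
        (fun τ hτ => by
          have hτ1 : |τ - t| < r := (abs_sub_left_of_mem_uIcc hτ).trans_lt hs
          have h4 : HasDerivAt (fun τ => (τ - t) * G n) (G n) τ := by
            have := ((hasDerivAt_id τ).sub_const t).mul_const (G n)
            simpa using this
          exact ((hn1 τ hτ1).sub h4).hasDerivWithinAt)
        (fun τ hτ => by
          have hτ1 : |τ - t| < r := (abs_sub_left_of_mem_uIcc hτ).trans_lt hs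
          refine (hn2 τ hτ1).trans ?_
          have := abs_sub_left_of_mem_uIcc hτ
          have := mul_le_mul_of_nonneg_left this hC
          linarith) left_mem_uIcc right_mem_uIcc
      rw [Real.norm_eq_abs, Real.norm_eq_abs] at h3
      have e : g n s - (s - t) * G n - (g n t - (t - t) * G n) = g n s - g n t - (s - t) * G n := by
        ring
      rw [e] at h3
      exact h3
    have h3 : η / (|s - t| + 1) * |s - t| ≤ η := by
      rw [div_mul_eq_mul_div, div_le_iff₀ (by positivity)]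
      nlinarith [abs_nonneg (s - t)]
    calc _ ≤ _ := h2
      _ = C * |s - t| ^ 2 + η / (|s - t| + 1) * |s - t| := by ring
      _ ≤ _ := by linarith
  exact h1.trans_isLittleO (Asymptotics.isLittleO_pow_sub_sub t (by norm_num))

end

/-! ### Sequences of solutions -/

/-- A sequence of solutions with the bounds of type I on larger and larger domains. -/
structure Sq (M : ℝ) (T L : ℕ → ℝ) (u : ℕ → ℝ → V → V) (p : ℕ → ℝ → V → ℝ) : Prop where
  tg : ∀ n, TG M (T n) (L n) (u n) (p n)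
  T_top : Tendsto T atTop atTop
  L_top : Tendsto L atTop atTop

lemma J_it {T : ℝ} (l : List (Fin 3)) : ∀ {F : ℝ → V → ℝ}, J T F → J T (fun t => it l (F t)) := by
  induction l with
  | nil => intro F h; exact h
  | cons i l ih => intro F h; exact ih (h.pd i)

lemma dt_it {T : ℝ} (l : List (Fin 3)) : ∀ {F : ℝ → V → ℝ}, J T F → ∀ {t : ℝ}, t ∈ Ioo 0 T → ∀ x,
    deriv (fun s => it l (F s) x) t = it l (fun y => deriv (fun s => F s y) t) x := by
  induction l with
  | nil => intro F h t ht x; rfl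
  | cons i l ih =>
    intro F h t ht x
    have h1 := ih (h.pd i) ht x
    have h2 : (fun y => deriv (fun s => pd i (F s) y) t)
        = pd i (fun y => deriv (fun s => F s y) t) := by
      funext y
      exact h.comm ht y i
    rw [h2] at h1
    exact h1

lemma it_append (l : List (Fin 3)) (j : Fin 3) (f : V → ℝ) : pd j (it l f) = it (l ++ [j]) f := by
  unfold it
  rw [List.foldl_append]
  rfl

/-- A sufficient condition. -/
lemma LB_of {U : Ultrafilter ℕ} {a b R B : ℝ} {F : ℕ → ℝ → V → ℝ} (hB : 0 ≤ B)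
    (h : ∀ᶠ n in (U : Filter ℕ), ∀ t ∈ Icc a b, ContDiff ℝ ∞ (F n t) ∧ ∀ x ∈ ball (0 : V) R,
      DifferentiableAt ℝ (fun s => F n s x) t ∧ |F n t x| ≤ B ∧ (∀ j, |pd j (F n t) x| ≤ B) ∧
        |deriv (fun s => F n s x) t| ≤ B) : LB U a b R F := by
  refine ⟨B, 3 * B, hB, by positivity, ?_⟩
  filter_upwards [h] with n hn t ht x hx
  refine ⟨((hn t ht).2 x hx).2.1, fun s hs y hy => ?_⟩
  have h1 : |F n t x - F n t y| ≤ 3 * B * ‖x - y‖ :=
    lip_sp (hn t ht).1 (convex_ball 0 R) (fun z hz j => ((hn t ht).2 z hz).2.2.1 j) hy hx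
  have h2 : |F n t y - F n s y| ≤ B * |t - s| := by
    have h3 := (convex_Icc a b).norm_image_sub_le_of_norm_hasDerivWithin_le (𝕜 := ℝ)
      (f := fun τ => F n τ y) (f' := fun τ => deriv (fun s => F n s y) τ) (C := B) (x := s) (y := t)
      (fun τ hτ => ((hn τ hτ).2 y hy).1.hasDerivAt.hasDerivWithinAt)
      (fun τ hτ => ((hn τ hτ).2 y hy).2.2.2) hs ht
    exact h3
  have e : F n t x - F n s y = (F n t x - F n t y) + (F n t y - F n s y) := by ring
  rw [e]
  have h4 : 0 ≤ B * |t - s| := by positivity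
  calc _ ≤ |F n t x - F n t y| + |F n t y - F n s y| := abs_add_le _ _
    _ ≤ 3 * B * ‖x - y‖ + B * |t - s| := add_le_add h1 h2
    _ ≤ _ := by linarith

section
variable {M : ℝ} {T L : ℕ → ℝ} {u : ℕ → ℝ → V → V} {p : ℕ → ℝ → V → ℝ} {U : Ultrafilter ℕ}

/-- The domains contain each compact set. -/
lemma Sq.ev (h : Sq M T L u p) (a R : ℝ) (k : ℕ) : ∀ᶠ n in atTop, ∀ t, a ≤ t → t < 0 →
    T n + t ∈ Ioo 0 (T n) ∧ T n + t < T n ∧ 2 * (T n - (T n + t)) ≤ T n ∧
      24 * √(T n - (T n + t)) ≤ L n ∧ ∀ x ∈ ball (0 : V) R, x ∈ ball (0 : V) (L n) ∧ ‖x‖ ≤ L n / 2 ∧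
        ‖x‖ + k * √(T n - (T n + t)) ≤ L n / 2 ∧ ‖x‖ + (k + 1) * √(T n - (T n + t)) ≤ L n / 2 := by
  filter_upwards [h.T_top.eventually_ge_atTop (2 * |a| + 1),
    h.L_top.eventually_ge_atTop (24 * √|a|),
    h.L_top.eventually_ge_atTop (2 * (|R| + (k + 1) * √|a|) + 1)] with n h1 h2 h3 t ht1 ht2
  have e : T n - (T n + t) = -t := by ring
  rw [e]
  have ha : -t ≤ |a| := by linarith [neg_abs_le a]
  have hs : √(-t) ≤ √|a| := Real.sqrt_le_sqrt ha
  refine ⟨⟨by linarith [abs_nonneg a], by linarith⟩, by linarith, by linarith [abs_nonneg a],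
    by linarith, fun x hx => ?_⟩
  rw [mem_ball, dist_zero_right] at hx
  have hxR : ‖x‖ ≤ |R| := hx.le.trans (le_abs_self R)
  have hk : ((k : ℝ) + 1) * √(-t) ≤ (k + 1) * √|a| := mul_le_mul_of_nonneg_left hs (by positivity)
  have hk0 : 0 ≤ ((k : ℝ) + 1) * √(-t) := by positivity
  have hs0 : 0 ≤ √(-t) := Real.sqrt_nonneg _
  have hk1 : (k : ℝ) * √(-t) ≤ (k + 1) * √(-t) := by linarith
  have hk2 : 0 ≤ ((k : ℝ) + 1) * √|a| := by positivity
  refine ⟨?_, by linarith, by linarith, by linarith⟩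
  rw [mem_ball, dist_zero_right]
  linarith [abs_nonneg R]

/-- The derivatives of the velocity are locally bounded and Lipschitz. -/
theorem Sq.llb (hM : 0 < M) (hU : (U : Filter ℕ) ≤ atTop) (h : Sq M T L u p) (l : List (Fin 3))
    (i : Fin 3) : LLB U (fun n t => it l (fun y => u n (T n + t) y i)) := by
  intro a b R hb
  obtain ⟨k, hk⟩ : ∃ k, k = l.length := ⟨_, rfl⟩
  obtain ⟨D, hD, hV⟩ := derV hM (k + 1)
  obtain ⟨E, hE, hT⟩ := derT hM k
  obtain ⟨β, hβ⟩ : ∃ β, β = -b := ⟨_, rfl⟩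
  have hβ0 : 0 < β := by rw [hβ]; linarith
  obtain ⟨B, hB⟩ : ∃ B, B = √(D / β ^ (k + 1)) + √(D / β ^ (k + 2)) + √(E / β ^ (k + 3)) := ⟨_, rfl⟩
  have q1 := Real.sqrt_nonneg (D / β ^ (k + 1))
  have q2 := Real.sqrt_nonneg (D / β ^ (k + 2))
  have q3 := Real.sqrt_nonneg (E / β ^ (k + 3))
  refine LB_of (B := B) (by rw [hB]; positivity) ?_
  filter_upwards [hU (h.ev a R k)] with n hn t ht
  have htb : t < 0 := ht.2.trans_lt hb
  obtain ⟨h1, h2, h3, h4, h5⟩ := hn t ht.1 htb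
  have hTG := h.tg n
  have hsm : ContDiff ℝ ∞ (fun y => u n (T n + t) y i) := hTG.sl h1 i
  refine ⟨it_sm l hsm, fun x hx => ?_⟩
  obtain ⟨g1, g2, g3, g4⟩ := h5 x hx
  have e : T n - (T n + t) = -t := by ring
  have hpow : ∀ m : ℕ, β ^ m ≤ (-t) ^ m := fun m =>
    pow_le_pow_left₀ hβ0.le (by rw [hβ]; linarith [ht.2]) m
  have hjt := J_it l (hTG.ju i)
  have hdt : HasDerivAt (fun s => it l (fun y => u n (T n + s) y i) x)
      (it l (fun y => deriv (fun s => u n s y i) (T n + t)) x) t := by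
    have d1 := (hjt.dfT h1 x).hasDerivAt
    rw [dt_it l (hTG.ju i) h1 x] at d1
    exact d1.comp_const_add (T n) t
  have b1 := hV _ _ _ _ hTG (T n + t) x h2 h3 h4 g2
  have b2 := hT _ _ _ _ hTG (T n + t) x h2 h3 h4 g4 k le_rfl i
  rw [e] at b1 b2
  have c1 := b1 k (by omega) i
  have c2 := b1 (k + 1) le_rfl i
  have hneg : 0 < -t := by linarith
  have c1' : SS k (fun y => u n (T n + t) y i) x ≤ D / β ^ (k + 1) := by
    rw [le_div_iff₀ (by positivity), mul_comm]
    refine le_trans ?_ c1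
    exact mul_le_mul_of_nonneg_right (hpow _) (SS_nonneg _ _ _)
  have c2' : SS (k + 1) (fun y => u n (T n + t) y i) x ≤ D / β ^ (k + 2) := by
    rw [le_div_iff₀ (by positivity), mul_comm]
    refine le_trans ?_ c2
    exact mul_le_mul_of_nonneg_right (hpow _) (SS_nonneg _ _ _)
  have c3' : SS k (fun y => deriv (fun s => u n s y i) (T n + t)) x ≤ E / β ^ (k + 3) := by
    rw [le_div_iff₀ (by positivity), mul_comm]
    refine le_trans ?_ b2
    exact mul_le_mul_of_nonneg_right (hpow _) (SS_nonneg _ _ _)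
  refine ⟨hdt.differentiableAt, ?_, ?_, ?_⟩
  · refine (Real.abs_le_sqrt ((SS_it k _ l hk.symm x).trans c1')).trans ?_
    rw [hB]; linarith
  · intro j
    rw [it_append]
    refine (Real.abs_le_sqrt ((SS_it (k + 1) _ (l ++ [j]) (by simp [hk]) x).trans c2')).trans ?_
    rw [hB]; linarith
  · rw [hdt.deriv]
    refine (Real.abs_le_sqrt ((SS_it k _ l hk.symm x).trans c3')).trans ?_
    rw [hB]; linarith

/-- The time slices are locally bounded sequences. -/
theorem Sq.bs (hM : 0 < M) (hU : (U : Filter ℕ) ≤ atTop) (h : Sq M T L u p) {t : ℝ} (ht : t < 0)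
    (i : Fin 3) : BS U (fun n y => u n (T n + t) y i) := by
  refine ⟨?_, ?_⟩
  · filter_upwards [hU (h.ev t 0 0)] with n hn
    exact (h.tg n).sl (hn t le_rfl ht).1 i
  · intro k R
    obtain ⟨D, hD, hV⟩ := derV hM k
    refine ⟨D / (-t) ^ (k + 1), ?_⟩
    filter_upwards [hU (h.ev t R 0)] with n hn x hx
    obtain ⟨h1, h2, h3, h4, h5⟩ := hn t le_rfl ht
    have b1 := hV _ _ _ _ (h.tg n) (T n + t) x h2 h3 h4 (h5 x hx).2.1 k le_rfl i
    have e : T n - (T n + t) = -t := by ring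
    rw [e] at b1
    have hneg : 0 < -t := by linarith
    rw [le_div_iff₀ (by positivity), mul_comm]
    exact b1

end

end Pool.Agent.H305.TI
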