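import Pool.Agent.H305.TI.Press

/-!
Limits of sequences of smooth functions along an ultrafilter.
-/

set_option autoImplicit false

open MeasureTheory Set Metric Filter Topology
open scoped ContDiff

namespace Pool.Agent.H305.TI

open H459R3.NS W221.NS Pool.Agent.V1183.PM
open Pool.Agent.TH305.DR (Om bb SS SS_zero SS_succ SS_one SS_nonneg SV ST ST_nonneg SV_nonneg om_sm
  bb_sm pd_congr_open pd_const' pd_sum' SS_scale SS_congr_open pd_sub' pd_add' pd_neg' SS_le_succ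
  SS_sum3 SS_mul SS_add SS_sub SS_neg)
open Pool.Agent.W583.MD (sm_pd cs_pd pd_mul')

/-- The limit of a sequence of real numbers along an ultrafilter. -/
noncomputable def ul (U : Ultrafilter ℕ) (f : ℕ → ℝ) : ℝ := limUnder (U : Filter ℕ) f

section
variable {U : Ultrafilter ℕ} {f g : ℕ → ℝ} {B : ℝ}

lemma ul_tendsto (h : ∀ᶠ n in (U : Filter ℕ), |f n| ≤ B) : Tendsto f U (𝓝 (ul U f)) := by
  have hc : IsCompact (Icc (-B) B) := isCompact_Icc
  rw [isCompact_iff_ultrafilter_le_nhds] at hc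
  have h1 : ((U.map f : Ultrafilter ℝ) : Filter ℝ) ≤ 𝓟 (Icc (-B) B) := by
    rw [le_principal_iff]
    show f ⁻¹' (Icc (-B) B) ∈ (U : Filter ℕ)
    filter_upwards [h] with n hn
    exact abs_le.1 hn
  obtain ⟨a, -, ha⟩ := hc _ h1
  exact tendsto_nhds_limUnder ⟨a, ha⟩

lemma ul_eq {a : ℝ} (h : Tendsto f U (𝓝 a)) : ul U f = a := h.limUnder_eq

lemma ul_congr (h : ∀ᶠ n in (U : Filter ℕ), f n = g n) : ul U f = ul U g := by
  unfold ul limUnder
  congr 1
  exact Filter.map_congr h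

end

/-- Locally bounded sequences of smooth functions (with all derivatives). -/
def BS (U : Ultrafilter ℕ) (F : ℕ → V → ℝ) : Prop :=
  (∀ᶠ n in (U : Filter ℕ), ContDiff ℝ ∞ (F n)) ∧
    ∀ (k : ℕ) (R : ℝ), ∃ B : ℝ, ∀ᶠ n in (U : Filter ℕ), ∀ x ∈ ball (0 : V) R, SS k (F n) x ≤ B

/-- The limit function. -/
noncomputable def ulf (U : Ultrafilter ℕ) (F : ℕ → V → ℝ) (x : V) : ℝ := ul U fun n => F n x

section
variable {U : Ultrafilter ℕ} {F : ℕ → V → ℝ}

lemma BS.pd (h : BS U F) (j : Fin 3) : BS U (fun n => H459R3.NS.pd j (F n)) := by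
  refine ⟨?_, ?_⟩
  · filter_upwards [h.1] with n hn
    exact sm_pd hn j
  · intro k R
    obtain ⟨B, hB⟩ := h.2 (k + 1) R
    refine ⟨B, ?_⟩
    filter_upwards [hB] with n hn x hx
    exact (SS_le_succ k (F n) x j).trans (hn x hx)

lemma BS.bd (h : BS U F) (R : ℝ) : ∃ B : ℝ, 0 ≤ B ∧ ∀ᶠ n in (U : Filter ℕ),
    ∀ x ∈ ball (0 : V) R, |F n x| ≤ B := by
  obtain ⟨B, hB⟩ := h.2 0 R
  refine ⟨√(|B|), Real.sqrt_nonneg _, ?_⟩
  filter_upwards [hB] with n hn x hx
  apply Real.abs_le_sqrt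
  have := hn x hx
  rw [SS_zero] at this
  exact this.trans (le_abs_self B)

lemma BS.tendsto (h : BS U F) (x : V) : Tendsto (fun n => F n x) U (𝓝 (ulf U F x)) := by
  obtain ⟨B, -, hB⟩ := h.bd (‖x‖ + 1)
  apply ul_tendsto (B := B)
  filter_upwards [hB] with n hn
  apply hn
  rw [mem_ball, dist_zero_right]
  linarith

lemma clm_norm_le (A : V →L[ℝ] ℝ) : ‖A‖ ≤ ∑ j, |A (Pi.single j 1)| := by
  apply ContinuousLinearMap.opNorm_le_bound _ (Finset.sum_nonneg fun _ _ => abs_nonneg _)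
  intro v
  have hv : v = ∑ j, v j • (Pi.single j (1 : ℝ) : V) := by
    funext i
    simp [Finset.sum_apply, Pi.single_apply]
  have h1 : A v = ∑ j, v j * A (Pi.single j 1) := by
    conv_lhs => rw [hv]
    rw [map_sum]
    refine Finset.sum_congr rfl fun j _ => ?_
    rw [map_smul, smul_eq_mul]
  rw [h1, Finset.sum_mul]
  refine (norm_sum_le _ _).trans (Finset.sum_le_sum fun j _ => ?_)
  rw [norm_mul, mul_comm, Real.norm_eq_abs]
  exact mul_le_mul_of_nonneg_left (norm_le_pi_norm v j) (abs_nonneg _)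

/-- The linear form with given coefficients. -/
noncomputable def lin3 (c : Fin 3 → ℝ) : V →L[ℝ] ℝ :=
  ∑ j, c j • ContinuousLinearMap.proj (R := ℝ) (φ := fun _ : Fin 3 => ℝ) j

lemma lin3_apply (c : Fin 3 → ℝ) (v : V) : lin3 c v = ∑ j, c j * v j := by
  unfold lin3
  simp

lemma lin3_single (c : Fin 3 → ℝ) (i : Fin 3) : lin3 c (Pi.single i 1) = c i := by
  rw [lin3_apply]
  simp [Pi.single_apply]

/-- The second order Taylor estimate. -/
lemma taylor2 {f : V → ℝ} (hf : ContDiff ℝ ∞ f) {x : V} {r B : ℝ}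
    (hB : ∀ y ∈ ball x r, ∀ i j, |pd i (pd j f) y| ≤ B) {y : V} (hy : y ∈ ball x r) :
    |f y - f x - ∑ j, pd j f x * (y j - x j)| ≤ 9 * B * ‖y - x‖ ^ 2 := by
  have hr : 0 < r := by
    rw [mem_ball] at hy
    exact dist_nonneg.trans_lt hy
  obtain ⟨ρ, hρ⟩ : ∃ ρ, ρ = ‖y - x‖ := ⟨_, rfl⟩
  have hρr : ρ < r := by rw [hρ, ← dist_eq_norm]; exact hy
  have hsub : closedBall x ρ ⊆ ball x r := closedBall_subset_ball hρr
  have hρ0 : 0 ≤ ρ := by rw [hρ]; exact norm_nonneg _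
  have hB0 : 0 ≤ B := (abs_nonneg _).trans (hB x (mem_ball_self hr) 0 0)
  have h1 : ∀ z ∈ closedBall x ρ, ‖fderiv ℝ f z - fderiv ℝ f x‖ ≤ 9 * B * ρ := by
    intro z hz
    refine (clm_norm_le _).trans ?_
    have h2 : ∀ j, |(fderiv ℝ f z - fderiv ℝ f x) (Pi.single j 1)| ≤ 3 * B * ρ := by
      intro j
      have h3 := lip_sp (sm_pd hf j) (convex_ball x r) (fun y hy i => hB y hy i j)
        (mem_ball_self hr) (hsub hz)
      have h4 : ‖z - x‖ ≤ ρ := by rw [← dist_eq_norm]; exact hz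
      calc |(fderiv ℝ f z - fderiv ℝ f x) (Pi.single j 1)| = |pd j f z - pd j f x| := rfl
        _ ≤ 3 * B * ‖z - x‖ := h3
        _ ≤ _ := mul_le_mul_of_nonneg_left h4 (by positivity)
    rw [Fin.sum_univ_three]
    linarith [h2 0, h2 1, h2 2]
  have h2 := (convex_closedBall x ρ).norm_image_sub_le_of_norm_hasFDerivWithin_le' (𝕜 := ℝ) (f := f)
    (f' := fderiv ℝ f) (φ := fderiv ℝ f x) (C := 9 * B * ρ)
    (fun z _ => ((hf.differentiable (by simp)) z).hasFDerivAt.hasFDerivWithinAt) h1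
    (mem_closedBall_self hρ0) (show y ∈ closedBall x ρ by rw [mem_closedBall, dist_eq_norm, hρ])
  have h3 : fderiv ℝ f x (y - x) = ∑ j, pd j f x * (y j - x j) := by
    have hv : y - x = ∑ j, (y j - x j) • (Pi.single j (1 : ℝ) : V) := by
      funext i
      simp [Finset.sum_apply, Pi.single_apply]
    conv_lhs => rw [hv]
    rw [map_sum]
    refine Finset.sum_congr rfl fun j _ => ?_
    rw [map_smul, smul_eq_mul, mul_comm]
    rfl
  rw [h3, Real.norm_eq_abs, ← hρ] at h2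
  refine h2.trans (le_of_eq ?_)
  rw [← hρ]
  ring

lemma hfd_of_quad {f : V → ℝ} {x : V} {r C : ℝ} {A : V →L[ℝ] ℝ} (hr : 0 < r)
    (h : ∀ y ∈ ball x r, |f y - f x - A (y - x)| ≤ C * ‖y - x‖ ^ 2) : HasFDerivAt f A x := by
  rw [hasFDerivAt_iff_isLittleO]
  have h1 : (fun y => f y - f x - A (y - x)) =O[𝓝 x] fun y => ‖y - x‖ ^ 2 := by
    apply Asymptotics.IsBigO.of_bound C
    filter_upwards [ball_mem_nhds x hr] with y hy
    rw [Real.norm_eq_abs, Real.norm_of_nonneg (by positivity)]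
    exact h y hy
  exact h1.trans_isLittleO (Asymptotics.isLittleO_pow_sub_sub x (by norm_num))

lemma BS.hfd (h : BS U F) (x : V) :
    HasFDerivAt (ulf U F) (lin3 fun j => ulf U (fun n => H459R3.NS.pd j (F n)) x) x := by
  have hb : ∀ i j, ∃ B : ℝ, 0 ≤ B ∧ ∀ᶠ n in (U : Filter ℕ), ∀ y ∈ ball (0 : V) (‖x‖ + 1),
      |H459R3.NS.pd i (H459R3.NS.pd j (F n)) y| ≤ B := fun i j => ((h.pd j).pd i).bd _
  choose B hB0 hB using hb
  obtain ⟨C, hC⟩ : ∃ C, C = ∑ i, ∑ j, B i j := ⟨_, rfl⟩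
  have hBC : ∀ i j, B i j ≤ C := by
    intro i j
    rw [hC]
    exact (Finset.single_le_sum (f := fun j => B i j) (fun j _ => hB0 i j) (Finset.mem_univ j)).trans
      (Finset.single_le_sum (f := fun i => ∑ j, B i j)
        (fun i _ => Finset.sum_nonneg fun j _ => hB0 i j) (Finset.mem_univ i))
  have hev : ∀ᶠ n in (U : Filter ℕ), ∀ y ∈ ball x 1, ∀ i j,
      |H459R3.NS.pd i (H459R3.NS.pd j (F n)) y| ≤ C := by
    have h1 : ∀ᶠ n in (U : Filter ℕ), ∀ i j, ∀ y ∈ ball (0 : V) (‖x‖ + 1),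
      |H459R3.NS.pd i (H459R3.NS.pd j (F n)) y| ≤ B i j := by
      rw [eventually_all]
      intro i
      rw [eventually_all]
      intro j
      exact hB i j
    filter_upwards [h1] with n hn y hy i j
    refine (hn i j y ?_).trans (hBC i j)
    rw [mem_ball, dist_eq_norm] at hy
    rw [mem_ball, dist_zero_right]
    calc ‖y‖ = ‖(y - x) + x‖ := by congr 1; abel
      _ ≤ ‖y - x‖ + ‖x‖ := norm_add_le _ _
      _ < _ := by linarith
  refine hfd_of_quad (r := 1) (C := 9 * C) one_pos ?_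
  intro y hy
  have h1 : Tendsto (fun n => |F n y - F n x - ∑ j, H459R3.NS.pd j (F n) x * (y j - x j)|) U
      (𝓝 |ulf U F y - ulf U F x - ∑ j, ulf U (fun n => H459R3.NS.pd j (F n)) x * (y j - x j)|) := by
    apply Tendsto.abs
    apply ((h.tendsto y).sub (h.tendsto x)).sub
    exact tendsto_finsetSum _ fun j _ => ((h.pd j).tendsto x).mul_const _
  have h2 : (lin3 fun j => ulf U (fun n => H459R3.NS.pd j (F n)) x) (y - x)
      = ∑ j, ulf U (fun n => H459R3.NS.pd j (F n)) x * (y j - x j) := by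
    rw [lin3_apply]
    rfl
  rw [h2]
  apply le_of_tendsto h1
  filter_upwards [hev, h.1] with n hn hsm
  exact taylor2 hsm hn hy

lemma BS.pd_ulf (h : BS U F) (j : Fin 3) :
    H459R3.NS.pd j (ulf U F) = ulf U (fun n => H459R3.NS.pd j (F n)) := by
  funext x
  unfold H459R3.NS.pd
  rw [(h.hfd x).fderiv, lin3_single]
  rfl

lemma BS.smooth_nat (n : ℕ) : ∀ {F : ℕ → V → ℝ}, BS U F → ContDiff ℝ n (ulf U F) := by
  induction n with
  | zero =>
    intro F h
    rw [Nat.cast_zero, contDiff_zero]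
    exact continuous_iff_continuousAt.2 fun x => (h.hfd x).continuousAt
  | succ n ih =>
    intro F h
    rw [Nat.cast_succ, contDiff_succ_iff_fderiv]
    refine ⟨fun x => (h.hfd x).differentiableAt, by simp, ?_⟩
    have e : fderiv ℝ (ulf U F) = fun x => ∑ j, (ulf U (fun n => H459R3.NS.pd j (F n)) x)
        • ContinuousLinearMap.proj (R := ℝ) (φ := fun _ : Fin 3 => ℝ) j := by
      funext x
      rw [(h.hfd x).fderiv]
      rfl
    rw [e]
    exact ContDiff.sum fun j _ => (ih (h.pd j)).smul contDiff_const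

lemma BS.smooth (h : BS U F) : ContDiff ℝ ∞ (ulf U F) := by
  rw [contDiff_infty]
  exact fun n => BS.smooth_nat n h

/-- Iterated derivatives. -/
noncomputable def it (l : List (Fin 3)) (f : V → ℝ) : V → ℝ := l.foldl (fun g i => H459R3.NS.pd i g) f

lemma it_nil (f : V → ℝ) : it [] f = f := rfl

lemma it_cons (i : Fin 3) (l : List (Fin 3)) (f : V → ℝ) :
    it (i :: l) f = it l (H459R3.NS.pd i f) := rfl

lemma it_sm (l : List (Fin 3)) : ∀ {f : V → ℝ}, ContDiff ℝ ∞ f → ContDiff ℝ ∞ (it l f) := by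
  induction l with
  | nil => intro f hf; exact hf
  | cons i l ih => intro f hf; exact ih (sm_pd hf i)

lemma BS.it (l : List (Fin 3)) : ∀ {F : ℕ → V → ℝ}, BS U F → BS U (fun n => it l (F n)) := by
  induction l with
  | nil => intro F h; exact h
  | cons i l ih => intro F h; exact ih (h.pd i)

lemma BS.it_ulf (l : List (Fin 3)) : ∀ {F : ℕ → V → ℝ}, BS U F →
    TI.it l (ulf U F) = ulf U (fun n => TI.it l (F n)) := by
  induction l with
  | nil => intro F h; rfl
  | cons i l ih =>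
    intro F h
    rw [it_cons, h.pd_ulf i, ih (h.pd i)]
    rfl

lemma SS_it (k : ℕ) (f : V → ℝ) (l : List (Fin 3)) (hl : l.length = k) (x : V) :
    TI.it l f x ^ 2 ≤ SS k f x := by
  rw [← hl]
  exact Pool.Agent.TH305.DR.SS_foldl l f x

/-- The sum of the squares of the derivatives passes to the limit. -/
lemma BS.SS_tendsto (k : ℕ) : ∀ {F : ℕ → V → ℝ}, BS U F → ∀ x,
    Tendsto (fun n => SS k (F n) x) U (𝓝 (SS k (ulf U F) x)) := by
  induction k with
  | zero =>
    intro F h x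
    exact (h.tendsto x).pow 2
  | succ k ih =>
    intro F h x
    show Tendsto (fun n => ∑ i, SS k (H459R3.NS.pd i (F n)) x) U
      (𝓝 (∑ i, SS k (H459R3.NS.pd i (ulf U F)) x))
    refine tendsto_finsetSum _ fun i _ => ?_
    rw [h.pd_ulf i]
    exact ih (h.pd i) x

end

end Pool.Agent.H305.TI
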