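import Pool.Agent.H305.TI.Pois

/-!
Scale invariant bounds of the derivatives, uniform in space.
-/

set_option autoImplicit false

open MeasureTheory Set Metric Filter Topology
open scoped ContDiff

namespace Pool.Agent.H305.TI

open H459R3.NS W221.NS Pool.Agent.V1183.PM
open Pool.Agent.TH305.DR (Om bb SS SS_zero SS_succ SS_one SS_nonneg SV ST ST_nonneg SV_nonneg om_sm
  bb_sm pd_congr_open pd_const' pd_sum' SS_scale SS_congr_open pd_sub' pd_add' pd_neg')
open Pool.Agent.W583.MD (sm_pd cs_pd pd_mul')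

lemma SS_shift (n : ℕ) {f : V → ℝ} (hf : ContDiff ℝ ∞ f) (a x : V) :
    SS n (fun y => f (a + y)) x = SS n f (a + x) := by
  have h := SS_scale n hf 1 1 a x
  simpa using h

lemma pd_shift (f : V → ℝ) (a x : V) (i : Fin 3) :
    pd i (fun y => f (a + y)) x = pd i f (a + x) := by
  unfold pd
  rw [fderiv_comp_add_left]

section
variable {M T L μ : ℝ} {u : ℝ → V → V} {p : ℝ → V → ℝ} {t : ℝ} {x : V}

lemma SS_scu (hμ : 0 < μ) (h : TG M T L u p) (ht : t ∈ Ioo 0 (T / μ ^ 2)) (n : ℕ) (i : Fin 3)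
    (x : V) : SS n (fun y => scu μ u t y i) x
      = μ ^ (2 * n + 2) * SS n (fun y => u (μ ^ 2 * t) y i) (μ • x) := by
  have h1 := SS_scale n (h.sl (sc_mem hμ ht) i) μ μ 0 x
  simp only [zero_add] at h1
  have e : (fun y => scu μ u t y i) = fun y => μ * u (μ ^ 2 * t) (μ • y) i := rfl
  rw [e, h1]
  ring

lemma SV_scu (hμ : 0 < μ) (h : TG M T L u p) (ht : t ∈ Ioo 0 (T / μ ^ 2)) (n : ℕ) (x : V) :
    SV n (scu μ u t) x = μ ^ (2 * n + 2) * SV n (u (μ ^ 2 * t)) (μ • x) := by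
  unfold SV
  rw [Finset.mul_sum]
  exact Finset.sum_congr rfl fun i _ => SS_scu hμ h ht n i x

lemma ST_scu (hμ : 0 < μ) (h : TG M T L u p) (ht : t ∈ Ioo 0 (T / μ ^ 2)) (n : ℕ) (x : V) :
    ST n (scu μ u t) x = μ ^ (2 * n + 4) * ST n (u (μ ^ 2 * t)) (μ • x) := by
  unfold Pool.Agent.TH305.DR.ST
  rw [Finset.mul_sum]
  refine Finset.sum_congr rfl fun q _ => ?_
  have e : Om q.1 q.2 (scu μ u t) = fun y => μ ^ 2 * Om q.1 q.2 (u (μ ^ 2 * t)) (0 + μ • y) := by
    funext y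
    unfold Om
    rw [su_pd hμ h ht, su_pd hμ h ht, zero_add]
    ring
  rw [e, SS_scale n (om_sm (fun i => h.sl (sc_mem hμ ht) i) q.1 q.2), zero_add]
  ring

lemma ST_shift (n : ℕ) {v : V → V} (hv : ∀ i, ContDiff ℝ ∞ (fun y => v y i)) (a x : V) :
    ST n (fun y => v (a + y)) x = ST n v (a + x) := by
  unfold Pool.Agent.TH305.DR.ST
  refine Finset.sum_congr rfl fun q _ => ?_
  have e : Om q.1 q.2 (fun y => v (a + y)) = fun y => Om q.1 q.2 v (a + y) := by
    funext y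
    unfold Om
    rw [pd_shift (fun y => v y q.2), pd_shift (fun y => v y q.1)]
  rw [e, SS_shift n (om_sm hv q.1 q.2)]

lemma SV_shift (n : ℕ) {v : V → V} (hv : ∀ i, ContDiff ℝ ∞ (fun y => v y i)) (a x : V) :
    SV n (fun y => v (a + y)) x = SV n v (a + x) := by
  unfold SV
  exact Finset.sum_congr rfl fun i _ => SS_shift n (hv i) a x

/-- Translation in space. -/
lemma TG.shift (h : TG M T L u p) {a : V} {L' : ℝ} (h1 : 2 * L' ≤ ‖a‖) (h2 : ‖a‖ + L' ≤ L) :
    TG M T L' (fun t y => u t (a + y)) (fun t y => p t (a + y)) := by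
  have hm : ∀ y ∈ ball (0 : V) L', a + y ∈ ball (0 : V) L ∧ ‖y‖ ≤ ‖a + y‖ := by
    intro y hy
    rw [mem_ball, dist_zero_right] at hy ⊢
    constructor
    · exact (norm_add_le a y).trans_lt (by linarith)
    · have : ‖a‖ ≤ ‖a + y‖ + ‖y‖ := by
        calc ‖a‖ = ‖(a + y) - y‖ := by congr 1; abel
          _ ≤ _ := norm_sub_le _ _
      linarith
  have hc : ContDiffOn ℝ ∞ (fun z : ℝ × V => (z.1, a + z.2)) (Ioo 0 T ×ˢ univ) := by fun_prop
  refine ⟨?_, ?_, ?_, ?_, ?_, ?_⟩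
  · exact h.su.comp hc (fun z hz => ⟨hz.1, mem_univ _⟩)
  · exact h.sp.comp hc (fun z hz => ⟨hz.1, mem_univ _⟩)
  · intro t ht y hy
    have := h.dv t ht _ (hm y hy).1
    unfold W221.NS.dv at this ⊢
    rw [← this]
    exact Finset.sum_congr rfl fun i _ => pd_shift (fun y => u t y i) a y i
  · intro t ht y hy i
    have := h.mom t ht _ (hm y hy).1 i
    unfold adv lap at this ⊢
    have e1 : ∀ j, pd j (fun y => u t (a + y) i) = fun y => pd j (fun y => u t y i) (a + y) := by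
      intro j
      funext z
      exact pd_shift (fun y => u t y i) a z j
    have e2 : pd i (fun y => p t (a + y)) y = pd i (p t) (a + y) := pd_shift (p t) a y i
    simp only [e1, e2, pd_shift]
    exact this
  · intro t ht y hy
    have h3 := h.bu t ht _ (hm y hy).1
    refine le_trans ?_ h3
    apply mul_le_mul_of_nonneg_left _ (norm_nonneg _)
    linarith [(hm y hy).2]
  · intro t ht y hy
    have h3 := h.bp t ht _ (hm y hy).1
    refine le_trans ?_ h3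
    apply mul_le_mul_of_nonneg_left _ (abs_nonneg _)
    apply pow_le_pow_left₀ (by positivity)
    linarith [(hm y hy).2]

end

/-- Bounds of the derivatives of the velocity. -/
theorem derU {M : ℝ} (hM : 0 < M) (NN : ℕ) : ∃ D : ℝ, 0 < D ∧ ∀ (T L : ℝ) (u : ℝ → V → V)
    (p : ℝ → V → ℝ), TG M T L u p → ∀ t x, t < T → 2 * (T - t) ≤ T → 24 * √(T - t) ≤ L →
      ‖x‖ ≤ L / 2 → ∀ n ≤ NN, (T - t) ^ (n + 2) * ST n (u t) x ≤ D ∧
        (T - t) ^ (n + 2) * SV (n + 1) (u t) x ≤ D := by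
  obtain ⟨D1, hD1, h1⟩ := derN (M := M) (q := 1 / 2) (K := 8) hM (by norm_num) le_rfl (by norm_num) NN
  obtain ⟨D2, hD2, h2⟩ := derN (M := M) (q := 1 / 2) (K := 1) hM (by norm_num) le_rfl one_pos NN
  refine ⟨D1 + D2, by positivity, ?_⟩
  intro T L u p h t x htT ht2 hL hx n hn
  obtain ⟨θ, hθ⟩ : ∃ θ, θ = T - t := ⟨_, rfl⟩
  have hθ0 : 0 < θ := by rw [hθ]; linarith
  rw [← hθ] at ht2 hL ⊢
  obtain ⟨μ, hμ⟩ : ∃ μ, μ = √θ := ⟨_, rfl⟩
  have hμ0 : 0 < μ := by rw [hμ]; exact Real.sqrt_pos.2 hθ0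
  have hμ2 : μ ^ 2 = θ := by rw [hμ]; exact Real.sq_sqrt hθ0.le
  rw [← hμ] at hL
  have hT2 : 2 ≤ T / μ ^ 2 := by
    rw [hμ2, le_div_iff₀ hθ0]
    exact ht2
  obtain ⟨s, hs⟩ : ∃ s, s = T / μ ^ 2 - 1 := ⟨_, rfl⟩
  have hst : μ ^ 2 * s = t := by
    rw [hs, mul_sub, mul_div_cancel₀ _ (by positivity), hμ2, hθ]
    ring
  have hs1 : s ∈ Icc (T / μ ^ 2 - 1) (T / μ ^ 2 - (1 / 2) ^ 2) := by
    rw [hs]
    exact ⟨le_rfl, by linarith⟩
  have hs2 : s ∈ Ioo 0 (T / μ ^ 2) := by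
    rw [hs]
    constructor <;> linarith
  have epow : θ ^ (n + 2) = μ ^ (2 * n + 4) := by
    rw [← hμ2, ← pow_mul]
    congr 1
  rcases le_or_gt ‖x‖ (8 * μ) with hc | hc
  · -- near the centre
    have hTG := TG.sc hμ0 h
    have hKL : (8 : ℝ) + 3 < L / μ := by
      rw [lt_div_iff₀ hμ0]
      linarith
    have hxb : μ⁻¹ • x ∈ ball (0 : V) (8 + 1) := by
      rw [mem_ball, dist_zero_right, norm_smul, norm_inv, Real.norm_of_nonneg hμ0.le,
        inv_mul_lt_iff₀ hμ0]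
      linarith
    have hres := h1 _ _ _ _ hTG hT2 hKL s hs1 _ hxb n hn
    rw [ST_scu hμ0 h hs2, SV_scu hμ0 h hs2, hst, smul_smul, mul_inv_cancel₀ hμ0.ne', one_smul] at hres
    rw [epow]
    constructor
    · linarith [hres.1]
    · have e : μ ^ (2 * (n + 1) + 2) = μ ^ (2 * n + 4) := by congr 1
      rw [e] at hres
      linarith [hres.2]
  · -- far from the centre
    have h' := TG.shift (a := x) (L' := ‖x‖ / 2) h (by linarith) (by linarith)
    have hTG := TG.sc hμ0 h'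
    have hKL : (1 : ℝ) + 3 < ‖x‖ / 2 / μ := by
      rw [lt_div_iff₀ hμ0]
      linarith
    have hxb : (0 : V) ∈ ball (0 : V) (1 + 1) := by
      rw [mem_ball, dist_self]
      norm_num
    have hres := h2 _ _ _ _ hTG hT2 hKL s hs1 _ hxb n hn
    rw [ST_scu hμ0 h' hs2, SV_scu hμ0 h' hs2, hst, smul_zero] at hres
    have ht0 : t ∈ Ioo 0 T := ⟨by linarith, htT⟩
    rw [ST_shift n (h.sl ht0), SV_shift (n + 1) (h.sl ht0), add_zero] at hres
    rw [epow]
    constructor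
    · linarith [hres.1]
    · have e : μ ^ (2 * (n + 1) + 2) = μ ^ (2 * n + 4) := by congr 1
      rw [e] at hres
      linarith [hres.2]

end Pool.Agent.H305.TI
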